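import Pool.Agent.U963.LN.Words

/-!
# The closures: they are knots, and invariants of low order do not see them
-/

set_option autoImplicit false

namespace Pool.Agent.U963.LN

open Pool.Agent.Y463.SK (invL permL)
open Pool.Agent.U963.JN (Lev at_)
open Pool.Agent.Y466.FT (RS ES Iv Tr Dg ext phi cl cl_eq draw dg_phi iv_phi run_n plug fits_draw wdt wdt_append wdt_draw)
open Pool.Agent.H835R2.Knot
open Pool.Agent.H835R2.Flat (iso_step)

/-- `k` maxima, one inside the other, all directed downwards on the left side -/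
def births : ℕ → Word
  | 0 => []
  | k + 1 => births k ++ [.birth k true]

/-- `k` minima, one inside the other -/
def deaths : ℕ → Word
  | 0 => []
  | k + 1 => .death k :: deaths k

/-- the closure of a braid word on `k` strands: the word is drawn from top to bottom on `k` strands which
are directed downwards, and the strands are closed on the right side -/
def clo (k : ℕ) (w : List (Bool × ℕ)) : Word := births k ++ draw w ++ deaths k

/-- the word `σ_{k-1} ⋯ σ_0` -/
def tw : ℕ → List (Bool × ℕ)
  | 0 => []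
  | k + 1 => (true, k) :: tw k

/-- **The knots** `K(b', b, ε, m)`: the closure of `[σ_{m+1}^{± 2}, z_m] σ_{m+1} ⋯ σ_0` on `m + 3` strands -/
def kn (b' b : Bool) (ε : ℕ → Bool) (m : ℕ) : Word := clo (m + 3) (xw b' b ε m ++ tw (m + 2))

theorem draw_app (w w' : List (Bool × ℕ)) : draw (w ++ w') = draw w ++ draw w' := by simp [draw]

/-! ### the fronts -/

theorem births_front (k : ℕ) : (run (births k) Front.empty).n = 2 * k ∧ 
    ∀ i < k, (run (births k) Front.empty).dir i = true := by
  induction k with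
  | zero => exact ⟨rfl, fun i hi => absurd hi (by omega)⟩
  | succ k ih =>
    have e : run (births (k + 1)) Front.empty = (Piece.birth k true).act (run (births k) Front.empty) := by
      rw [births, run_append]; rfl
    rw [e]
    refine ⟨?_, fun i hi => ?_⟩
    · show (run (births k) Front.empty).n + 2 = _
      rw [ih.1]; ring
    · show (if i < k then _ else if i = k then true else _) = true
      by_cases h : i < k
      · rw [if_pos h]; exact ih.2 i h
      · rw [if_neg h, if_pos (by omega)]

theorem tw_lt (k : ℕ) : ∀ l ∈ tw k, l.2 + 1 < k + 1 := by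
  induction k with
  | zero => intro l hl; exact absurd hl (by simp [tw])
  | succ k ih =>
    intro l hl
    rcases List.mem_cons.1 hl with rfl | h
    · show k + 1 < k + 1 + 1; omega
    · exact (ih l h).trans (by omega)

/-! ### the trivial closure -/

theorem run_draw_n (w : List (Bool × ℕ)) (F : Front) : (run (draw w) F).n = F.n := by
  rw [run_n, wdt_draw]

theorem fits_of_closed {x y z : Word} (h : Closed (x ++ y ++ z)) : Fits y (run x Front.empty) := by
  have h1 := h.1
  rw [fits_append, fits_append] at h1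
  exact h1.1.2

/-- a minimum goes up through a positive braid -/
theorem pass_death {m : ℕ} (w : List (Bool × ℕ)) (hw : ∀ l ∈ w, l.2 + 2 ≤ m ∧ l.1 = true) : ∀ (x y : Word), 
    Closed (x ++ [.death m] ++ (draw w ++ y)) → 
    Closed (x ++ draw w ++ ([.death m] ++ y)) ∧ 
      Isotopic (x ++ [.death m] ++ (draw w ++ y)) (x ++ draw w ++ ([.death m] ++ y)) := by
  induction w with
  | nil =>
    intro x y h
    have e : x ++ [Piece.death m] ++ (draw [] ++ y) = x ++ draw [] ++ ([.death m] ++ y) := by simp [draw]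
    rw [e] at h ⊢
    exact ⟨h, Relation.EqvGen.refl _⟩
  | cons l w ih =>
    intro x y h
    obtain ⟨b, j⟩ := l
    have hj := hw (b, j) List.mem_cons_self
    obtain ⟨hj1, hj2⟩ := hj
    simp only at hj1 hj2
    subst hj2
    have e1 : x ++ [Piece.death m] ++ (draw ((true, j) :: w) ++ y) = 
      x ++ [.death m, .pos j] ++ (draw w ++ y) := by simp [draw, Pool.Agent.Y466.FT.piece]
    rw [e1] at h ⊢
    have mv : Move [.pos j, .death m] [.death m, .pos j] := Move.exchange (.pos j) (.death m) (by
      show j + 2 ≤ m; exact hj1)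
    have hf := fits_of_closed h
    set F := run x Front.empty with hF
    have hf1 : m + 2 ≤ F.n ∧ F.dir (m + 1) = !F.dir m := hf.1
    have hr : Fits [.pos j, .death m] F := by
      refine ⟨by show j + 2 ≤ F.n; omega, ⟨by show m + 2 ≤ F.n; omega, ?_⟩, trivial⟩
      show F.dir (sw j (m + 1)) = !F.dir (sw j m)
      unfold sw
      rw [if_neg (by omega), if_neg (by omega), if_neg (by omega), if_neg (by omega)]
      exact hf1.2
    obtain ⟨c1, i1⟩ := iso_step (Or.inr mv) h hr
    have e2 : x ++ [Piece.pos j, .death m] ++ (draw w ++ y) = 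
      (x ++ [.pos j]) ++ [.death m] ++ (draw w ++ y) := by simp
    rw [e2] at c1 i1
    obtain ⟨c2, i2⟩ := ih (fun l hl => hw l (List.mem_cons_of_mem _ hl)) _ _ c1
    have e3 : x ++ [Piece.pos j] ++ draw w ++ ([.death m] ++ y) = 
      x ++ draw ((true, j) :: w) ++ ([.death m] ++ y) := by simp [draw, Pool.Agent.Y466.FT.piece]
    rw [e3] at c2 i2
    exact ⟨c2, i1.trans _ _ _ i2⟩

/-- a crossing goes up through a positive braid -/
theorem pass_neg {m : ℕ} (w : List (Bool × ℕ)) (hw : ∀ l ∈ w, l.2 + 2 ≤ m ∧ l.1 = true) : ∀ (x y : Word), 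
    Closed (x ++ draw w ++ ([.neg m] ++ y)) → 
    Closed (x ++ [.neg m] ++ (draw w ++ y)) ∧ 
      Isotopic (x ++ draw w ++ ([.neg m] ++ y)) (x ++ [.neg m] ++ (draw w ++ y)) := by
  induction w with
  | nil =>
    intro x y h
    have e : x ++ [Piece.neg m] ++ (draw [] ++ y) = x ++ draw [] ++ ([.neg m] ++ y) := by simp [draw]
    rw [e]
    exact ⟨h, Relation.EqvGen.refl _⟩
  | cons l w ih =>
    intro x y h
    obtain ⟨b, j⟩ := l
    have hj := hw (b, j) List.mem_cons_self
    obtain ⟨hj1, hj2⟩ := hj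
    simp only at hj1 hj2
    subst hj2
    have e1 : x ++ draw ((true, j) :: w) ++ ([.neg m] ++ y) = 
      (x ++ [.pos j]) ++ draw w ++ ([.neg m] ++ y) := by simp [draw, Pool.Agent.Y466.FT.piece]
    rw [e1] at h ⊢
    obtain ⟨c1, i1⟩ := ih (fun l hl => hw l (List.mem_cons_of_mem _ hl)) _ _ h
    have e2 : (x ++ [Piece.pos j]) ++ [.neg m] ++ (draw w ++ y) = 
      x ++ [.pos j, .neg m] ++ (draw w ++ y) := by simp
    rw [e2] at c1 i1
    have mv : Move [.pos j, .neg m] [.neg m, .pos j] := Move.exchange (.pos j) (.neg m) (by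
      show j + 2 ≤ m; exact hj1)
    have hf := fits_of_closed c1
    set F := run x Front.empty with hF
    have hf1 : m + 2 ≤ F.n := hf.2.1
    have hr : Fits [.neg m, .pos j] F := 
      ⟨by show m + 2 ≤ F.n; exact hf1, by show j + 2 ≤ F.n; omega, trivial⟩
    obtain ⟨c2, i2⟩ := iso_step (Or.inl mv) c1 hr
    have e3 : x ++ [Piece.neg m, .pos j] ++ (draw w ++ y) = 
      x ++ [.neg m] ++ (draw ((true, j) :: w) ++ y) := by simp [draw, Pool.Agent.Y466.FT.piece]
    rw [e3] at c2 i2
    exact ⟨c2, i1.trans _ _ _ i2⟩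

theorem tw_pos (k : ℕ) : ∀ l ∈ tw k, l.2 + 2 ≤ k + 1 ∧ l.1 = true := by
  induction k with
  | zero => intro l hl; exact absurd hl (by simp [tw])
  | succ k ih =>
    intro l hl
    rcases List.mem_cons.1 hl with rfl | h
    · exact ⟨le_rfl, rfl⟩
    · exact ⟨(ih l h).1.trans (by omega), (ih l h).2⟩

theorem clo_tw_step (k : ℕ) (h : Closed (clo (k + 1) (tw k))) : Closed (clo (k + 2) (tw (k + 1))) ∧ 
    Isotopic (clo (k + 1) (tw k)) (clo (k + 2) (tw (k + 1))) := by
  obtain ⟨hn, hd⟩ := births_front (k + 1)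
  set F := run (births (k + 1)) Front.empty with hF
  -- insertion of a zigzag
  have e1 : clo (k + 1) (tw k) = births (k + 1) ++ [] ++ (draw (tw k) ++ deaths (k + 1)) := by simp [clo]
  rw [e1] at h ⊢
  have hd2 : ((Piece.birth k true).act F).dir (k + 1 + 1) = true := by
    show (if k + 1 + 1 < k then _ else if k + 1 + 1 = k then true else if k + 1 + 1 = k + 1 then !true else F.dir k) = true
    rw [if_neg (by omega), if_neg (by omega), if_neg (by omega)]
    exact hd k (by omega)
  have hd1 : ((Piece.birth k true).act F).dir (k + 1) = false := by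
    show (if k + 1 < k then _ else if k + 1 = k then true else if k + 1 = k + 1 then !true else _) = false
    rw [if_neg (by omega), if_neg (by omega), if_pos rfl]
    rfl
  obtain ⟨c1, i1⟩ := iso_step (r := [.birth k true, .death (k + 1)]) (Or.inr (Move.zigzag₁ k true)) h
    ⟨by show k ≤ F.n; omega, ⟨by show k + 1 + 2 ≤ F.n + 2; omega, by rw [hd2, hd1]; rfl⟩, trivial⟩
  -- the minimum goes down
  have e2 : births (k + 1) ++ [Piece.birth k true, .death (k + 1)] ++ (draw (tw k) ++ deaths (k + 1)) = 
    (births (k + 1) ++ [.birth k true]) ++ [.death (k + 1)] ++ (draw (tw k) ++ deaths (k + 1)) := by simp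
  rw [e2] at c1 i1
  obtain ⟨c2, i2⟩ := pass_death (m := k + 1) (tw k) (tw_pos k) _ _ c1
  -- a curl
  have c2' := c2
  have e3 : births (k + 1) ++ [Piece.birth k true] ++ draw (tw k) ++ ([.death (k + 1)] ++ deaths (k + 1)) = 
    (births (k + 1) ++ [Piece.birth k true] ++ draw (tw k)) ++ [.death (k + 1)] ++ deaths (k + 1) := by 
    simp only [List.append_assoc]
  rw [e3] at c2 i2
  have f2 := fits_of_closed c2
  set G := run (births (k + 1) ++ [Piece.birth k true] ++ draw (tw k)) Front.empty with hG
  have f3 : k + 1 + 2 ≤ G.n ∧ G.dir (k + 1 + 1) = !G.dir (k + 1) := f2.1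
  obtain ⟨c3, i3⟩ := iso_step (r := [.neg (k + 1), .death (k + 1)]) (Or.inr (Move.firstDeathNeg (k + 1))) c2
    ⟨f3.1, ⟨f3.1, by
      show G.dir (sw (k + 1) (k + 1 + 1)) = !G.dir (sw (k + 1) (k + 1))
      have s1 : sw (k + 1) (k + 1 + 1) = k + 1 := by unfold sw; rw [if_neg (by omega), if_pos rfl]
      have s2 : sw (k + 1) (k + 1) = k + 1 + 1 := by unfold sw; rw [if_pos rfl]
      rw [s1, s2, f3.2, Bool.not_not]⟩, trivial⟩
  -- the crossing goes up
  have e4 : births (k + 1) ++ [Piece.birth k true] ++ draw (tw k) ++ [.neg (k + 1), .death (k + 1)] ++ deaths (k + 1) = 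
    (births (k + 1) ++ [.birth k true]) ++ draw (tw k) ++ ([.neg (k + 1)] ++ (.death (k + 1) :: deaths (k + 1))) := by 
    simp
  rw [e4] at c3 i3
  obtain ⟨c4, i4⟩ := pass_neg (m := k + 1) (tw k) (tw_pos k) _ _ c3
  -- and through the maximum
  have e5 : births (k + 1) ++ [Piece.birth k true] ++ [.neg (k + 1)] ++ (draw (tw k) ++ (.death (k + 1) :: deaths (k + 1))) = 
    births (k + 1) ++ [.birth k true, .neg (k + 1)] ++ (draw (tw k) ++ (.death (k + 1) :: deaths (k + 1))) := by simp
  rw [e5] at c4 i4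
  obtain ⟨c5, i5⟩ := iso_step (r := [.birth (k + 1) true, .pos k]) (Or.inl (Move.slideBirth₂ k true)) c4
    ⟨by show k + 1 ≤ F.n; omega, by show k + 2 ≤ F.n + 2; omega, trivial⟩
  have e6 : births (k + 1) ++ [Piece.birth (k + 1) true, .pos k] ++ (draw (tw k) ++ (.death (k + 1) :: deaths (k + 1))) = 
    clo (k + 2) (tw (k + 1)) := by
    simp [clo, births, deaths, tw, draw, Pool.Agent.Y466.FT.piece]
  rw [e6] at c5 i5
  exact ⟨c5, i1.trans _ _ _ (i2.trans _ _ _ (i3.trans _ _ _ (i4.trans _ _ _ i5)))⟩

theorem clo_tw (k : ℕ) : Closed (clo (k + 1) (tw k)) ∧ Isotopic circle (clo (k + 1) (tw k)) := by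
  induction k with
  | zero => exact ⟨by decide, Relation.EqvGen.refl _⟩
  | succ k ih =>
    obtain ⟨c, i⟩ := clo_tw_step k ih.1
    exact ⟨c, ih.2.trans _ _ _ i⟩

theorem knot_tw (k : ℕ) : IsKnot (clo (k + 1) (tw k)) := 
  (Pool.Agent.H835R2.Knot.isotopic_knot (clo_tw k).2).1 (by decide)

/-! ### insertion of the commutators -/

section
variable {A : Type} [AddCommGroup A]

theorem ext_insert {v : Word → A} {d : ℕ} (hv : IsInvariant v) (hd : DegreeLE d v) (u₀ u₁ : Word) 
    (b' b : Bool) (ε : ℕ → Bool) (m : ℕ) (h : m + 3 ≤ (run u₀ Front.empty).n) (hn : d ≤ m + 1) : 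
    ext v (u₀ ++ draw (xw b' b ε m) ++ u₁) = ext v (u₀ ++ u₁) := by
  have h0 : ∀ j : Fin 1, Pool.Agent.Y466.FT.wd u₀ (fun _ => u₁) j = (run u₀ Front.empty).n := by
    intro j
    have hj : j = 0 := Subsingleton.elim _ _
    subst hj
    rw [run_n]
    unfold Pool.Agent.Y466.FT.wd
    simp
    rfl
  have hd' : DegreeLE (m + 1) v := Pool.Agent.Y466.FT.DegreeLE.mono hn hd
  have h1 := dg_phi u₀ (fun _ : Fin 1 => u₁) hd'
  have h2 := iv_phi u₀ (fun _ : Fin 1 => u₁) hv
  have h3 := lev_xw (A := A) (m := Pool.Agent.Y466.FT.wd u₀ (fun _ : Fin 1 => u₁)) (j := 0) b ε m b' 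
    (by rw [h0]; exact h) _ h2 0 (by
      have : 0 + (m + 2) = m + 1 + 1 := by omega
      rw [this]
      exact h1)
  have h4 := h3 1
  unfold Tr at h4
  rw [mul_one, sub_eq_zero] at h4
  have e1 : phi u₀ (fun _ : Fin 1 => u₁) v (at_ 0 (xw b' b ε m)) = 
      ext v (u₀ ++ draw (xw b' b ε m) ++ u₁) := by
    unfold phi plug at_ draw
    simp
  have e2 : phi u₀ (fun _ : Fin 1 => u₁) v 1 = ext v (u₀ ++ u₁) := by
    unfold phi plug
    simp
  rw [e1, e2] at h4
  exact h4

theorem knot_insert (u₀ u₁ : Word) (b' b : Bool) (ε : ℕ → Bool) (m : ℕ) 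
    (h : m + 3 ≤ (run u₀ Front.empty).n) : 
    IsKnot (u₀ ++ draw (xw b' b ε m) ++ u₁) ↔ IsKnot (u₀ ++ u₁) := by
  have hd : DegreeLE 0 (fun _ : Word => (1 : ℤ)) := by
    intro D _ S _ hS
    obtain ⟨x, rfl⟩ := Finset.card_eq_one.1 (by simpa using hS)
    rw [show ({x} : Finset ℕ).powerset = {∅, {x}} from rfl]
    rw [Finset.sum_pair (by simp)]
    simp
  have h1 := ext_insert (v := fun _ : Word => (1 : ℤ)) (fun _ _ _ _ => rfl) hd u₀ u₁ b' b ε m h (by omega)
  unfold ext at h1
  by_cases h2 : IsKnot (u₀ ++ draw (xw b' b ε m) ++ u₁) <;> by_cases h3 : IsKnot (u₀ ++ u₁)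
  · exact ⟨fun _ => h3, fun _ => h2⟩
  · rw [if_pos h2, if_neg h3] at h1
    exact absurd h1 one_ne_zero
  · rw [if_neg h2, if_pos h3] at h1
    exact absurd h1.symm one_ne_zero
  · exact ⟨fun h => absurd h h2, fun h => absurd h h3⟩

theorem insert_eq {v : Word → A} {d : ℕ} (hv : IsInvariant v) (hd : DegreeLE d v) (u₀ u₁ : Word) 
    (b' b : Bool) (ε : ℕ → Bool) (m : ℕ) (h : m + 3 ≤ (run u₀ Front.empty).n) (hn : d ≤ m + 1) 
    (hk : IsKnot (u₀ ++ u₁)) : 
    v (u₀ ++ draw (xw b' b ε m) ++ u₁) = v (u₀ ++ u₁) := by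
  have h1 := ext_insert hv hd u₀ u₁ b' b ε m h hn
  unfold ext at h1
  rwa [if_pos hk, if_pos ((knot_insert u₀ u₁ b' b ε m h).2 hk)] at h1

end

theorem kn_eq (b' b : Bool) (ε : ℕ → Bool) (m : ℕ) : kn b' b ε m = 
    births (m + 3) ++ draw (xw b' b ε m) ++ (draw (tw (m + 2)) ++ deaths (m + 3)) := by
  unfold kn clo
  rw [draw_app]
  simp only [List.append_assoc]

theorem kn_knot (b' b : Bool) (ε : ℕ → Bool) (m : ℕ) : IsKnot (kn b' b ε m) := by
  rw [kn_eq, knot_insert _ _ _ _ _ _ (by rw [(births_front (m + 3)).1]; omega)]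
  have := knot_tw (m + 2)
  unfold clo at this
  rwa [List.append_assoc] at this

/-- **Invariants of order at most `m + 1` do not distinguish `K(b', b, ε, m)` from the circle.** -/
theorem kn_vas {A : Type} [AddCommGroup A] {v : Word → A} {d : ℕ} (hv : IsInvariant v) (hd : DegreeLE d v) 
    (b' b : Bool) (ε : ℕ → Bool) (m : ℕ) (hn : d ≤ m + 1) : v (kn b' b ε m) = v circle := by
  have hk : IsKnot (births (m + 3) ++ (draw (tw (m + 2)) ++ deaths (m + 3))) := by
    have := knot_tw (m + 2)
    unfold clo at this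
    rwa [List.append_assoc] at this
  rw [kn_eq, insert_eq hv hd _ _ _ _ _ _ (by rw [(births_front (m + 3)).1]; omega) hn hk, ← List.append_assoc]
  exact (hv _ _ (by decide) (clo_tw (m + 2)).2).symm

theorem crossings_append (x y : Word) : crossings (x ++ y) = crossings x + crossings y := List.countP_append

theorem crossings_births (k : ℕ) : crossings (births k) = 0 := by
  induction k with
  | zero => rfl
  | succ k ih => rw [births, crossings_append, ih]; rfl

theorem crossings_deaths (k : ℕ) : crossings (deaths k) = 0 := by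
  induction k with
  | zero => rfl
  | succ k ih => 
    show crossings ([.death k] ++ deaths k) = 0
    rw [crossings_append, ih]; rfl

theorem crossings_draw (w : List (Bool × ℕ)) : crossings (draw w) = w.length := by
  induction w with
  | nil => rfl
  | cons l w ih =>
    obtain ⟨b, i⟩ := l
    show crossings ([Pool.Agent.Y466.FT.piece (b, i)] ++ draw w) = _
    rw [crossings_append, ih, List.length_cons, add_comm]
    cases b <;> rfl

theorem length_zw (b : Bool) (ε : ℕ → Bool) (m : ℕ) : (zw b ε m).length = 4 * m + 2 := by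
  induction m with
  | zero => rfl
  | succ m ih =>
    show (aw (m + 1) (ε m) ++ zw b ε m ++ aw (m + 1) (!ε m)).length = _
    rw [List.length_append, List.length_append, ih]
    simp only [aw, List.length_cons, List.length_nil]
    ring

theorem length_tw (k : ℕ) : (tw k).length = k := by
  induction k with
  | zero => rfl
  | succ k ih => rw [tw, List.length_cons, ih]

theorem kn_crossings (b' b : Bool) (ε : ℕ → Bool) (m : ℕ) : crossings (kn b' b ε m) = 9 * m + 10 := by
  unfold kn clo xw
  rw [crossings_append, crossings_append, crossings_births, crossings_deaths, crossings_draw]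
  simp only [List.length_append, length_zw, length_tw, aw, List.length_cons, List.length_nil]
  ring

theorem kn_length (b' b : Bool) (ε : ℕ → Bool) (m : ℕ) : (kn b' b ε m).length = 11 * m + 16 := by
  have h1 : ∀ k, (births k).length = k := by
    intro k
    induction k with
    | zero => rfl
    | succ k ih => rw [births, List.length_append, ih]; rfl
  have h2 : ∀ k, (deaths k).length = k := by
    intro k
    induction k with
    | zero => rfl
    | succ k ih => rw [deaths, List.length_cons, ih]
  unfold kn clo xw draw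
  simp only [List.length_append, List.length_map, length_zw, length_tw, aw, List.length_cons, List.length_nil, h1, h2]
  ring

end Pool.Agent.U963.LN
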