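import Pool.Agent.U963.LN.Tri

/-!
# Normalised vectors
-/

set_option autoImplicit false

namespace Pool.Agent.U963.LN

section
variable {R : Type} [CommRing R] (s s' E' : R)

/-- the normalised `2`-vectors -/
def PW (ε : ℕ → Bool) : ℕ → R × R
  | 0 => ((1 - s ^ 2) * s' ^ 3, -1)
  | m + 1 => (qp s s' (ε m) (PW ε m).1 (PW ε m).2, qw s s' (ε m) (PW ε m).1 (PW ε m).2)

/-- the number of signs `+` -/
def kp (ε : ℕ → Bool) : ℕ → ℕ
  | 0 => 0
  | m + 1 => kp ε m + if ε m then 1 else 0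

/-- the normalised value -/
def phi (ε : ℕ → Bool) : ℕ → R
  | 0 => 1
  | m + 1 => phi ε m + if ε m then 0 else 
      (1 - s ^ 2) ^ (m + 2) * ((-s ^ 2) ^ (kp ε m) * E' ^ m * rr s s' (PW s s' ε m).1 (PW s s' ε m).2)

/-- the second term for the other sign of the last letter -/
def the (ε : ℕ → Bool) (m : ℕ) : R := 
  (1 + s ^ 4) * E' ^ m * (-s ^ 2) ^ (kp ε m) * (-s' * (PW s s' ε m).1 + s' ^ 2 * (PW s s' ε m).2)

/-- the normalised values for both signs of the last letter -/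
def Psi (b' : Bool) (ε : ℕ → Bool) (m : ℕ) : R := 
  if b' then (-s' ^ 2) ^ (kp ε m) * phi s s' E' ε m 
  else (-s' ^ 2) ^ (kp ε m) * (-s' ^ 2 * (1 - s ^ 2 + s ^ 4) * phi s s' E' ε m + 
    (1 - s ^ 2) ^ (m + 2) * the s s' E' ε m)

variable {s s' E'}

theorem qp_smul (b : Bool) (c p w : R) : qp s s' b (c * p) (c * w) = c * qp s s' b p w := by
  cases b <;> simp only [qp, if_true, if_false, Bool.false_eq_true] <;> ring

theorem qw_smul (b : Bool) (c p w : R) : qw s s' b (c * p) (c * w) = c * qw s s' b p w := by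
  cases b <;> simp only [qw, if_true, if_false, Bool.false_eq_true] <;> ring

theorem rr_smul (c p w : R) : rr s s' (c * p) (c * w) = c * rr s s' p w := by
  unfold rr; ring

theorem kp_congr {ε δ : ℕ → Bool} {m : ℕ} (h : ∀ i < m, ε i = δ i) : kp ε m = kp δ m := by
  induction m with
  | zero => rfl
  | succ m ih =>
    show kp ε m + _ = kp δ m + _
    rw [ih fun i hi => h i (by omega), h m (by omega)]

theorem PW_congr {ε δ : ℕ → Bool} {m : ℕ} (h : ∀ i < m, ε i = δ i) : PW s s' ε m = PW s s' δ m := by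
  induction m with
  | zero => rfl
  | succ m ih =>
    show (qp s s' (ε m) (PW s s' ε m).1 (PW s s' ε m).2, _) = (qp s s' (δ m) (PW s s' δ m).1 (PW s s' δ m).2, _)
    rw [ih fun i hi => h i (by omega), h m (by omega)]

theorem phi_congr {ε δ : ℕ → Bool} {m : ℕ} (h : ∀ i < m, ε i = δ i) : phi s s' E' ε m = phi s s' E' δ m := by
  induction m with
  | zero => rfl
  | succ m ih =>
    have h' : ∀ i < m, ε i = δ i := fun i hi => h i (by omega)
    show phi s s' E' ε m + _ = phi s s' E' δ m + _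
    rw [ih h', h m (by omega), kp_congr h', PW_congr h']

section
variable (hs : s * s' = 1)
include hs

theorem PW_eq (ε : ℕ → Bool) (m : ℕ) : 
    pp s s' true ε m = gg s s' * (1 - s ^ 2) ^ (2 * m) * (PW s s' ε m).1 ∧ 
    ww s s' true ε m = gg s s' * (1 - s ^ 2) ^ (2 * m) * (PW s s' ε m).2 := by
  induction m with
  | zero =>
    obtain ⟨-, h2, h3⟩ := base3 hs ε
    rw [h2, h3]
    show _ = _ * ((1 - s ^ 2) * s' ^ 3) ∧ _ = _ * (-1)
    constructor <;> ring
  | succ m ih =>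
    rw [pp_succ hs, ww_succ2 hs, ih.1, ih.2, qp_smul, qw_smul]
    show _ = _ * qp s s' (ε m) (PW s s' ε m).1 (PW s s' ε m).2 ∧ _ = _ * qw s s' (ε m) (PW s s' ε m).1 (PW s s' ε m).2
    constructor <;> ring

theorem pow_s (k : ℕ) : (-s' ^ 2) ^ k * (-s ^ 2) ^ k = 1 := by
  rw [← mul_pow]
  have : -s' ^ 2 * -s ^ 2 = 1 := by linear_combination (s * s' + 1) * hs
  rw [this, one_pow]

variable (hE : (1 + s ^ 4) * E' = 1)
include hE

theorem pow_E (k : ℕ) : (1 + s ^ 4) ^ k * E' ^ k = 1 := by rw [← mul_pow, hE, one_pow]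

theorem ff_eq (ε : ℕ → Bool) (m : ℕ) : ff s s' true ε m = 
    gg s s' * (1 - s ^ 2) ^ m * (1 + s ^ 4) ^ m * ((-s' ^ 2) ^ (kp ε m) * phi s s' E' ε m) := by
  induction m with
  | zero =>
    obtain ⟨h1, -, -⟩ := base3 hs ε
    rw [h1]
    simp [kp, phi]
  | succ m ih =>
    obtain ⟨p1, p2⟩ := PW_eq hs ε m
    rw [ff_succ hs, ih, p1, p2, rr_smul]
    have hk := pow_s hs (kp ε m)
    have he := pow_E hs hE m
    cases h : ε m
    · simp only [kp, phi, h, if_false, Bool.false_eq_true, add_zero]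
      generalize rr s s' (PW s s' ε m).1 (PW s s' ε m).2 = r
      generalize phi s s' E' ε m = f
      generalize kp ε m = k at *
      linear_combination (-gg s s' * (1 - s ^ 2) ^ (2 * m + 3) * (1 + s ^ 4) * r * (-s' ^ 2) ^ k * (-s ^ 2) ^ k) * he - 
        gg s s' * (1 - s ^ 2) ^ (2 * m + 3) * (1 + s ^ 4) * r * hk
    · simp only [kp, phi, h, if_true, add_zero]
      ring

/-- **The values** -/
theorem val_Psi (b' : Bool) (ε : ℕ → Bool) (m : ℕ) : qV s s' b' true ε m = 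
    -(s + s') + gg s s' * (1 - s ^ 2) ^ m * (1 + s ^ 4) ^ m * Psi s s' E' b' ε m := by
  cases b'
  · obtain ⟨p1, p2⟩ := PW_eq hs ε m
    rw [ff_val' hs, ff_eq hs hE, p1, p2]
    simp only [Psi, the, if_false, Bool.false_eq_true]
    have hk := pow_s hs (kp ε m)
    have he := pow_E hs hE m
    generalize phi s s' E' ε m = f
    generalize kp ε m = k at *
    generalize (PW s s' ε m).1 = p
    generalize (PW s s' ε m).2 = w
    linear_combination (-gg s s' * (1 - s ^ 2) ^ (2 * m + 2) * (1 + s ^ 4) * (-s' * p + s' ^ 2 * w) * (-s' ^ 2) ^ k * (-s ^ 2) ^ k) * he - 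
        gg s s' * (1 - s ^ 2) ^ (2 * m + 2) * (1 + s ^ 4) * (-s' * p + s' ^ 2 * w) * hk
  · rw [ff_val hs, ff_eq hs hE]
    simp only [Psi, if_true]

end

end

end Pool.Agent.U963.LN
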