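import Pool.Agent.U963.LN.TL

/-!
# Insertion of a closed braid into an arbitrary diagram (connected sum)
-/

set_option autoImplicit false

namespace Pool.Agent.U963.LN

open Pool.Agent.H838R2.Jones
open Pool.Agent.H838R2.SL (toO opD)
open Pool.Agent.H835R2.Knot
open Pool.Agent.H835R2.Flat (iso_step)
open Pool.Agent.Helper454.Wh (OWord insD insD_left insD_right insD_lt swpD swpD_left swpD_right swpD_lt swpD_gt)
open Pool.Agent.Y466.FT (draw)

/-- minima which close all strands but the first -/
def dds : ℕ → Word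
  | 0 => []
  | 1 => []
  | k + 2 => .death (k + 1) :: dds (k + 1)

/-- the word `w` on `k` strands is closed, except for the first strand, and followed by `D` -/
def ins (k : ℕ) (w : List (Bool × ℕ)) (D : Word) : Word := births k ++ draw w ++ (dds k ++ D)

theorem deaths_eq (k : ℕ) : deaths (k + 1) = dds (k + 1) ++ [.death 0] := by
  induction k with
  | zero => rfl
  | succ k ih =>
    show Piece.death (k + 1) :: deaths (k + 1) = Piece.death (k + 1) :: dds (k + 1) ++ [.death 0]
    rw [ih]
    rfl

theorem ins_circle (k : ℕ) (w : List (Bool × ℕ)) : ins (k + 1) w [.death 0] = clo (k + 1) w := by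
  unfold ins clo
  rw [deaths_eq]

section
variable {R : Type} [CommRing R] {s s' : R}

theorem dir_births_succ (k : ℕ) (d : ℕ → Bool) : dirW ((births (k + 1)).map toO) d = 
    insD k true (dirW ((births k).map toO) d) := by
  rw [births, List.map_append]
  have : ∀ (u w : OWord) (d : ℕ → Bool), dirW (u ++ w) d = dirW w (dirW u d) := by
    intro u
    induction u with
    | nil => intro w d; rfl
    | cons p u ih => intro w d; exact ih w _
  rw [this]
  rfl

theorem dir_draw {k : ℕ} (w : List (Bool × ℕ)) (hw : ∀ l ∈ w, l.2 + 1 < k) (d : ℕ → Bool) 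
    (hd : ∀ i < k, d i = true) : dirW ((draw w).map toO) d = d := by
  induction w with
  | nil => rfl
  | cons l w ih =>
    obtain ⟨b, i⟩ := l
    have hi : i + 1 < k := hw (b, i) List.mem_cons_self
    have h1 : swpD i d = d := by
      funext q
      rcases lt_trichotomy q i with h | h | h
      · rw [swpD_lt d h]
      · rw [h, swpD_left, hd i (by omega), hd (i + 1) hi]
      · by_cases h3 : q = i + 1
        · rw [h3, swpD_right, hd i (by omega), hd (i + 1) hi]
        · rw [swpD_gt d (by omega)]
    have h2 := ih fun l hl => hw l (List.mem_cons_of_mem _ hl)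
    cases b
    · show dirW ((draw w).map toO) (swpD i d) = d
      rw [h1, h2]
    · show dirW ((draw w).map toO) (swpD i d) = d
      rw [h1, h2]

theorem dir_dds (k : ℕ) (d : ℕ → Bool) : dirW ((dds (k + 1)).map toO) (dirW ((births (k + 1)).map toO) d) = 
    dirW ((births 1).map toO) d := by
  induction k with
  | zero => rfl
  | succ k ih =>
    show dirW ((dds (k + 1)).map toO) (Pool.Agent.Helper454.Wh.delD (k + 1) 
      (dirW ((births (k + 1 + 1)).map toO) d)) = _
    rw [dir_births_succ (k + 1), del_ins_same, ih]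

/-- the operator of the minima -/
def Ddd (s : R) : ℕ → E R
  | 0 => 1
  | 1 => 1
  | k + 2 => Dl s (k + 1) * Ddd s (k + 1)

theorem op_dds (k : ℕ) (d : ℕ → Bool) (f : F R) : opW s s' ((dds k).map toO) d f = Ddd s k f := by
  induction k using dds.induct generalizing d with
  | case1 => rfl
  | case2 => rfl
  | case3 k ih =>
    show Dl s (k + 1) (opW s s' ((dds (k + 1)).map toO) _ f) = _
    rw [ih]
    rfl

theorem Bch_Pc (k : ℕ) : ∀ X : E R, Bch s' (k + 1) * X * Ddd s (k + 1) = Bl s' 0 * Pc (s := s) (s' := s') (k + 1) X := by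
  induction k with
  | zero =>
    intro X
    show 1 * Bl s' 0 * X * 1 = _
    rw [one_mul, mul_one]
    rfl
  | succ k ih =>
    intro X
    show Bch s' (k + 1) * Bl s' (k + 1) * X * (Dl s (k + 1) * Ddd s (k + 1)) = 
      Bl s' 0 * Pc (k + 1) (pcl s s' (k + 1) X)
    rw [← ih, pcl_apply]
    simp only [mul_assoc]

theorem val_ins {k : ℕ} (w : List (Bool × ℕ)) (hw : ∀ l ∈ w, l.2 + 1 < k + 1) (D : Word) : 
    valG s s' (ins (k + 1) w D) = 
      (Bl s' 0 * Pc (s := s) (s' := s') (k + 1) (opL s s' w)) 
        (opW s s' (D.map toO) (dirW ((births 1).map toO) (fun _ => true)) 1) (fun _ => false) := by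
  have h1 := dir_births (k + 1)
  unfold valG ins opD
  rw [List.map_append, List.map_append, List.map_append, List.append_assoc, opW_append, op_births, opW_append, 
    op_draw s s' w hw _ h1, opW_append, dir_draw w hw _ h1, op_dds, dir_dds, ← Bch_Pc]
  rfl

section
variable (hs : s * s' = 1)
include hs

theorem Pc_scalar (k : ℕ) : ∀ X ∈ TLa s s' (k + 1), ∃ c : R, Pc (s := s) (s' := s') (k + 1) X = c • 1 := by
  induction k with
  | zero =>
    intro X hX
    obtain ⟨c, hc⟩ := Submodule.mem_one.1 (show X ∈ (1 : Submodule R (E R)) from hX)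
    refine ⟨c, ?_⟩
    show X = c • 1
    rw [← hc, Algebra.algebraMap_eq_smul_one]
  | succ k ih =>
    intro X hX
    exact ih _ (pcl_mem hs hX)

/-- **Connected sums** -/
theorem val_sum {k : ℕ} (w : List (Bool × ℕ)) (hw : ∀ l ∈ w, l.2 + 1 < k + 1) (D : Word) : 
    valG s s' (ins (k + 1) w D) * (-(s + s')) = valG s s' (clo (k + 1) w) * valG s s' (.birth 0 true :: D) := by
  obtain ⟨c, hc⟩ := Pc_scalar hs k (opL s s' w) (opL_mem hs w hw)
  have h1 : ∀ D : Word, valG s s' (ins (k + 1) w D) = c * valG s s' (.birth 0 true :: D) := by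
    intro D
    rw [val_ins w hw D, hc, mul_smul_comm, mul_one]
    rfl
  have h2 := h1 [.death 0]
  rw [ins_circle] at h2
  have h3 : valG s s' [.birth 0 true, .death 0] = -(s + s') := val_circle
  rw [h1 D, h2, h3]
  ring

end

end

/-! ### diagrams -/

theorem ins_tw_step (D : Word) (k : ℕ) (h : Closed (ins (k + 1) (tw k) D)) : 
    Closed (ins (k + 2) (tw (k + 1)) D) ∧ 
    Isotopic (ins (k + 1) (tw k) D) (ins (k + 2) (tw (k + 1)) D) := by
  obtain ⟨hn, hd⟩ := births_front (k + 1)
  set F := run (births (k + 1)) Front.empty with hF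
  have e1 : ins (k + 1) (tw k) D = births (k + 1) ++ [] ++ (draw (tw k) ++ (dds (k + 1) ++ D)) := by simp [ins]
  rw [e1] at h ⊢
  have hd2 : ((Piece.birth k true).act F).dir (k + 1 + 1) = true := by
    show (if k + 1 + 1 < k then _ else if k + 1 + 1 = k then true else if k + 1 + 1 = k + 1 then !true else F.dir k) = true
    rw [if_neg (by omega), if_neg (by omega), if_neg (by omega)]
    exact hd k (by omega)
  have hd1 : ((Piece.birth k true).act F).dir (k + 1) = false := by
    show (if k + 1 < k then _ else if k + 1 = k then true else if k + 1 = k + 1 then !true else _) = false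
    rw [if_neg (by omega), if_neg (by omega), if_pos rfl]
    rfl
  obtain ⟨c1, i1⟩ := iso_step (r := [.birth k true, .death (k + 1)]) (Or.inr (Move.zigzag₁ k true)) h
    ⟨by show k ≤ F.n; omega, ⟨by show k + 1 + 2 ≤ F.n + 2; omega, by rw [hd2, hd1]; rfl⟩, trivial⟩
  have e2 : births (k + 1) ++ [Piece.birth k true, .death (k + 1)] ++ (draw (tw k) ++ (dds (k + 1) ++ D)) = 
    (births (k + 1) ++ [.birth k true]) ++ [.death (k + 1)] ++ (draw (tw k) ++ (dds (k + 1) ++ D)) := by simp
  rw [e2] at c1 i1
  obtain ⟨c2, i2⟩ := pass_death (m := k + 1) (tw k) (tw_pos k) _ _ c1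
  have e3 : births (k + 1) ++ [Piece.birth k true] ++ draw (tw k) ++ ([.death (k + 1)] ++ (dds (k + 1) ++ D)) = 
    (births (k + 1) ++ [Piece.birth k true] ++ draw (tw k)) ++ [.death (k + 1)] ++ (dds (k + 1) ++ D) := by 
    simp only [List.append_assoc]
  rw [e3] at c2 i2
  have f2 := fits_of_closed c2
  set G := run (births (k + 1) ++ [Piece.birth k true] ++ draw (tw k)) Front.empty with hG
  have f3 : k + 1 + 2 ≤ G.n ∧ G.dir (k + 1 + 1) = !G.dir (k + 1) := f2.1
  obtain ⟨c3, i3⟩ := iso_step (r := [.neg (k + 1), .death (k + 1)]) (Or.inr (Move.firstDeathNeg (k + 1))) c2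
    ⟨f3.1, ⟨f3.1, by
      show G.dir (sw (k + 1) (k + 1 + 1)) = !G.dir (sw (k + 1) (k + 1))
      have s1 : sw (k + 1) (k + 1 + 1) = k + 1 := by unfold sw; rw [if_neg (by omega), if_pos rfl]
      have s2 : sw (k + 1) (k + 1) = k + 1 + 1 := by unfold sw; rw [if_pos rfl]
      rw [s1, s2, f3.2, Bool.not_not]⟩, trivial⟩
  have e4 : births (k + 1) ++ [Piece.birth k true] ++ draw (tw k) ++ [.neg (k + 1), .death (k + 1)] ++ (dds (k + 1) ++ D) = 
    (births (k + 1) ++ [.birth k true]) ++ draw (tw k) ++ ([.neg (k + 1)] ++ (.death (k + 1) :: (dds (k + 1) ++ D))) := by 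
    simp
  rw [e4] at c3 i3
  obtain ⟨c4, i4⟩ := pass_neg (m := k + 1) (tw k) (tw_pos k) _ _ c3
  have e5 : births (k + 1) ++ [Piece.birth k true] ++ [.neg (k + 1)] ++ (draw (tw k) ++ (.death (k + 1) :: (dds (k + 1) ++ D))) = 
    births (k + 1) ++ [.birth k true, .neg (k + 1)] ++ (draw (tw k) ++ (.death (k + 1) :: (dds (k + 1) ++ D))) := by simp
  rw [e5] at c4 i4
  obtain ⟨c5, i5⟩ := iso_step (r := [.birth (k + 1) true, .pos k]) (Or.inl (Move.slideBirth₂ k true)) c4
    ⟨by show k + 1 ≤ F.n; omega, by show k + 2 ≤ F.n + 2; omega, trivial⟩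
  have e6 : births (k + 1) ++ [Piece.birth (k + 1) true, .pos k] ++ (draw (tw k) ++ (.death (k + 1) :: (dds (k + 1) ++ D))) = 
    ins (k + 2) (tw (k + 1)) D := by
    simp [ins, births, dds, tw, draw, Pool.Agent.Y466.FT.piece]
  rw [e6] at c5 i5
  exact ⟨c5, i1.trans _ _ _ (i2.trans _ _ _ (i3.trans _ _ _ (i4.trans _ _ _ i5)))⟩

theorem ins_tw (D : Word) (hD : Closed (.birth 0 true :: D)) (k : ℕ) : Closed (ins (k + 1) (tw k) D) ∧ 
    Isotopic (.birth 0 true :: D) (ins (k + 1) (tw k) D) := by
  induction k with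
  | zero => exact ⟨hD, Relation.EqvGen.refl _⟩
  | succ k ih =>
    obtain ⟨c, i⟩ := ins_tw_step D k ih.1
    exact ⟨c, ih.2.trans _ _ _ i⟩

/-- **The connected sum of a diagram and `K(b', b, ε, m)`** -/
def knS (b' b : Bool) (ε : ℕ → Bool) (m : ℕ) (D : Word) : Word := ins (m + 3) (xw b' b ε m ++ tw (m + 2)) D

theorem knS_eq (b' b : Bool) (ε : ℕ → Bool) (m : ℕ) (D : Word) : knS b' b ε m D = 
    births (m + 3) ++ draw (xw b' b ε m) ++ (draw (tw (m + 2)) ++ (dds (m + 3) ++ D)) := by
  unfold knS ins
  rw [draw_app]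
  simp only [List.append_assoc]

theorem knS_knot (b' b : Bool) (ε : ℕ → Bool) (m : ℕ) {D : Word} (hD : IsKnot (.birth 0 true :: D)) : 
    IsKnot (knS b' b ε m D) := by
  rw [knS_eq, knot_insert _ _ _ _ _ _ (by rw [(births_front (m + 3)).1]; omega)]
  have h := (Pool.Agent.H835R2.Knot.isotopic_knot (ins_tw D hD.1 (m + 2)).2).1 hD
  unfold ins at h
  rwa [List.append_assoc] at h

theorem knS_vas {A : Type} [AddCommGroup A] {v : Word → A} {d : ℕ} (hv : IsInvariant v) (hd : DegreeLE d v) 
    (b' b : Bool) (ε : ℕ → Bool) (m : ℕ) (hn : d ≤ m + 1) {D : Word} (hD : IsKnot (.birth 0 true :: D)) : 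
    v (knS b' b ε m D) = v (.birth 0 true :: D) := by
  have hk := (Pool.Agent.H835R2.Knot.isotopic_knot (ins_tw D hD.1 (m + 2)).2).1 hD
  have hk' : IsKnot (births (m + 3) ++ (draw (tw (m + 2)) ++ (dds (m + 3) ++ D))) := by
    have := hk
    unfold ins at this
    rwa [List.append_assoc] at this
  rw [knS_eq, insert_eq hv hd _ _ _ _ _ _ (by rw [(births_front (m + 3)).1]; omega) hn hk', ← List.append_assoc]
  exact (hv _ _ hD (ins_tw D hD.1 (m + 2)).2).symm

theorem crossings_dds (k : ℕ) : crossings (dds k) = 0 := by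
  induction k using dds.induct with
  | case1 => rfl
  | case2 => rfl
  | case3 k ih =>
    show crossings ([.death (k + 1)] ++ dds (k + 1)) = 0
    rw [crossings_append, ih]; rfl

theorem length_dds (k : ℕ) : (dds k).length = k - 1 := by
  induction k using dds.induct with
  | case1 => rfl
  | case2 => rfl
  | case3 k ih =>
    show (dds (k + 1)).length + 1 = _
    rw [ih]; omega

theorem knS_crossings (b' b : Bool) (ε : ℕ → Bool) (m : ℕ) (D : Word) : 
    crossings (knS b' b ε m D) = 9 * m + 10 + crossings D := by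
  unfold knS ins xw
  rw [crossings_append, crossings_append, crossings_append, crossings_births, crossings_dds, crossings_draw]
  simp only [List.length_append, length_zw, length_tw, aw, List.length_cons, List.length_nil]
  ring

theorem length_births (k : ℕ) : (births k).length = k := by
  induction k with
  | zero => rfl
  | succ k ih => rw [births, List.length_append, ih]; rfl

theorem knS_length (b' b : Bool) (ε : ℕ → Bool) (m : ℕ) (D : Word) : 
    (knS b' b ε m D).length = 11 * m + 15 + D.length := by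
  unfold knS ins xw draw
  simp only [List.length_append, List.length_map, length_zw, length_tw, aw, List.length_cons, List.length_nil, 
    length_births, length_dds]
  omega

end Pool.Agent.U963.LN
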