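import Pool.Agent.U963.LN.Lau
import Pool.Agent.H835R2.Flat.Van

/-!
# The Jones polynomial of a knot is not zero
-/

set_option autoImplicit false

namespace Pool.Agent.U963.LP

open Pool.Agent.H835R2.Knot
open Pool.Agent.H838R2.SL (sx sx' hsx)
open Pool.Agent.U963.LN (valG vn vn_inv vn_deg)

/-- the value at `s = 1` -/
def v1 (D : Word) : ℤ := valG (1 : ℤ) 1 D

theorem v1_circle : v1 circle = -2 := by
  unfold v1
  rw [Pool.Agent.U963.LN.val_circle]; norm_num

theorem v1_rT : v1 rightTrefoil = -2 := by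
  decide

theorem v1_lT : v1 (mirror rightTrefoil) = -2 := by
  decide

theorem v1_f8 : v1 Pool.Agent.H835R2.Flat.fig8 = -2 := by
  decide

theorem vn_zero (D : Word) : vn 0 D = v1 D := by
  have h1 : valG (1 : ℚ) 1 D = PowerSeries.constantCoeff (valG sx sx' D) := 
    valG_map (PowerSeries.constantCoeff (R := ℚ)) (s := sx) (s' := sx') (t := 1) (t' := 1) 
      Pool.Agent.U963.LN.cc_sx Pool.Agent.U963.LN.cc_sx' D
  have h2 : valG (1 : ℚ) 1 D = ((v1 D : ℤ) : ℚ) := 
    valG_map (Int.castRingHom ℚ) (map_one _) (map_one _) D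
  unfold vn
  rw [PowerSeries.coeff_zero_eq_constantCoeff_apply, ← h1, h2]

theorem deg_add {k : ℕ} {v : Word → ℚ} (h : DegreeLE k v) (c : ℚ) : DegreeLE k (fun D => v D + c) := by
  intro D hD S hS hc
  have h1 := h D hD S hS hc
  have hne : S.Nonempty := by
    rw [← Finset.card_pos]; omega
  have h2 := Finset.sum_powerset_neg_one_pow_card_of_nonempty hne
  simp only [smul_add, Finset.sum_add_distrib]
  rw [h1, zero_add, ← Finset.sum_smul, h2, zero_smul]

/-- **The value of the state model at `s = 1` is `-2` for all knots.** -/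
theorem v1_knot {D : Word} (hD : IsKnot D) : v1 D = -2 := by
  have hv : IsInvariant (fun D => vn 0 D + 2) := by
    intro D E hD h
    show vn 0 D + 2 = vn 0 E + 2
    rw [vn_inv 0 D E hD h]
  have hd : DegreeLE 3 (fun D => vn 0 D + 2) := 
    Pool.Agent.Y466.FT.DegreeLE.mono (by norm_num) (deg_add (vn_deg 0) 2)
  have h := Pool.Agent.H835R2.Flat.vanish hv hd 
    (by show vn 0 circle + 2 = 0; rw [vn_zero, v1_circle]; norm_num) 
    (by show vn 0 rightTrefoil + 2 = 0; rw [vn_zero, v1_rT]; norm_num)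
    (by show vn 0 (mirror rightTrefoil) + 2 = 0; rw [vn_zero, v1_lT]; norm_num)
    (by show vn 0 Pool.Agent.H835R2.Flat.fig8 + 2 = 0; rw [vn_zero, v1_f8]; norm_num) D hD
  have h' : vn 0 D + 2 = 0 := h
  rw [vn_zero] at h'
  have : (v1 D : ℚ) = ((-2 : ℤ) : ℚ) := by push_cast; linarith
  exact_mod_cast this

theorem jP_ne_zero {D : Word} (hD : IsKnot D) : jP D ≠ 0 := by
  intro h
  have h1 := vn_zero D
  unfold vn at h1
  rw [toX_jP, h, map_zero, map_zero, v1_knot hD] at h1
  norm_num at h1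

end Pool.Agent.U963.LP
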