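import Pool.Agent.U963.LN.Adic
import Pool.Agent.U963.LN.Sum
import Pool.Agent.U963.LN.Zero

/-!
# Different signs give different values: the order of the difference at `s = 1`
-/

set_option autoImplicit false

namespace Pool.Agent.U963.LX

open Pool.Agent.U963.LN
open Pool.Agent.H838R2.SL (sx sx' hsx)
open Pool.Agent.H835R2.Knot (Word IsKnot Piece circle)
open PowerSeries

noncomputable section

/-- the inverse of `1 + s ^ 4` -/
def Ex : ℚ⟦X⟧ := (1 + sx ^ 4)⁻¹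

theorem hEx : (1 + sx ^ 4) * Ex = 1 := by
  apply PowerSeries.mul_inv_cancel
  simp [sx]

theorem cc_Ex : constantCoeff Ex = 1 / 2 := by
  have h := congrArg constantCoeff hEx
  rw [map_mul, map_add, map_pow, cc_sx, map_one] at h
  linarith

/-- `1 - s ^ 2` divided by `X` -/
def dx : ℚ⟦X⟧ := -(2 + X)

theorem D_eq : (1 : ℚ⟦X⟧) - sx ^ 2 = X * dx := by unfold sx dx; ring

theorem cc_dx : constantCoeff dx = -2 := by
  unfold dx
  rw [map_neg, map_add, constantCoeff_X, map_ofNat, add_zero]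

/-! ### the constant coefficients -/

/-- the constant coefficients of the normalised vectors -/
def pI : ℕ → ℤ × ℤ
  | 0 => (0, -1)
  | m + 1 => ((pI m).1 - 2 * (pI m).2, 4 * (pI m).1 - 4 * (pI m).2)

theorem pI_ne (m : ℕ) : (pI m).1 - (pI m).2 ≠ 0 := by
  have h : ((pI m).1 % 3 = 0 ∧ (pI m).2 % 3 = 2) ∨ ((pI m).1 % 3 = 2 ∧ (pI m).2 % 3 = 1) ∨ 
      ((pI m).1 % 3 = 0 ∧ (pI m).2 % 3 = 1) ∨ ((pI m).1 % 3 = 1 ∧ (pI m).2 % 3 = 2) := by
    induction m with
    | zero => left; decide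
    | succ m ih =>
      simp only [pI]
      omega
  omega

theorem cc_qp (b : Bool) (p w : ℚ⟦X⟧) : constantCoeff (qp sx sx' b p w) = constantCoeff p - 2 * constantCoeff w := by
  cases b <;> simp only [qp, if_true, if_false, Bool.false_eq_true, map_add, map_sub, map_mul, map_neg, map_pow, 
    cc_sx, cc_sx', map_one, map_ofNat] <;> ring

theorem cc_qw (b : Bool) (p w : ℚ⟦X⟧) : constantCoeff (qw sx sx' b p w) = 4 * constantCoeff p - 4 * constantCoeff w := by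
  cases b <;> simp only [qw, if_true, if_false, Bool.false_eq_true, map_add, map_sub, map_mul, map_neg, map_pow, 
    cc_sx, cc_sx', map_one, map_ofNat] <;> ring

theorem cc_rr (p w : ℚ⟦X⟧) : constantCoeff (rr sx sx' p w) = 2 * (constantCoeff p - constantCoeff w) := by
  simp only [rr, map_add, map_sub, map_mul, map_pow, cc_sx, cc_sx', map_one, map_ofNat]
  ring

theorem cc_PW (ε : ℕ → Bool) (m : ℕ) : constantCoeff (PW sx sx' ε m).1 = (pI m).1 ∧ 
    constantCoeff (PW sx sx' ε m).2 = (pI m).2 := by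
  induction m with
  | zero =>
    simp only [PW, pI, map_mul, map_sub, map_pow, cc_sx, cc_sx', map_one, map_neg]
    norm_num
  | succ m ih =>
    simp only [PW, pI, cc_qp, cc_qw, ih.1, ih.2]
    push_cast
    exact ⟨rfl, rfl⟩

/-- the coefficient at the first place where the signs differ -/
def tt (ε : ℕ → Bool) (m : ℕ) : ℚ⟦X⟧ := 
  (-sx ^ 2) ^ (kp ε m) * Ex ^ m * rr sx sx' (PW sx sx' ε m).1 (PW sx sx' ε m).2

theorem cc_tt (ε : ℕ → Bool) (m : ℕ) : constantCoeff (tt ε m) ≠ 0 := by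
  unfold tt
  rw [map_mul, map_mul, map_pow, map_pow, map_neg, map_pow, cc_sx, cc_Ex, cc_rr, (cc_PW ε m).1, (cc_PW ε m).2]
  have h : (((pI m).1 : ℚ) - (pI m).2) ≠ 0 := by
    have := pI_ne m
    intro h
    apply this
    exact_mod_cast h
  have h1 : (-(1 : ℚ) ^ 2) ^ (kp ε m) ≠ 0 := pow_ne_zero _ (by norm_num)
  have h2 : (1 / 2 : ℚ) ^ m ≠ 0 := pow_ne_zero _ (by norm_num)
  exact mul_ne_zero (mul_ne_zero h1 h2) (mul_ne_zero (by norm_num) h)

/-! ### the sums -/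

theorem phi_step (ε : ℕ → Bool) (m : ℕ) : phi sx sx' Ex ε (m + 1) = phi sx sx' Ex ε m + 
    if ε m then 0 else X ^ (m + 2) * (dx ^ (m + 2) * tt ε m) := by
  show _ + (if ε m then 0 else (1 - sx ^ 2) ^ (m + 2) * tt ε m) = _
  rw [D_eq, mul_pow, mul_assoc]

theorem phi_tail (ε : ℕ → Bool) {j M : ℕ} (h : j ≤ M) : 
    (X : ℚ⟦X⟧) ^ (j + 2) ∣ phi sx sx' Ex ε M - phi sx sx' Ex ε j := by
  induction M, h using Nat.le_induction with
  | base => rw [sub_self]; exact dvd_zero _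
  | succ M hM ih =>
    rw [phi_step]
    have e : phi sx sx' Ex ε M + (if ε M then 0 else X ^ (M + 2) * (dx ^ (M + 2) * tt ε M)) - phi sx sx' Ex ε j = 
      (phi sx sx' Ex ε M - phi sx sx' Ex ε j) + if ε M then 0 else X ^ (M + 2) * (dx ^ (M + 2) * tt ε M) := by ring
    rw [e]
    refine dvd_add ih ?_
    split_ifs
    · exact dvd_zero _
    · exact Dvd.dvd.mul_right (pow_dvd_pow X (by omega)) _

theorem not_dvd_of_cc {n : ℕ} {f : ℚ⟦X⟧} (h : constantCoeff f ≠ 0) : ¬ X ^ (n + 1) ∣ X ^ n * f := by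
  intro hd
  rw [pow_succ] at hd
  have hX : (X : ℚ⟦X⟧) ^ n ≠ 0 := pow_ne_zero _ X_ne_zero
  have h1 := (mul_dvd_mul_iff_left hX).1 hd
  exact h (X_dvd_iff.1 h1)

theorem phi_ne_aux {ε δ : ℕ → Bool} {j M : ℕ} (hj : j < M) (h : ∀ i < j, ε i = δ i) (h1 : ε j = false) (h2 : δ j = true) : 
    ¬ (X : ℚ⟦X⟧) ^ (j + 3) ∣ phi sx sx' Ex ε M - phi sx sx' Ex δ M := by
  intro hd
  have t1 := phi_tail ε (show j + 1 ≤ M by omega)
  have t2 := phi_tail δ (show j + 1 ≤ M by omega)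
  have e1 := phi_step ε j
  have e2 := phi_step δ j
  rw [h1] at e1
  rw [h2] at e2
  simp only [if_true, if_false, Bool.false_eq_true, add_zero] at e1 e2
  rw [e1] at t1
  rw [e2, ← phi_congr h] at t2
  have e3 : (X : ℚ⟦X⟧) ^ (j + 2) * (dx ^ (j + 2) * tt ε j) = 
      (phi sx sx' Ex ε M - phi sx sx' Ex δ M) - 
      (phi sx sx' Ex ε M - (phi sx sx' Ex ε j + X ^ (j + 2) * (dx ^ (j + 2) * tt ε j))) + 
      (phi sx sx' Ex δ M - phi sx sx' Ex ε j) := by ring
  have h3 : (X : ℚ⟦X⟧) ^ (j + 2 + 1) ∣ X ^ (j + 2) * (dx ^ (j + 2) * tt ε j) := by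
    rw [e3]
    exact dvd_add (dvd_sub hd t1) t2
  refine not_dvd_of_cc ?_ h3
  rw [map_mul, map_pow, cc_dx]
  exact mul_ne_zero (pow_ne_zero _ (by norm_num)) (cc_tt ε j)

/-- **Different signs give different sums** -/
theorem phi_ne {ε δ : ℕ → Bool} {M : ℕ} (h : ∃ i < M, ε i ≠ δ i) : 
    ¬ (X : ℚ⟦X⟧) ^ (M + 2) ∣ phi sx sx' Ex ε M - phi sx sx' Ex δ M := by
  classical
  obtain ⟨hj, hne⟩ := Nat.find_spec h
  have hmin : ∀ i < Nat.find h, ε i = δ i := by
    intro i hi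
    by_contra hc
    exact Nat.find_min h hi ⟨by omega, hc⟩
  set j := Nat.find h with hjdef
  intro hd
  have hd' : (X : ℚ⟦X⟧) ^ (j + 3) ∣ phi sx sx' Ex ε M - phi sx sx' Ex δ M := 
    (pow_dvd_pow X (by omega)).trans hd
  cases e1 : ε j <;> cases e2 : δ j
  · exact hne (by rw [e1, e2])
  · exact phi_ne_aux hj hmin e1 e2 hd'
  · rw [← dvd_neg, neg_sub] at hd'
    exact phi_ne_aux hj (fun i hi => (hmin i hi).symm) e2 e1 hd'
  · exact hne (by rw [e1, e2])

end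

end Pool.Agent.U963.LX
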