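import Pool.Agent.U963.LN.Adic2

/-!
# The values of the knots with different signs
-/

set_option autoImplicit false

namespace Pool.Agent.U963.LX

open Pool.Agent.U963.LN
open Pool.Agent.H838R2.SL (sx sx' hsx)
open Pool.Agent.H835R2.Knot (Word IsKnot Piece circle)
open PowerSeries

noncomputable section

theorem isUnit_cc {f : ℚ⟦X⟧} (h : constantCoeff f ≠ 0) : IsUnit f := 
  PowerSeries.isUnit_iff_constantCoeff.2 (isUnit_iff_ne_zero.2 h)

/-! ### modulo `X ^ 2` -/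

theorem coeff_sx (j m : ℕ) : coeff j (sx ^ m) = (m.choose j : ℚ) := by
  have : (sx ^ m : ℚ⟦X⟧) = (((1 + Polynomial.X) ^ m : Polynomial ℚ) : ℚ⟦X⟧) := by
    simp [sx]
  rw [this, Polynomial.coeff_coe, Polynomial.coeff_one_add_X_pow]

theorem neg_sx_pow (k : ℕ) : (-sx ^ 2) ^ k = C ((-1 : ℚ) ^ k) * sx ^ (2 * k) := by
  rw [neg_pow, ← pow_mul]
  simp

theorem sgn2 {a a' : ℚ} (ha : a ≠ 0) {k k' : ℕ} 
    (h : (X : ℚ⟦X⟧) ^ 2 ∣ C a * (-sx' ^ 2) ^ k - C a' * (-sx' ^ 2) ^ k') : k = k' ∧ a = a' := by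
  have h1 : (X : ℚ⟦X⟧) ^ 2 ∣ C a * (-sx ^ 2) ^ k' - C a' * (-sx ^ 2) ^ k := by
    have e : C a * (-sx ^ 2) ^ k' - C a' * (-sx ^ 2) ^ k = 
        (C a * (-sx' ^ 2) ^ k - C a' * (-sx' ^ 2) ^ k') * ((-sx ^ 2) ^ k * (-sx ^ 2) ^ k') := by
      have h2 := pow_s hsx k
      have h3 := pow_s hsx k'
      linear_combination (-C a * (-sx ^ 2) ^ k') * h2 + (C a' * (-sx ^ 2) ^ k) * h3
    rw [e]
    exact Dvd.dvd.mul_right h _
  rw [X_pow_dvd_iff] at h1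
  have c0 := h1 0 (by norm_num)
  have c1 := h1 1 (by norm_num)
  rw [neg_sx_pow, neg_sx_pow, map_sub, coeff_C_mul, coeff_C_mul, coeff_C_mul, coeff_C_mul, coeff_sx, coeff_sx] at c0 c1
  rw [Nat.choose_zero_right, Nat.choose_zero_right] at c0
  rw [Nat.choose_one_right, Nat.choose_one_right] at c1
  push_cast at c0 c1
  have e0 : a * (-1) ^ k' = a' * (-1) ^ k := by linarith
  have hA : a * (-1) ^ k' ≠ 0 := mul_ne_zero ha (pow_ne_zero _ (by norm_num))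
  have e1 : a * (-1) ^ k' * (2 * ((k' : ℚ) - k)) = 0 := by
    linear_combination c1 - (2 * (k : ℚ)) * e0
  have e2 : (2 * ((k' : ℚ) - k)) = 0 := (mul_eq_zero.1 e1).resolve_left hA
  have e3 : (k : ℚ) = k' := by linarith
  have e4 : k = k' := by exact_mod_cast e3
  refine ⟨e4, ?_⟩
  rw [e4] at e0
  exact mul_right_cancel₀ (pow_ne_zero k' (by norm_num : (-1 : ℚ) ≠ 0)) e0

/-- the sign of the last letter -/
def sb (b : Bool) : ℚ := if b then 1 else -1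

theorem sb_ne (b : Bool) : sb b ≠ 0 := by cases b <;> norm_num [sb]

theorem sb_inj {b b' : Bool} (h : sb b = sb b') : b = b' := by
  cases b <;> cases b' <;> first | rfl | (exfalso; norm_num [sb] at h)

theorem phi_one (ε : ℕ → Bool) (M : ℕ) : (X : ℚ⟦X⟧) ^ 2 ∣ phi sx sx' Ex ε M - 1 := phi_tail ε (Nat.zero_le M)

theorem G_one : (X : ℚ⟦X⟧) ^ 2 ∣ -sx' ^ 2 * (1 - sx ^ 2 + sx ^ 4) + 1 := by
  have e : -sx' ^ 2 * (1 - sx ^ 2 + sx ^ 4) + 1 = X ^ 2 * (-sx' ^ 2 * dx ^ 2) := by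
    have h1 : (X : ℚ⟦X⟧) ^ 2 * (-sx' ^ 2 * dx ^ 2) = -sx' ^ 2 * (1 - sx ^ 2) ^ 2 := by rw [D_eq]; ring
    rw [h1]
    linear_combination (-1 - sx * sx') * hsx
  rw [e]
  exact dvd_mul_right _ _

theorem Psi_sq (b' : Bool) (ε : ℕ → Bool) (M : ℕ) : 
    (X : ℚ⟦X⟧) ^ 2 ∣ Psi sx sx' Ex b' ε M - C (sb b') * (-sx' ^ 2) ^ (kp ε M) := by
  cases b'
  · simp only [Psi, sb, if_false, Bool.false_eq_true]
    have e : (-sx' ^ 2) ^ (kp ε M) * (-sx' ^ 2 * (1 - sx ^ 2 + sx ^ 4) * phi sx sx' Ex ε M + 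
        (1 - sx ^ 2) ^ (M + 2) * the sx sx' Ex ε M) - C (-1 : ℚ) * (-sx' ^ 2) ^ (kp ε M) = 
        (-sx' ^ 2) ^ (kp ε M) * ((-sx' ^ 2 * (1 - sx ^ 2 + sx ^ 4) + 1) * phi sx sx' Ex ε M - 
        (phi sx sx' Ex ε M - 1) + X ^ 2 * (X ^ M * dx ^ (M + 2) * the sx sx' Ex ε M)) := by
      rw [D_eq, mul_pow, map_neg, map_one]
      ring
    rw [e]
    exact Dvd.dvd.mul_left (dvd_add (dvd_sub (Dvd.dvd.mul_right G_one _) (phi_one ε M)) (dvd_mul_right _ _)) _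
  · simp only [Psi, sb, if_true, map_one]
    have e : (-sx' ^ 2) ^ (kp ε M) * phi sx sx' Ex ε M - 1 * (-sx' ^ 2) ^ (kp ε M) = 
        (-sx' ^ 2) ^ (kp ε M) * (phi sx sx' Ex ε M - 1) := by ring
    rw [e]
    exact Dvd.dvd.mul_left (phi_one ε M) _

/-- **Different signs give different values** -/
theorem Psi_ne {b' b'' : Bool} {ε δ : ℕ → Bool} {M : ℕ} (h : b' ≠ b'' ∨ ∃ i < M, ε i ≠ δ i) : 
    ¬ (X : ℚ⟦X⟧) ^ (M + 2) ∣ Psi sx sx' Ex b' ε M - Psi sx sx' Ex b'' δ M := by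
  intro hd
  have h2 : (X : ℚ⟦X⟧) ^ 2 ∣ C (sb b') * (-sx' ^ 2) ^ (kp ε M) - C (sb b'') * (-sx' ^ 2) ^ (kp δ M) := by
    have e : C (sb b') * (-sx' ^ 2) ^ (kp ε M) - C (sb b'') * (-sx' ^ 2) ^ (kp δ M) = 
        (Psi sx sx' Ex b' ε M - Psi sx sx' Ex b'' δ M) - 
        (Psi sx sx' Ex b' ε M - C (sb b') * (-sx' ^ 2) ^ (kp ε M)) + 
        (Psi sx sx' Ex b'' δ M - C (sb b'') * (-sx' ^ 2) ^ (kp δ M)) := by ring
    rw [e]
    exact dvd_add (dvd_sub ((pow_dvd_pow X (by omega)).trans hd) (Psi_sq b' ε M)) (Psi_sq b'' δ M)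
  obtain ⟨hk, hb⟩ := sgn2 (sb_ne b') h2
  have hb' := sb_inj hb
  subst hb'
  have h3 : ∃ i < M, ε i ≠ δ i := h.resolve_left (fun h => h rfl)
  apply phi_ne h3
  cases b'
  · simp only [Psi, if_false, Bool.false_eq_true, ← hk] at hd
    have e : (-sx' ^ 2) ^ (kp ε M) * (-sx' ^ 2 * (1 - sx ^ 2 + sx ^ 4) * phi sx sx' Ex ε M + 
        (1 - sx ^ 2) ^ (M + 2) * the sx sx' Ex ε M) - (-sx' ^ 2) ^ (kp ε M) * (-sx' ^ 2 * (1 - sx ^ 2 + sx ^ 4) * 
        phi sx sx' Ex δ M + (1 - sx ^ 2) ^ (M + 2) * the sx sx' Ex δ M) = 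
        ((-sx' ^ 2) ^ (kp ε M) * (-sx' ^ 2 * (1 - sx ^ 2 + sx ^ 4))) * (phi sx sx' Ex ε M - phi sx sx' Ex δ M) + 
        X ^ (M + 2) * ((-sx' ^ 2) ^ (kp ε M) * dx ^ (M + 2) * (the sx sx' Ex ε M - the sx sx' Ex δ M)) := by
      rw [D_eq, mul_pow]; ring
    rw [e, dvd_add_left (dvd_mul_right _ _)] at hd
    have hu : IsUnit ((-sx' ^ 2) ^ (kp ε M) * (-sx' ^ 2 * (1 - sx ^ 2 + sx ^ 4))) := by
      apply isUnit_cc
      simp only [map_mul, map_add, map_sub, map_pow, map_neg, cc_sx, cc_sx', map_one]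
      exact mul_ne_zero (pow_ne_zero _ (by norm_num)) (by norm_num)
    exact (hu.dvd_mul_left).1 hd
  · simp only [Psi, if_true, ← hk] at hd
    rw [← mul_sub] at hd
    have hu : IsUnit ((-sx' ^ 2) ^ (kp ε M)) := by
      apply isUnit_cc
      simp only [map_pow, map_neg, cc_sx', one_pow]
      exact pow_ne_zero _ (by norm_num)
    exact (hu.dvd_mul_left).1 hd

theorem cc_Psi (b' : Bool) (ε : ℕ → Bool) (M : ℕ) : constantCoeff (Psi sx sx' Ex b' ε M) ≠ 0 := by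
  have h := (pow_dvd_pow (X : ℚ⟦X⟧) (show 1 ≤ 2 by norm_num)).trans (Psi_sq b' ε M)
  rw [pow_one, X_dvd_iff, map_sub, map_mul, map_pow, map_neg, map_pow, cc_sx', sub_eq_zero] at h
  rw [h]
  have h1 : constantCoeff (C (sb b') : ℚ⟦X⟧) = sb b' := by simp
  rw [h1]
  exact mul_ne_zero (sb_ne b') (pow_ne_zero _ (by norm_num))

/-! ### knots -/

/-- the unit factor -/
def ux (M : ℕ) : ℚ⟦X⟧ := dx ^ (M + 2) * (1 + sx ^ 4) ^ M * ((1 + sx ^ 2) * (1 + sx ^ 2 + sx ^ 4) * sx')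

theorem cc_ux (M : ℕ) : constantCoeff (ux M) ≠ 0 := by
  unfold ux
  simp only [map_mul, map_add, map_pow, cc_sx, cc_sx', cc_dx, map_one, one_pow]
  refine mul_ne_zero (mul_ne_zero (pow_ne_zero _ (by norm_num)) (pow_ne_zero _ (by norm_num))) (by norm_num)

theorem val_X (b' : Bool) (ε : ℕ → Bool) (M : ℕ) : valG sx sx' (kn b' true ε M) = 
    -(sx + sx') + X ^ (M + 2) * (ux M * Psi sx sx' Ex b' ε M) := by
  rw [val_kn hsx, val_Psi hsx hEx]
  unfold gg ux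
  rw [D_eq]
  ring

theorem cc_delta : constantCoeff (-(sx + sx')) ≠ 0 := by
  rw [map_neg, map_add, cc_sx, cc_sx']; norm_num

theorem cc_knot {D : Word} (hD : IsKnot D) : constantCoeff (valG sx sx' D) ≠ 0 := by
  have h := Pool.Agent.U963.LP.vn_zero D
  unfold vn at h
  rw [coeff_zero_eq_constantCoeff_apply, Pool.Agent.U963.LP.v1_knot hD] at h
  rw [h]; norm_num

theorem val_knS (b' : Bool) (ε : ℕ → Bool) (M : ℕ) (D : Word) : valG sx sx' (knS b' true ε M D) * (-(sx + sx')) = 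
    valG sx sx' (kn b' true ε M) * valG sx sx' (.birth 0 true :: D) := 
  val_sum hsx _ (app_lt (xw_lt (by omega)) (tw_lt (M + 2))) D

theorem exists_coeff {n : ℕ} {f g : ℚ⟦X⟧} (h : ¬ X ^ n ∣ f - g) : ∃ j < n, coeff j f ≠ coeff j g := by
  by_contra hc
  push Not at hc
  apply h
  rw [X_pow_dvd_iff]
  intro j hj
  rw [map_sub, hc j hj, sub_self]

/-- two of the knots are separated in order less than `2 M + 4` -/
theorem sep {D : Word} (hD : IsKnot (.birth 0 true :: D)) {b' b'' : Bool} {ε δ : ℕ → Bool} {M : ℕ} 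
    (h : b' ≠ b'' ∨ ∃ i < M, ε i ≠ δ i) : 
    ∃ j < 2 * M + 4, vn j (knS b' true ε M D) ≠ vn j (knS b'' true δ M D) := by
  apply exists_coeff
  intro hd
  have h1 : (X : ℚ⟦X⟧) ^ (2 * M + 4) ∣ 
      X ^ (M + 2) * ((ux M * valG sx sx' (.birth 0 true :: D)) * 
        (Psi sx sx' Ex b' ε M - Psi sx sx' Ex b'' δ M)) := by
    have e : X ^ (M + 2) * ((ux M * valG sx sx' (.birth 0 true :: D)) * 
        (Psi sx sx' Ex b' ε M - Psi sx sx' Ex b'' δ M)) = 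
        (valG sx sx' (knS b' true ε M D) - valG sx sx' (knS b'' true δ M D)) * (-(sx + sx')) := by
      rw [sub_mul, val_knS, val_knS, val_X, val_X]
      ring
    rw [e]
    exact Dvd.dvd.mul_right hd _
  have e2 : 2 * M + 4 = (M + 2) + (M + 2) := by ring
  rw [e2, pow_add] at h1
  have h2 := (mul_dvd_mul_iff_left (pow_ne_zero (M + 2) (X_ne_zero (R := ℚ)))).1 h1
  have hu : IsUnit (ux M * valG sx sx' (.birth 0 true :: D)) := by
    apply isUnit_cc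
    rw [map_mul]
    exact mul_ne_zero (cc_ux M) (cc_knot hD)
  exact Psi_ne h ((hu.dvd_mul_left).1 h2)

/-- the knots are separated from the given knot in order at most `M + 2` -/
theorem sepD {D : Word} (hD : IsKnot (.birth 0 true :: D)) (b' : Bool) (ε : ℕ → Bool) (M : ℕ) : 
    ∃ j < M + 3, vn j (knS b' true ε M D) ≠ vn j (.birth 0 true :: D) := by
  apply exists_coeff
  intro hd
  have h1 : (X : ℚ⟦X⟧) ^ (M + 2 + 1) ∣ 
      X ^ (M + 2) * ((ux M * valG sx sx' (.birth 0 true :: D)) * Psi sx sx' Ex b' ε M) := by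
    have e : X ^ (M + 2) * ((ux M * valG sx sx' (.birth 0 true :: D)) * Psi sx sx' Ex b' ε M) = 
        (valG sx sx' (knS b' true ε M D) - valG sx sx' (.birth 0 true :: D)) * (-(sx + sx')) := by
      rw [sub_mul, val_knS, val_X]
      ring
    rw [e]
    exact Dvd.dvd.mul_right hd _
  refine not_dvd_of_cc ?_ h1
  rw [map_mul, map_mul]
  exact mul_ne_zero (mul_ne_zero (cc_ux M) (cc_knot hD)) (cc_Psi b' ε M)

end

end Pool.Agent.U963.LX
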