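import Pool.Agent.U963.LN.Clo

/-!
# The first piece of a diagram
-/

set_option autoImplicit false

namespace Pool.Agent.U963.LN

open Pool.Agent.H835R2.Knot
open Pool.Agent.H835R2.Flat (iso_step)

theorem first (D : Word) (hD : IsKnot D) : ∃ D' : Word, IsKnot (.birth 0 true :: D') ∧ 
    Isotopic D (.birth 0 true :: D') ∧ crossings D' ≤ crossings D + 1 ∧ D'.length ≤ D.length := by
  rcases D with _ | ⟨p, D⟩
  · exact absurd hD (by decide)
  · have hf := hD.1.1.1
    cases p with
    | birth i b =>
      have hi : i = 0 := Nat.le_zero.1 hf
      subst hi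
      cases b with
      | true =>
        refine ⟨D, hD, Relation.EqvGen.refl _, ?_, ?_⟩
        · show crossings D ≤ crossings ([.birth 0 true] ++ D) + 1
          rw [crossings_append]
          omega
        · simp
      | false =>
        have h : Closed ([] ++ [Piece.birth 0 false] ++ D) := hD.1
        obtain ⟨h1, h2⟩ := iso_step (r := [.birth 0 true, .pos 0]) (Or.inr (Move.firstBirthPos 0 true)) h 
          ⟨le_refl 0, le_refl 2, trivial⟩
        refine ⟨.pos 0 :: D, (isotopic_knot h2).1 hD, h2, ?_, ?_⟩
        · show crossings ([.pos 0] ++ D) ≤ crossings ([.birth 0 false] ++ D) + 1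
          rw [crossings_append, crossings_append]
          have : crossings [Piece.pos 0] = 1 := rfl
          omega
        · simp
    | death i => exact absurd hf.1 (by show ¬ i + 2 ≤ 0; omega)
    | pos i => exact absurd (show i + 2 ≤ 0 from hf) (by omega)
    | neg i => exact absurd (show i + 2 ≤ 0 from hf) (by omega)

end Pool.Agent.U963.LN
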