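import Pool.Agent.U963.LN.Adic3
import Pool.Agent.U963.LN.First

/-!
# Many knots near a given knot
-/

set_option autoImplicit false

namespace Pool.Agent.U963.LX

open Pool.Agent.U963.LN
open Pool.Agent.H835R2.Knot

/-! ### combinations of invariants -/

theorem inv_sum {N : ℕ} {v : ℕ → Word → ℚ} (hv : ∀ j, IsInvariant (v j)) (c : ℕ → ℚ) : 
    IsInvariant (fun D => ∑ j ∈ Finset.range N, c j * v j D) := by
  intro D E hD h
  exact Finset.sum_congr rfl fun j _ => by rw [hv j D E hD h]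

theorem deg_sum {N d : ℕ} {v : ℕ → Word → ℚ} (hv : ∀ j < N, DegreeLE d (v j)) (c : ℕ → ℚ) : 
    DegreeLE d (fun D => ∑ j ∈ Finset.range N, c j * v j D) := by
  intro D hD S hS hc
  simp only [Finset.smul_sum]
  rw [Finset.sum_comm]
  refine Finset.sum_eq_zero fun j hj => ?_
  have h := hv j (Finset.mem_range.1 hj) D hD S hS hc
  have e : ∀ T ∈ S.powerset, (-1 : ℤ) ^ T.card • (c j * v j (switchAt T D)) = 
      c j * ((-1 : ℤ) ^ T.card • v j (switchAt T D)) := by
    intro T _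
    rw [mul_smul_comm]
  rw [Finset.sum_congr rfl e, ← Finset.mul_sum, h, mul_zero]

/-- **One invariant separates all members of a finite set** -/
theorem one_inv {N d : ℕ} {v : ℕ → Word → ℚ} (hv : ∀ j, IsInvariant (v j)) (hd : ∀ j < N, DegreeLE d (v j)) 
    (S : Finset Word) (hS : ∀ E ∈ S, ∀ E' ∈ S, E ≠ E' → ∃ j < N, v j E ≠ v j E') : 
    ∃ u : Word → ℚ, IsInvariant u ∧ DegreeLE d u ∧ ∀ E ∈ S, ∀ E' ∈ S, E ≠ E' → u E ≠ u E' := by
  classical
  set P : Word × Word → Polynomial ℚ := fun p => 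
    ∑ j ∈ Finset.range N, Polynomial.C (v j p.1 - v j p.2) * Polynomial.X ^ j with hP
  have hne : ∀ p ∈ (S ×ˢ S).filter (fun p => p.1 ≠ p.2), P p ≠ 0 := by
    rintro ⟨E, E'⟩ hp h0
    rw [Finset.mem_filter, Finset.mem_product] at hp
    obtain ⟨j, hj, h1⟩ := hS E hp.1.1 E' hp.1.2 hp.2
    have h2 := congrArg (fun q => Polynomial.coeff q j) h0
    simp only [hP, Polynomial.finsetSum_coeff, Polynomial.coeff_C_mul, Polynomial.coeff_X_pow, 
      Polynomial.coeff_zero] at h2
    rw [Finset.sum_eq_single j] at h2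
    · simp only [if_true, mul_one] at h2
      exact h1 (sub_eq_zero.1 h2)
    · intro i _ hij
      rw [if_neg (Ne.symm hij), mul_zero]
    · intro h; exact absurd (Finset.mem_range.2 hj) h
  have hprod := Finset.prod_ne_zero_iff.2 hne
  obtain ⟨t, ht⟩ : ∃ t : ℚ, (∏ p ∈ (S ×ˢ S).filter (fun p => p.1 ≠ p.2), P p).eval t ≠ 0 := by
    by_contra hc
    push Not at hc
    exact hprod (Polynomial.funext fun t => by rw [hc t, Polynomial.eval_zero])
  rw [Polynomial.eval_prod, Finset.prod_ne_zero_iff] at ht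
  refine ⟨fun D => ∑ j ∈ Finset.range N, t ^ j * v j D, inv_sum hv _, deg_sum hd _, ?_⟩
  intro E hE E' hE' hEE h
  apply ht (E, E') (by rw [Finset.mem_filter, Finset.mem_product]; exact ⟨⟨hE, hE'⟩, hEE⟩)
  simp only [hP, Polynomial.eval_finsetSum, Polynomial.eval_mul, Polynomial.eval_C, Polynomial.eval_pow, 
    Polynomial.eval_X]
  rw [← sub_eq_zero, ← Finset.sum_sub_distrib] at h
  rw [← h]
  exact Finset.sum_congr rfl fun j _ => by ring

/-! ### the family -/

/-- the signs of a finite sequence -/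
def exs {M : ℕ} (σ : Fin M → Bool) : ℕ → Bool := fun i => if h : i < M then σ ⟨i, h⟩ else true

theorem exs_ne {M : ℕ} {σ σ' : Fin M → Bool} (h : σ ≠ σ') : ∃ i < M, exs σ i ≠ exs σ' i := by
  by_contra hc
  push Not at hc
  apply h
  funext ⟨i, hi⟩
  have := hc i hi
  unfold exs at this
  rwa [dif_pos hi, dif_pos hi] at this

/-- the members of the family -/
def fam (M : ℕ) (D : Word) (p : Bool × (Fin M → Bool)) : Word := knS p.1 true (exs p.2) M D

theorem fam_sep {M : ℕ} {D : Word} (hD : IsKnot (.birth 0 true :: D)) {p p' : Bool × (Fin M → Bool)} (h : p ≠ p') : 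
    ∃ j < 2 * M + 4, vn j (fam M D p) ≠ vn j (fam M D p') := by
  apply sep hD
  by_cases h1 : p.1 = p'.1
  · right
    apply exs_ne
    intro h2
    exact h (Prod.ext h1 h2)
  · left; exact h1

/-- **Many partners** -/
theorem many2 (D : Word) (hD : IsKnot D) (n : ℕ) (hn : 2 ≤ n) : 
    ∃ S : Finset Word, S.card = 2 ^ (n - 1) ∧ D ∉ S ∧ 
      (∀ E ∈ S, IsKnot E ∧ crossings E ≤ crossings D + 9 * n - 7 ∧ E.length ≤ D.length + 11 * n - 7) ∧
      (∀ E ∈ S, ∀ (A : Type) [AddCommGroup A] (v : Word → A) (d : ℕ), d < n → IsInvariant v → DegreeLE d v → 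
        v E = v D) ∧
      (∀ E ∈ S, ∃ v : Word → ℚ, IsInvariant v ∧ DegreeLE n v ∧ v E ≠ v D) ∧
      ∃ v : Word → ℚ, IsInvariant v ∧ DegreeLE (2 * n - 1) v ∧ Set.InjOn v (insert D (S : Set Word)) := by
  classical
  obtain ⟨M, rfl⟩ : ∃ M, n = M + 2 := ⟨n - 2, by omega⟩
  obtain ⟨D', h1, h2, h3, h4⟩ := first D hD
  have hfam : Function.Injective (fam M D') := by
    intro p p' h
    by_contra hne
    obtain ⟨j, -, hj⟩ := fam_sep h1 hne
    exact hj (by rw [h])
  have hDv : ∀ j, vn j D = vn j (.birth 0 true :: D') := fun j => vn_inv j _ _ hD h2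
  have hsD : ∀ p, ∃ j < M + 3, vn j (fam M D' p) ≠ vn j D := by
    intro p
    obtain ⟨j, hj, h⟩ := sepD h1 p.1 (exs p.2) M
    exact ⟨j, hj, by rw [hDv]; exact h⟩
  set S : Finset Word := Finset.univ.image (fam M D') with hS
  have hmem : ∀ E ∈ S, ∃ p, fam M D' p = E := by
    intro E hE
    obtain ⟨p, -, hp⟩ := Finset.mem_image.1 hE
    exact ⟨p, hp⟩
  refine ⟨S, ?_, ?_, ?_, ?_, ?_, ?_⟩
  · rw [hS, Finset.card_image_of_injective _ hfam, Finset.card_univ, Fintype.card_prod, Fintype.card_fun, 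
      Fintype.card_bool, Fintype.card_fin, ← pow_succ']
    congr 1
  · intro hDS
    obtain ⟨p, hp⟩ := hmem D hDS
    obtain ⟨j, -, hj⟩ := hsD p
    exact hj (by rw [hp])
  · intro E hE
    obtain ⟨p, rfl⟩ := hmem E hE
    unfold fam
    refine ⟨knS_knot _ _ _ _ h1, ?_, ?_⟩
    · rw [knS_crossings]; omega
    · rw [knS_length]; omega
  · intro E hE A _ v d hd hv hdeg
    obtain ⟨p, rfl⟩ := hmem E hE
    exact (knS_vas hv hdeg p.1 true (exs p.2) M (by omega) h1).trans (hv _ _ hD h2).symm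
  · intro E hE
    obtain ⟨p, rfl⟩ := hmem E hE
    obtain ⟨j, hj, h⟩ := hsD p
    exact ⟨vn j, vn_inv j, Pool.Agent.Y466.FT.DegreeLE.mono (by omega) (vn_deg j), h⟩
  · obtain ⟨u, hu1, hu2, hu3⟩ := one_inv (N := 2 * M + 4) (d := 2 * (M + 2) - 1) (v := vn) vn_inv 
      (fun j hj => Pool.Agent.Y466.FT.DegreeLE.mono (by omega) (vn_deg j)) (insert D S) (by
        intro E hE E' hE' hne
        rcases Finset.mem_insert.1 hE with k1 | k1 <;> rcases Finset.mem_insert.1 hE' with k2 | k2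
        · exact absurd (k1.trans k2.symm) hne
        · obtain ⟨p, rfl⟩ := hmem E' k2
          obtain ⟨j, hj, h⟩ := hsD p
          exact ⟨j, by omega, fun h' => h (by rw [← h', k1])⟩
        · obtain ⟨p, rfl⟩ := hmem E k1
          obtain ⟨j, hj, h⟩ := hsD p
          exact ⟨j, by omega, fun h' => h (by rw [h', k2])⟩
        · obtain ⟨p, rfl⟩ := hmem E k1
          obtain ⟨p', rfl⟩ := hmem E' k2
          exact fam_sep h1 (fun h => hne (by rw [h])))
    refine ⟨u, hu1, hu2, ?_⟩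
    intro E hE E' hE' h
    by_contra hne
    refine hu3 E ?_ E' ?_ hne h
    · rcases hE with rfl | hE
      · exact Finset.mem_insert_self _ _
      · exact Finset.mem_insert_of_mem hE
    · rcases hE' with rfl | hE'
      · exact Finset.mem_insert_self _ _
      · exact Finset.mem_insert_of_mem hE'

end Pool.Agent.U963.LX
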