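import Pool.Agent.H838R2.Jones.Op

/-!
# Partial closures in the state model

`E R` is the ring of the linear operators on functions of states; `e i` is a minimum followed by a
maximum; `Loc m X`: the operator `X` concerns the strands `0, …, m - 1` only; `pcl m X`: the partial closure
of the strand `m`.
-/

set_option autoImplicit false

namespace Pool.Agent.U963.LN

open Pool.Agent.H838R2.Jones

/-- linear operators on the functions of states -/
abbrev E (R : Type) [CommRing R] := Module.End R (F R)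

section
variable {R : Type} [CommRing R] (s s' : R)

/-- a minimum and a maximum -/
def e (i : ℕ) : E R := Dl s i * Bl s' i

/-- an operator on the strands `0, …, m - 1` -/
def Loc (m : ℕ) (X : E R) : Prop :=
  ∀ j, m ≤ j → X * Bl s' j = Bl s' j * X ∧ X * Dl s j = Dl s j * X

variable {s s'}

theorem Loc.one (m : ℕ) : Loc s s' m (1 : E R) := fun j _ => by simp

theorem Loc.mul {m : ℕ} {X Y : E R} (hX : Loc s s' m X) (hY : Loc s s' m Y) : Loc s s' m (X * Y) := by
  intro j hj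
  constructor
  · rw [mul_assoc, (hY j hj).1, ← mul_assoc, (hX j hj).1, mul_assoc]
  · rw [mul_assoc, (hY j hj).2, ← mul_assoc, (hX j hj).2, mul_assoc]

theorem Loc.add {m : ℕ} {X Y : E R} (hX : Loc s s' m X) (hY : Loc s s' m Y) : Loc s s' m (X + Y) := by
  intro j hj
  constructor
  · rw [add_mul, mul_add, (hY j hj).1, (hX j hj).1]
  · rw [add_mul, mul_add, (hY j hj).2, (hX j hj).2]

theorem Loc.smul {m : ℕ} {X : E R} (c : R) (hX : Loc s s' m X) : Loc s s' m (c • X) := by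
  intro j hj
  constructor
  · rw [smul_mul_assoc, mul_smul_comm, (hX j hj).1]
  · rw [smul_mul_assoc, mul_smul_comm, (hX j hj).2]

theorem Loc.mono {m n : ℕ} {X : E R} (hX : Loc s s' m X) (h : m ≤ n) : Loc s s' n X := 
  fun j hj => hX j (h.trans hj)

theorem mBB {i j : ℕ} (h : i ≤ j) : Bl s' i * Bl s' (j + 2) = Bl s' j * (Bl s' i : E R) := 
  LinearMap.ext fun f => BB s' h f

theorem mBD {i j : ℕ} (h : i ≤ j) : Bl s' i * Dl s (j + 2) = Dl s j * (Bl s' i : E R) := 
  LinearMap.ext fun f => BD s s' h f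

theorem mDB {i j : ℕ} (h : i ≤ j) : Dl s i * Bl s' j = Bl s' (j + 2) * (Dl s i : E R) := 
  LinearMap.ext fun f => DB s s' h f

theorem mDD {i j : ℕ} (h : i ≤ j) : Dl s i * Dl s j = Dl s (j + 2) * (Dl s i : E R) := 
  LinearMap.ext fun f => DD s h f

theorem mC (i : ℕ) : Bl s' i * Dl s i = (-(s + s')) • (1 : E R) := 
  LinearMap.ext fun f => circ i f

theorem loc_e {i m : ℕ} (h : i + 2 ≤ m) : Loc s s' m (e s s' i : E R) := by
  intro j hj
  obtain ⟨k, rfl⟩ : ∃ k, j = k + 2 := ⟨j - 2, by omega⟩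
  have hk : i ≤ k := by omega
  unfold e
  constructor
  · rw [mul_assoc, mBB hk, ← mul_assoc, mDB hk, mul_assoc]
  · rw [mul_assoc, mBD hk, ← mul_assoc, mDD hk, mul_assoc]

variable (s s') in
/-- partial closure of the strand `m` -/
def pcl (m : ℕ) : E R →ₗ[R] E R where
  toFun X := Bl s' m * X * Dl s m
  map_add' X Y := by rw [mul_add, add_mul]
  map_smul' c X := by simp

theorem pcl_apply (m : ℕ) (X : E R) : pcl s s' m X = Bl s' m * X * Dl s m := rfl

theorem Loc.pcl {m : ℕ} {X : E R} (hX : Loc s s' (m + 1) X) : Loc s s' m (pcl s s' m X) := by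
  intro j hj
  have h := hX (j + 2) (by omega)
  rw [pcl_apply]
  constructor
  · calc Bl s' m * X * Dl s m * Bl s' j = Bl s' m * X * (Dl s m * Bl s' j) := by rw [mul_assoc]
      _ = Bl s' m * (X * Bl s' (j + 2)) * Dl s m := by rw [mDB hj]; simp only [mul_assoc]
      _ = (Bl s' m * Bl s' (j + 2)) * X * Dl s m := by rw [h.1]; simp only [mul_assoc]
      _ = Bl s' j * (Bl s' m * X * Dl s m) := by rw [mBB hj]; simp only [mul_assoc]
  · calc Bl s' m * X * Dl s m * Dl s j = Bl s' m * X * (Dl s m * Dl s j) := by rw [mul_assoc]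
      _ = Bl s' m * (X * Dl s (j + 2)) * Dl s m := by rw [mDD hj]; simp only [mul_assoc]
      _ = (Bl s' m * Dl s (j + 2)) * X * Dl s m := by rw [h.2]; simp only [mul_assoc]
      _ = Dl s j * (Bl s' m * X * Dl s m) := by rw [mBD hj]; simp only [mul_assoc]

theorem pcl_mul_right {m : ℕ} {X Y : E R} (hY : Loc s s' m Y) : 
    pcl s s' m (X * Y) = pcl s s' m X * Y := by
  rw [pcl_apply, pcl_apply, ← mul_assoc, mul_assoc _ Y, (hY m le_rfl).2, mul_assoc, mul_assoc, mul_assoc]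

theorem pcl_mul_left {m : ℕ} {X Y : E R} (hX : Loc s s' m X) : 
    pcl s s' m (X * Y) = X * pcl s s' m Y := by
  rw [pcl_apply, pcl_apply, ← mul_assoc, ← (hX m le_rfl).1]
  simp only [mul_assoc]

theorem pcl_one (m : ℕ) : pcl s s' m 1 = (-(s + s')) • (1 : E R) := by
  rw [pcl_apply, mul_one, mC]

theorem pcl_loc {m : ℕ} {X : E R} (hX : Loc s s' m X) : pcl s s' m X = (-(s + s')) • X := by
  have h := pcl_mul_right (X := 1) hX
  rw [one_mul, pcl_one, smul_mul_assoc, one_mul] at h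
  exact h

section
variable (hs : s * s' = 1)
include hs

theorem mA (i : ℕ) : Bl s' i * Dl s (i + 1) = (1 : E R) := LinearMap.ext fun f => zigA hs i f

theorem mB (i : ℕ) : Bl s' (i + 1) * Dl s i = (1 : E R) := LinearMap.ext fun f => zigB hs i f

theorem pcl_e1 (k : ℕ) {X Y : E R} (hX : Loc s s' (k + 1) X) (hY : Loc s s' (k + 1) Y) : 
    pcl s s' (k + 1) (X * e s s' k * Y) = X * Y := by
  rw [pcl_mul_right hY, pcl_mul_left hX, pcl_apply]
  unfold e
  rw [show Bl s' (k + 1) * (Dl s k * Bl s' k) * Dl s (k + 1) = 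
    (Bl s' (k + 1) * Dl s k) * (Bl s' k * Dl s (k + 1)) by simp only [mul_assoc], mA hs, mB hs, mul_one, mul_one]

theorem pcl_e2 (k : ℕ) {X Y Z : E R} (hX : Loc s s' (k + 1) X) (hZ : Loc s s' (k + 1) Z) : 
    pcl s s' (k + 1) (X * e s s' k * Y * e s s' k * Z) = X * pcl s s' k Y * Z := by
  rw [pcl_mul_right hZ]
  have h : X * e s s' k * Y * e s s' k = X * (e s s' k * Y * e s s' k) := by simp only [mul_assoc]
  rw [h, pcl_mul_left hX, pcl_apply (k + 1)]
  unfold e
  rw [show Bl s' (k + 1) * (Dl s k * Bl s' k * Y * (Dl s k * Bl s' k)) * Dl s (k + 1) = 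
    (Bl s' (k + 1) * Dl s k) * (Bl s' k * Y * Dl s k) * (Bl s' k * Dl s (k + 1)) by simp only [mul_assoc], 
    mA hs, mB hs, mul_one, one_mul]
  rfl

theorem pcl_e3 (k : ℕ) {X Y Z W : E R} (hX : Loc s s' (k + 1) X) (hW : Loc s s' (k + 1) W) : 
    pcl s s' (k + 1) (X * e s s' k * Y * e s s' k * Z * e s s' k * W) = 
      X * pcl s s' k Y * pcl s s' k Z * W := by
  rw [pcl_mul_right hW]
  have h : X * e s s' k * Y * e s s' k * Z * e s s' k = X * (e s s' k * Y * e s s' k * Z * e s s' k) := by 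
    simp only [mul_assoc]
  rw [h, pcl_mul_left hX, pcl_apply (k + 1)]
  unfold e
  rw [show Bl s' (k + 1) * (Dl s k * Bl s' k * Y * (Dl s k * Bl s' k) * Z * (Dl s k * Bl s' k)) * Dl s (k + 1) = 
    (Bl s' (k + 1) * Dl s k) * (Bl s' k * Y * Dl s k) * (Bl s' k * Z * Dl s k) * (Bl s' k * Dl s (k + 1)) by 
      simp only [mul_assoc], mA hs, mB hs, mul_one, one_mul]
  simp only [mul_assoc]
  rfl

omit hs in
theorem ee (k : ℕ) : e s s' k * e s s' k = (-(s + s')) • (e s s' k : E R) := by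
  unfold e
  rw [show Dl s k * Bl s' k * (Dl s k * Bl s' k) = Dl s k * (Bl s' k * Dl s k) * Bl s' k by 
    simp only [mul_assoc], mC, mul_smul_comm, smul_mul_assoc, mul_one]

/-- the partial closure of `Y a W a'`, where `a`, `a'` are combinations of `1` and `e k` -/
theorem G4 (k : ℕ) {Y W : E R} (hY : Loc s s' (k + 1) Y) (hW : Loc s s' (k + 1) W) (p v : R × R) : 
    pcl s s' (k + 1) (Y * (p.1 • 1 + p.2 • e s s' k) * W * (v.1 • 1 + v.2 • e s s' k)) = 
      (-(s + s') * (p.1 * v.1) + p.2 * v.1 + p.1 * v.2) • (Y * W) + (p.2 * v.2) • (Y * pcl s s' k W) := by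
  have h0 := pcl_loc (hY.mul hW)
  have h1 := pcl_e1 hs k hY hW
  have h2 := pcl_e1 hs k (hY.mul hW) (Loc.one _)
  have h3 := pcl_e2 hs k (Y := W) hY (Loc.one _)
  simp only [mul_one] at h2 h3
  have h : Y * (p.1 • 1 + p.2 • e s s' k) * W * (v.1 • 1 + v.2 • e s s' k) = 
      (p.1 * v.1) • (Y * W) + (p.2 * v.1) • (Y * e s s' k * W) + (p.1 * v.2) • (Y * W * e s s' k) + 
        (p.2 * v.2) • (Y * e s s' k * W * e s s' k) := by
    simp only [mul_add, add_mul, mul_smul_comm, smul_mul_assoc, mul_one, smul_add, smul_smul]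
    module
  rw [h]
  simp only [map_add, map_smul, h0, h1, h2, h3]
  module

/-- the partial closure of `a W a' Y a''` -/
theorem G8 (k : ℕ) {W Y : E R} (hW : Loc s s' (k + 1) W) (hY : Loc s s' (k + 1) Y) (p r u : R × R) : 
    pcl s s' (k + 1) ((p.1 • 1 + p.2 • e s s' k) * W * (r.1 • 1 + r.2 • e s s' k) * Y * 
      (u.1 • 1 + u.2 • e s s' k)) = 
      (-(s + s') * (p.1 * r.1 * u.1) + p.2 * r.1 * u.1 + p.1 * r.2 * u.1 + p.1 * r.1 * u.2) • (W * Y) + 
      (p.2 * r.2 * u.1) • (pcl s s' k W * Y) + (p.2 * r.1 * u.2) • pcl s s' k (W * Y) + 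
      (p.1 * r.2 * u.2) • (W * pcl s s' k Y) + (p.2 * r.2 * u.2) • (pcl s s' k W * pcl s s' k Y) := by
  have L1 := Loc.one (s := s) (s' := s') (R := R) (k + 1)
  have h0 := pcl_loc (hW.mul hY)
  have h1 := pcl_e1 hs k L1 (hW.mul hY)
  have h2 := pcl_e1 hs k hW hY
  have h3 := pcl_e1 hs k (hW.mul hY) L1
  have h4 := pcl_e2 hs k (Y := W) L1 hY
  have h5 := pcl_e2 hs k (Y := W * Y) L1 L1
  have h6 := pcl_e2 hs k (Y := Y) hW L1
  have h7 := pcl_e3 hs k (Y := W) (Z := Y) L1 L1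
  simp only [mul_one, one_mul] at h1 h2 h3 h4 h5 h6 h7
  have h : (p.1 • 1 + p.2 • e s s' k) * W * (r.1 • 1 + r.2 • e s s' k) * Y * (u.1 • 1 + u.2 • e s s' k) = 
      (p.1 * r.1 * u.1) • (W * Y) + (p.2 * r.1 * u.1) • (e s s' k * (W * Y)) + 
      (p.1 * r.2 * u.1) • (W * e s s' k * Y) + (p.1 * r.1 * u.2) • (W * Y * e s s' k) + 
      (p.2 * r.2 * u.1) • (e s s' k * W * e s s' k * Y) + 
      (p.2 * r.1 * u.2) • (e s s' k * (W * Y) * e s s' k) + 
      (p.1 * r.2 * u.2) • (W * e s s' k * Y * e s s' k) + 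
      (p.2 * r.2 * u.2) • (e s s' k * W * e s s' k * Y * e s s' k) := by
    simp only [mul_add, add_mul, mul_smul_comm, smul_mul_assoc, mul_one, one_mul, smul_add, smul_smul, 
      mul_assoc]
    module
  rw [h]
  simp only [map_add, map_smul, h0, h1, h2, h3, h4, h5, h6, h7]
  module

end

end

end Pool.Agent.U963.LN
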