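import Pool.Agent.U963.LN.Ord

/-!
# The values as Laurent polynomials
-/

set_option autoImplicit false

namespace Pool.Agent.U963.LP

open Pool.Agent.U963.LN (valG valG_iso valG_skein vn)

open Pool.Agent.H838R2.Jones
open Pool.Agent.H838R2.SL (toO opD sx sx' hsx)
open Pool.Agent.H835R2.Knot (Word Piece Front Isotopic IsKnot IsInvariant DegreeLE circle)
open Pool.Agent.Helper454.Wh (OPiece OWord insD delD)
open LaurentPolynomial

/-! ### naturality -/

section
variable {R R' : Type} [CommRing R] [CommRing R'] (φ : R →+* R') {s s' : R} {t t' : R'}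

theorem Bl_map (h' : φ s' = t') (i : ℕ) (f : F R) (g : F R') (hf : ∀ σ, g σ = φ (f σ)) (σ : ℕ → Bool) : 
    Bl t' i g σ = φ (Bl s' i f σ) := by
  rw [Bl_apply, Bl_apply, hf, hf, map_add, map_mul, map_neg, h']

theorem Dl_map (h : φ s = t) (i : ℕ) (f : F R) (g : F R') (hf : ∀ σ, g σ = φ (f σ)) (σ : ℕ → Bool) : 
    Dl t i g σ = φ (Dl s i f σ) := by
  rw [Dl_apply, Dl_apply, hf]
  split_ifs
  · rw [map_mul, map_one]
  · rw [map_mul, map_neg, h]
  · rw [map_zero]

theorem Xl_map (h : φ s = t) (h' : φ s' = t') (c : R × R) (c' : R' × R') (h1 : c'.1 = φ c.1) (h2 : c'.2 = φ c.2) 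
    (i : ℕ) (f : F R) (g : F R') (hf : ∀ σ, g σ = φ (f σ)) (σ : ℕ → Bool) : 
    Xl t t' c' i g σ = φ (Xl s s' c i f σ) := by
  rw [Xl_apply, Xl_apply]
  simp only [Pi.add_apply, Pi.smul_apply, smul_eq_mul]
  rw [hf, h1, h2, Dl_map φ h i (Bl s' i f) (Bl t' i g) (Bl_map φ h' i f g hf), map_add, map_mul, map_mul]

theorem op_map (h : φ s = t) (h' : φ s' = t') (w : OWord) : ∀ (d : ℕ → Bool) (f : F R) (g : F R'), 
    (∀ σ, g σ = φ (f σ)) → ∀ σ, opW t t' w d g σ = φ (opW s s' w d f σ) := by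
  induction w with
  | nil => intro d f g hf; exact hf
  | cons p w ih =>
    intro d f g hf
    rw [opW_cons, opW_cons]
    have ih' := ih (nxt p d) f g hf
    cases p with
    | birth i b => exact Bl_map φ h' i _ _ ih'
    | death i => exact Dl_map φ h i _ _ ih'
    | pos i =>
      refine Xl_map φ h h' _ _ ?_ ?_ i _ _ ih' <;> cases (d i == d (i + 1)) <;> simp [cP, h, h']
    | neg i =>
      refine Xl_map φ h h' _ _ ?_ ?_ i _ _ ih' <;> cases (d i == d (i + 1)) <;> simp [cN, h, h']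

theorem valG_map (h : φ s = t) (h' : φ s' = t') (D : Word) : valG t t' D = φ (valG s s' D) := 
  op_map φ h h' _ _ 1 1 (fun _ => (map_one φ).symm) _

end

noncomputable section

/-- the Jones polynomial (with the value `-(s + s⁻¹)` at the circle), `s = T 1`, `t = s ^ 2` -/
def jP (D : Word) : LaurentPolynomial ℤ := valG (T 1) (T (-1)) D

theorem hT : (T 1 : LaurentPolynomial ℤ) * T (-1) = 1 := by
  rw [← T_add]; simp

/-! ### the range of the exponents -/

/-- the exponents are between `-k` and `k` -/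
def Bd (k : ℕ) (p : LaurentPolynomial ℤ) : Prop := 
  ∃ P : Polynomial ℤ, P.natDegree ≤ 2 * k ∧ Polynomial.toLaurent P = T k * p

theorem Bd.mul {k l : ℕ} {p q : LaurentPolynomial ℤ} (hp : Bd k p) (hq : Bd l q) : Bd (k + l) (p * q) := by
  obtain ⟨P, h1, h2⟩ := hp
  obtain ⟨Q, h3, h4⟩ := hq
  refine ⟨P * Q, Polynomial.natDegree_mul_le.trans (by omega), ?_⟩
  rw [map_mul, h2, h4]
  push_cast
  rw [T_add]
  ring

theorem Bd.add {k : ℕ} {p q : LaurentPolynomial ℤ} (hp : Bd k p) (hq : Bd k q) : Bd k (p + q) := by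
  obtain ⟨P, h1, h2⟩ := hp
  obtain ⟨Q, h3, h4⟩ := hq
  refine ⟨P + Q, (Polynomial.natDegree_add_le _ _).trans (max_le h1 h3), ?_⟩
  rw [map_add, h2, h4, mul_add]

theorem Bd.neg {k : ℕ} {p : LaurentPolynomial ℤ} (hp : Bd k p) : Bd k (-p) := by
  obtain ⟨P, h1, h2⟩ := hp
  exact ⟨-P, by rwa [Polynomial.natDegree_neg], by rw [map_neg, h2, mul_neg]⟩

theorem Bd.one : Bd 0 1 := ⟨1, by simp, by simp⟩

theorem Bd.zero (k : ℕ) : Bd k 0 := ⟨0, by simp, by simp⟩

theorem Bd.s : Bd 1 (T 1) := ⟨Polynomial.X ^ 2, by simp, by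
  rw [map_pow, Polynomial.toLaurent_X, T_pow, ← T_add]; norm_num⟩

theorem Bd.s' : Bd 1 (T (-1)) := ⟨1, by simp, by
  rw [map_one, ← T_add]; simp⟩

theorem Bd.succ {k : ℕ} {p : LaurentPolynomial ℤ} (hp : Bd k p) : Bd (k + 1) p := by
  obtain ⟨P, h1, h2⟩ := hp
  refine ⟨Polynomial.X * P, Polynomial.natDegree_mul_le.trans (by
    have := Polynomial.natDegree_X_le (R := ℤ)
    omega), ?_⟩
  rw [map_mul, h2, Polynomial.toLaurent_X, ← mul_assoc, ← T_add]
  congr 2
  push_cast
  ring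

theorem Bd.mono {k l : ℕ} (h : k ≤ l) {p : LaurentPolynomial ℤ} (hp : Bd k p) : Bd l p := by
  obtain ⟨m, rfl⟩ := Nat.exists_eq_add_of_le h
  induction m with
  | zero => exact hp
  | succ m ih => exact (ih (by omega)).succ

/-- all values have exponents between `-k` and `k` -/
def BF (k : ℕ) (f : F (LaurentPolynomial ℤ)) : Prop := ∀ σ, Bd k (f σ)

theorem BF.bl {k : ℕ} {f : F (LaurentPolynomial ℤ)} (hf : BF k f) (i : ℕ) : BF (k + 1) (Bl (T (-1)) i f) := by
  intro σ
  rw [Bl_apply]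
  have := (Bd.s'.neg).mul (hf (insD i true σ))
  rw [add_comm 1 k] at this
  exact this.add (hf _).succ

theorem BF.dl {k : ℕ} {f : F (LaurentPolynomial ℤ)} (hf : BF k f) (i : ℕ) : BF (k + 1) (Dl (T 1) i f) := by
  intro σ
  rw [Dl_apply]
  split_ifs
  · rw [one_mul]; exact (hf _).succ
  · have := (Bd.s.neg).mul (hf (delD i σ))
    rwa [add_comm 1 k] at this
  · exact Bd.zero _

theorem BF.e {k : ℕ} {f : F (LaurentPolynomial ℤ)} (hf : BF k f) (i : ℕ) : 
    BF (k + 1) (Dl (T 1) i (Bl (T (-1)) i f)) := by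
  intro σ
  rw [Dl_apply, Bl_apply]
  split_ifs
  · rw [one_mul]
    have := (Bd.s'.neg).mul (hf (insD i true (delD i σ)))
    rw [add_comm 1 k] at this
    exact this.add (hf _).succ
  · have e1 : -T 1 * (-T (-1) * f (insD i true (delD i σ)) + f (insD i false (delD i σ))) = 
        f (insD i true (delD i σ)) + -T 1 * f (insD i false (delD i σ)) := by
      linear_combination (f (insD i true (delD i σ))) * hT
    rw [e1]
    have := (Bd.s.neg).mul (hf (insD i false (delD i σ)))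
    rw [add_comm 1 k] at this
    exact (hf _).succ.add this
  · exact Bd.zero _

theorem BF.xl {k : ℕ} {f : F (LaurentPolynomial ℤ)} (hf : BF k f) {c : LaurentPolynomial ℤ × LaurentPolynomial ℤ} 
    (h1 : Bd 2 c.1) (h2 : Bd 2 c.2) (i : ℕ) : BF (k + 3) (Xl (T 1) (T (-1)) c i f) := by
  intro σ
  rw [Xl_apply]
  simp only [Pi.add_apply, Pi.smul_apply, smul_eq_mul]
  have a1 := h1.mul (hf σ)
  have a2 := h2.mul (hf.e i σ)
  refine (a1.mono (by omega)).add (a2.mono (by omega))

theorem bd_c (b : Bool) : Bd 2 (cP (T 1 : LaurentPolynomial ℤ) (T (-1)) b).1 ∧ 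
    Bd 2 (cP (T 1 : LaurentPolynomial ℤ) (T (-1)) b).2 ∧ 
    Bd 2 (cN (T 1 : LaurentPolynomial ℤ) (T (-1)) b).1 ∧ 
    Bd 2 (cN (T 1 : LaurentPolynomial ℤ) (T (-1)) b).2 := by
  have h1 : Bd 2 (-T 1) := Bd.s.neg.succ
  have h2 : Bd 2 (-T (-1)) := Bd.s'.neg.succ
  have h3 : Bd 2 (-(T 1) ^ 2) := by rw [pow_two]; exact (Bd.s.mul Bd.s).neg
  have h4 : Bd 2 (-(T (-1)) ^ 2) := by rw [pow_two]; exact (Bd.s'.mul Bd.s').neg
  cases b
  · exact ⟨h4, h2, h3, h1⟩
  · exact ⟨h1, h3, h2, h4⟩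

theorem BF.op (w : OWord) : ∀ (d : ℕ → Bool) {k : ℕ} {f : F (LaurentPolynomial ℤ)}, BF k f → 
    BF (3 * w.length + k) (opW (T 1) (T (-1)) w d f) := by
  induction w with
  | nil => 
    intro d k f hf
    rw [List.length_nil, mul_zero, zero_add]
    exact hf
  | cons p w ih =>
    intro d k f hf
    rw [opW_cons]
    have ih' := ih (nxt p d) hf
    rw [List.length_cons]
    cases p with
    | birth i b => exact fun σ => (ih'.bl i σ).mono (by omega)
    | death i => exact fun σ => (ih'.dl i σ).mono (by omega)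
    | pos i => 
      exact fun σ => (ih'.xl (bd_c _).1 (bd_c _).2.1 i σ).mono (by omega)
    | neg i => 
      exact fun σ => (ih'.xl (bd_c _).2.2.1 (bd_c _).2.2.2 i σ).mono (by omega)

theorem Bd_jP (D : Word) : Bd (3 * D.length) (jP D) := by
  have h := BF.op (D.map toO) (fun _ => true) (k := 0) (f := 1) (fun _ => Bd.one)
  have h1 := h (fun _ => false)
  rw [List.length_map, add_zero] at h1
  exact h1

/-! ### the detection -/

/-- the unit `1 + X` -/
def uX : (PowerSeries ℚ)ˣ := ⟨sx, sx', hsx, by rw [mul_comm]; exact hsx⟩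

/-- `s ↦ 1 + X` -/
def toX : LaurentPolynomial ℤ →+* PowerSeries ℚ := 
  LaurentPolynomial.eval₂ (Int.castRingHom (PowerSeries ℚ)) uX

theorem toX_T : toX (T 1) = sx := by
  unfold toX
  rw [LaurentPolynomial.eval₂_T]
  simp [uX]

theorem toX_T' : toX (T (-1)) = sx' := by
  unfold toX
  rw [LaurentPolynomial.eval₂_T]
  simp [uX]

theorem toX_jP (D : Word) : valG sx sx' D = toX (jP D) := valG_map toX toX_T toX_T' D

theorem toX_poly (P : Polynomial ℤ) : toX (Polynomial.toLaurent P) = 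
    (((P.map (Int.castRingHom ℚ)).comp (Polynomial.X + 1) : Polynomial ℚ) : PowerSeries ℚ) := by
  unfold toX
  rw [LaurentPolynomial.eval₂_toLaurent]
  have h1 : (P.map (Int.castRingHom ℚ)).comp (Polynomial.X + 1) = 
      P.eval₂ (Polynomial.C.comp (Int.castRingHom ℚ)) (Polynomial.X + 1) := by
    rw [Polynomial.comp, Polynomial.eval₂_map]
  have h2 := Polynomial.hom_eval₂ P (Polynomial.C.comp (Int.castRingHom ℚ)) 
    (Polynomial.coeToPowerSeries.ringHom (R := ℚ)) (Polynomial.X + 1)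
  rw [← h1] at h2
  have h3 : (Polynomial.coeToPowerSeries.ringHom (R := ℚ)) ((P.map (Int.castRingHom ℚ)).comp (Polynomial.X + 1)) = 
      (((P.map (Int.castRingHom ℚ)).comp (Polynomial.X + 1) : Polynomial ℚ) : PowerSeries ℚ) := rfl
  rw [← h3, h2]
  congr 1
  · exact RingHom.ext_int _ _
  · rw [map_add, map_one]
    show sx = (((Polynomial.X : Polynomial ℚ)) : PowerSeries ℚ) + 1
    rw [Polynomial.coe_X, add_comm]
    rfl

/-- **A Laurent polynomial with exponents between `-k` and `k` is determined by the coefficients of order at 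
most `2 k` at `s = 1 + X`.** -/
theorem Bd.eq_zero {k : ℕ} {p : LaurentPolynomial ℤ} (hp : Bd k p) 
    (h : ∀ j ≤ 2 * k, PowerSeries.coeff j (toX p) = 0) : p = 0 := by
  obtain ⟨P, h1, h2⟩ := hp
  have h3 : (PowerSeries.X : PowerSeries ℚ) ^ (2 * k + 1) ∣ toX (Polynomial.toLaurent P) := by
    rw [h2, map_mul]
    exact Dvd.dvd.mul_left (PowerSeries.X_pow_dvd_iff.2 fun j hj => h j (by omega)) _
  rw [toX_poly, PowerSeries.X_pow_dvd_iff] at h3
  set Q := (P.map (Int.castRingHom ℚ)).comp (Polynomial.X + 1) with hQ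
  have h4 : Q = 0 := by
    have hd : Q.natDegree ≤ 2 * k := by
      rw [hQ]
      refine Polynomial.natDegree_comp_le.trans ?_
      have e1 : (Polynomial.X + 1 : Polynomial ℚ).natDegree = 1 := by
        have := Polynomial.natDegree_X_add_C (1 : ℚ)
        rwa [Polynomial.C_1] at this
      rw [e1, mul_one]
      exact Polynomial.natDegree_map_le.trans h1
    ext j
    by_cases hj : j ≤ 2 * k
    · have := h3 j (by omega)
      rwa [Polynomial.coeff_coe] at this
    · rw [Polynomial.coeff_eq_zero_of_natDegree_lt (by omega), Polynomial.coeff_zero]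
  have h5 : P.map (Int.castRingHom ℚ) = 0 := by
    have h6 : (Q.comp (Polynomial.X - 1)) = P.map (Int.castRingHom ℚ) := by
      rw [hQ, Polynomial.comp_assoc]
      simp
    rw [← h6, h4, Polynomial.zero_comp]
  have h6 : P = 0 := (Polynomial.map_eq_zero_iff (Int.cast_injective)).1 h5
  rw [h6, map_zero] at h2
  have h7 : T (-(k : ℤ)) * (T k * p) = 0 := by rw [← h2, mul_zero]
  rwa [← mul_assoc, ← T_add, neg_add_cancel, T_zero, one_mul] at h7

theorem detect {D : Word} (hD : IsKnot D) (h : jP D ≠ jP circle) : ∃ j ≤ 6 * D.length, vn j D ≠ vn j circle := by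
  by_contra hc
  push Not at hc
  have hl : 1 ≤ D.length := by
    rcases D with _ | ⟨p, w⟩
    · exact absurd hD (by decide)
    · simp
  have h1 : Bd 1 (jP circle) := by
    have : jP circle = -(T 1 + T (-1)) := Pool.Agent.U963.LN.val_circle
    rw [this]
    exact (Bd.s.add Bd.s').neg
  have h2 : Bd (3 * D.length) (jP D + -jP circle) := (Bd_jP D).add (h1.mono (by omega)).neg
  apply h
  have h3 := h2.eq_zero (fun j hj => by
    have h4 := hc j (by omega)
    unfold vn at h4
    rw [toX_jP, toX_jP] at h4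
    rw [map_add, map_neg, map_add, map_neg, h4, add_neg_cancel])
  rw [← sub_eq_zero, sub_eq_add_neg, h3]

end

end Pool.Agent.U963.LP
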