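import Pool.Agent.U963.LN.Val

/-!
# The coefficients at `s = 1 + X`
-/

set_option autoImplicit false

namespace Pool.Agent.U963.LN

open Pool.Agent.H838R2.Jones
open Pool.Agent.H838R2.SL (toO opD sx sx' hsx Dv_sum switchAt_eq sw' dir_run opD_append move_op)
open Pool.Agent.H835R2.Knot
open PowerSeries

/-! ### invariance -/

/-- two strands change places -/
def swpD' (i : ℕ) (d : ℕ → Bool) : ℕ → Bool := fun p => d (sw i p)

section
variable {R : Type} [CommRing R] {s s' : R}

theorem valG_step (hs : s * s' = 1) {D E : Word} (h : Step D E) : valG s s' D = valG s s' E := by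
  obtain ⟨x, l, r, y, hm, h1, h2⟩ := h
  have h3 := fits_of_closed h1
  have h4 := move_op hs hm (run x Front.empty) h3
  have e : ∀ w : Word, valG s s' (x ++ w ++ y) = opD s s' x Front.empty.dir
      (opD s s' w (run x Front.empty).dir (opD s s' y (run w (run x Front.empty)).dir 1))
        (fun _ => false) := by
    intro w
    show opD s s' (x ++ w ++ y) Front.empty.dir 1 (fun _ => false) = _
    rw [List.append_assoc, opD_append, opD_append]
  rw [e, e, dir_run l, (h4 1).2, ← dir_run r, (h4 _).1]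

theorem valG_iso (hs : s * s' = 1) {D E : Word} (h : Isotopic D E) : valG s s' D = valG s s' E := by
  induction h with
  | rel _ _ h => exact valG_step hs h
  | refl _ => rfl
  | symm _ _ _ ih => exact ih.symm
  | trans _ _ _ _ _ ih1 ih2 => exact ih1.trans ih2

/-- the relation of the Jones polynomial, for two strands with the same direction -/
theorem valG_skein (hs : s * s' = 1) (x y : Word) (i : ℕ) 
    (h : (run x Front.empty).dir i = (run x Front.empty).dir (i + 1)) : 
    s' ^ 2 * valG s s' (x ++ [.pos i] ++ y) - s ^ 2 * valG s s' (x ++ [.neg i] ++ y) = 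
      (s - s') * valG s s' (x ++ y) := by
  set A := run x Front.empty with hA
  have e : ∀ w : Word, valG s s' (x ++ w ++ y) = opD s s' x Front.empty.dir
      (opD s s' w A.dir (opD s s' y (run w A).dir 1)) (fun _ => false) := by
    intro w
    show opD s s' (x ++ w ++ y) Front.empty.dir 1 (fun _ => false) = _
    rw [List.append_assoc, opD_append, opD_append]
  have e0 := e []
  rw [List.append_nil] at e0
  have hsw : (swpD' i A.dir) = A.dir := by
    funext q
    unfold swpD' sw
    split_ifs with h1 h2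
    · rw [h1, h]
    · rw [h2, h]
    · rfl
  have d1 : (run [.pos i] A).dir = A.dir := hsw
  have d2 : (run [.neg i] A).dir = A.dir := hsw
  rw [e, e, e0, d1, d2]
  set g := opD s s' y A.dir 1 with hg
  have h1 : opD s s' [.pos i] A.dir g = (-s) • g + (-s ^ 2) • Dl s i (Bl s' i g) := by
    show Xl s s' (cP s s' (A.dir i == A.dir (i + 1))) i g = _
    rw [h, show (A.dir (i + 1) == A.dir (i + 1)) = true by simp]
    rfl
  have h2 : opD s s' [.neg i] A.dir g = (-s') • g + (-s' ^ 2) • Dl s i (Bl s' i g) := by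
    show Xl s s' (cN s s' (A.dir i == A.dir (i + 1))) i g = _
    rw [h, show (A.dir (i + 1) == A.dir (i + 1)) = true by simp]
    rfl
  have h3 : opD s s' [] A.dir g = g := rfl
  have h4 : (run [] A).dir = A.dir := rfl
  rw [h4, h3, h1, h2, map_add, map_add, map_smul, map_smul, map_smul, map_smul]
  simp only [Pi.add_apply, Pi.smul_apply, smul_eq_mul]
  generalize opD s s' x Front.empty.dir g (fun _ => false) = a
  generalize opD s s' x Front.empty.dir (Dl s i (Bl s' i g)) (fun _ => false) = c
  linear_combination (-a * s' + a * s) * hs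

end

/-! ### the coefficients -/

noncomputable section

/-- the coefficient of `X ^ n` in the value at `s = 1 + X` -/
def vn (n : ℕ) (D : Word) : ℚ := coeff n (valG sx sx' D)

theorem vn_inv (n : ℕ) : IsInvariant (vn n) := by
  intro D E _ h
  unfold vn
  rw [valG_iso hsx h]

theorem vn_deg (n : ℕ) : DegreeLE n (vn n) := by
  intro D _ S hS hc
  have h1 : ∀ x ∈ S, 0 ≤ x ∧ x < 0 + D.length := by
    intro x hx
    have h2 := hS hx
    simp only [crossingSet, Finset.mem_filter, Finset.mem_range] at h2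
    exact ⟨Nat.zero_le _, by omega⟩
  have h3 := Dv_sum D 0 S (fun _ => true) 1 h1 (fun _ => false)
  rw [hc] at h3
  have h4 : coeff n ((∑ T ∈ S.powerset, (-1 : ℚ⟦X⟧) ^ T.card •
      opD sx sx' (sw' T 0 D) (fun _ => true) 1) (fun _ => false)) = 0 :=
    (X_pow_dvd_iff.1 h3) n (Nat.lt_succ_self n)
  rw [Finset.sum_apply, map_sum] at h4
  rw [← h4]
  refine Finset.sum_congr rfl fun T _ => ?_
  rw [switchAt_eq, Pi.smul_apply, smul_eq_mul]
  have e1 : ((-1 : ℚ⟦X⟧) ^ T.card) = C ((-1 : ℚ) ^ T.card) := by simp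
  rw [e1, coeff_C_mul]
  unfold vn valG
  rw [zsmul_eq_mul]
  push_cast
  rfl

theorem cc_sx : constantCoeff sx = 1 := by simp [sx]
theorem cc_sx' : constantCoeff sx' = 1 := by simp [sx']

theorem coeff_X_pow_mul_cc (n : ℕ) (f : ℚ⟦X⟧) : coeff n (X ^ n * f) = constantCoeff f := by
  have h := coeff_X_pow_mul f n 0
  rw [zero_add] at h
  rw [h, coeff_zero_eq_constantCoeff_apply]

/-- the first coefficient of the knots `K_n` which is not that of the circle -/
theorem vn_kn (m : ℕ) : vn (m + 2) (kn true true (fun _ => true) m) - vn (m + 2) circle = 24 * 4 ^ m := by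
  have e1 : (1 : ℚ⟦X⟧) - sx ^ 2 = X * (-(2 + X)) := by unfold sx; ring
  have e2 : (1 : ℚ⟦X⟧) - sx ^ 6 = X * (-(6 + 15 * X + 20 * X ^ 2 + 15 * X ^ 3 + 6 * X ^ 4 + X ^ 5)) := by 
    unfold sx; ring
  have e3 : valG sx sx' (kn true true (fun _ => true) m) - valG sx sx' circle = 
      X ^ (m + 2) * ((sx + sx') * ((2 + X) * (6 + 15 * X + 20 * X ^ 2 + 15 * X ^ 3 + 6 * X ^ 4 + X ^ 5)) * 
        ((2 + X) * (sx' ^ 2 + sx ^ 2)) ^ m) := by
    rw [val_closed hsx, val_circle, e1, e2]
    have : -(X * (-(2 + X))) * (sx' ^ 2 + sx ^ 2) = X * ((2 + X) * (sx' ^ 2 + sx ^ 2)) := by ring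
    rw [this, mul_pow]
    ring
  unfold vn
  rw [← map_sub, e3, coeff_X_pow_mul_cc]
  simp only [map_mul, map_add, map_pow, cc_sx, cc_sx', constantCoeff_X, map_ofNat]
  norm_num

theorem vn_kn_ne (m : ℕ) : vn (m + 2) (kn true true (fun _ => true) m) ≠ vn (m + 2) circle := by
  intro h
  have h1 := vn_kn m
  rw [h, sub_self] at h1
  have : (24 : ℚ) * 4 ^ m ≠ 0 := by positivity
  exact this h1.symm

end

end Pool.Agent.U963.LN
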