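import Pool.Agent.U963.LN.Alg

/-!
# The recursion for the closures of the conjugates

`zz b ε m` is the operator of the braid `a_m z a_m^{-1}`, where `a_i` is `σ_i ^ {± 2}`; `tau k X` is the value of
the closure of `X σ_{k-1} ⋯ σ_0`.
-/

set_option autoImplicit false

namespace Pool.Agent.U963.LN

open Pool.Agent.H838R2.Jones

section
variable {R : Type} [CommRing R] (s s' : R)

/-- the coefficients of `σ ^ 2` (`b = true`) and `σ ^ {-2}` -/
def cA (b : Bool) : R × R := if b then (s ^ 2, s ^ 3 - s ^ 5) else (s' ^ 2, s' ^ 3 - s' ^ 5)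

/-- the operator of `σ_i ^ {± 2}` -/
def opA (i : ℕ) (b : Bool) : E R := (cA s s' b).1 • 1 + (cA s s' b).2 • e s s' i

/-- the operator of `σ_i` -/
def sg (i : ℕ) : E R := (-s) • 1 + (-s ^ 2) • e s s' i

/-- the coefficients of `σ ^ {-1}` (`b = true`) and `σ ^ 3` -/
def cV (b : Bool) : R × R := if b then (-s', -s' ^ 2) else (-s ^ 3, -(s ^ 4 - s ^ 6 + s ^ 8))

/-- the braid `z_0 = σ_0 ^ {± 2}`, `z_{m+1} = a_{m+1} z_m a_{m+1}⁻¹` -/
def zz (b : Bool) (ε : ℕ → Bool) : ℕ → E R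
  | 0 => opA s s' 0 b
  | m + 1 => opA s s' (m + 1) (ε m) * zz b ε m * opA s s' (m + 1) (!ε m)

/-- the value at the constant function and the constant state -/
def ev : E R →ₗ[R] R where
  toFun X := X 1 (fun _ => false)
  map_add' X Y := by simp
  map_smul' c X := by simp

/-- the closure of the strands `0, …, m - 1` -/
def T : ℕ → (E R →ₗ[R] R)
  | 0 => ev
  | m + 1 => (T m).comp (pcl s s' m)

/-- the operator of `σ_{k-1} ⋯ σ_0` -/
def tl : ℕ → E R
  | 0 => 1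
  | k + 1 => sg s s' k * tl k

/-- the value of the closure of `X σ_{k-1} ⋯ σ_0` -/
def tau (k : ℕ) : E R →ₗ[R] R := (T s s' (k + 1)).comp (LinearMap.mulRight R (tl s s' k))

variable {s s'}

theorem tau_apply (k : ℕ) (X : E R) : tau s s' k X = T s s' (k + 1) (X * tl s s' k) := rfl

theorem loc_opA {i m : ℕ} (h : i + 2 ≤ m) (b : Bool) : Loc s s' m (opA s s' i b) := 
  ((Loc.one m).smul _).add ((loc_e h).smul _)

theorem loc_sg {i m : ℕ} (h : i + 2 ≤ m) : Loc s s' m (sg s s' i) := 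
  ((Loc.one m).smul _).add ((loc_e h).smul _)

theorem loc_tl (k : ℕ) : Loc s s' (k + 1) (tl s s' k) := by
  induction k with
  | zero => exact Loc.one _
  | succ k ih => exact (loc_sg (by omega)).mul (ih.mono (by omega))

theorem loc_zz (b : Bool) (ε : ℕ → Bool) (m : ℕ) : Loc s s' (m + 2) (zz s s' b ε m) := by
  induction m with
  | zero => exact loc_opA (by omega) _
  | succ m ih => exact ((loc_opA (by omega) _).mul (ih.mono (by omega))).mul (loc_opA (by omega) _)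

theorem tau_succ (k : ℕ) (X : E R) : tau s s' (k + 1) X = tau s s' k (pcl s s' (k + 1) (X * sg s s' k)) := by
  rw [tau_apply, tau_apply, ← pcl_mul_right (loc_tl k)]
  show T s s' (k + 1) (pcl s s' (k + 1) (X * (sg s s' k * tl s s' k))) = _
  rw [mul_assoc]

theorem mul_two (k : ℕ) (p q : R × R) : (p.1 • 1 + p.2 • e s s' k) * (q.1 • 1 + q.2 • e s s' k) = 
    (p.1 * q.1) • (1 : E R) + (p.1 * q.2 + p.2 * q.1 - (s + s') * (p.2 * q.2)) • e s s' k := by
  have h := ee (s := s) (s' := s') (R := R) k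
  simp only [mul_add, add_mul, mul_smul_comm, smul_mul_assoc, mul_one, one_mul, smul_add, smul_smul, h]
  module

section
variable (hs : s * s' = 1)
include hs

theorem opA_mul (i : ℕ) (b : Bool) : opA s s' i b * opA s s' i (!b) = 1 := by
  unfold opA
  rw [mul_two]
  have h1 : (cA s s' b).1 * (cA s s' (!b)).1 = 1 := by
    cases b <;> simp only [cA, Bool.not_true, Bool.not_false, if_true, if_false, Bool.false_eq_true] <;> 
      linear_combination (s * s' + 1) * hs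
  have h2 : (cA s s' b).1 * (cA s s' (!b)).2 + (cA s s' b).2 * (cA s s' (!b)).1 - 
      (s + s') * ((cA s s' b).2 * (cA s s' (!b)).2) = 0 := by
    cases b <;> simp only [cA, Bool.not_true, Bool.not_false, if_true, if_false, Bool.false_eq_true]
    · linear_combination (-1 * s ^ 2 * s' ^ 3 + 1 * s ^ 2 * s' ^ 5 - 1 * s ^ 3 * s' ^ 2 - 1 * s ^ 4 * s' ^ 5 + 1 * s ^ 5 * s' ^ 2 - 1 * s ^ 5 * s' ^ 4) * hs
    · linear_combination (-1 * s ^ 2 * s' ^ 3 + 1 * s ^ 2 * s' ^ 5 - 1 * s ^ 3 * s' ^ 2 - 1 * s ^ 4 * s' ^ 5 + 1 * s ^ 5 * s' ^ 2 - 1 * s ^ 5 * s' ^ 4) * hs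
  rw [h1, h2]
  simp

theorem opA_sg (i : ℕ) (b : Bool) : opA s s' i (!b) * sg s s' i = 
    (cV s s' b).1 • 1 + (cV s s' b).2 • e s s' i := by
  unfold opA sg
  have h0 := mul_two (s := s) (s' := s') i (cA s s' (!b)) ((-s, -s ^ 2) : R × R)
  rw [h0]
  have h1 : (cA s s' (!b)).1 * (-s) = (cV s s' b).1 := by
    cases b <;> simp only [cA, cV, Bool.not_true, Bool.not_false, if_true, if_false, Bool.false_eq_true]
    · ring
    · linear_combination (-s') * hs
  have h2 : (cA s s' (!b)).1 * (-s ^ 2) + (cA s s' (!b)).2 * (-s) - 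
      (s + s') * ((cA s s' (!b)).2 * (-s ^ 2)) = (cV s s' b).2 := by
    cases b <;> simp only [cA, cV, Bool.not_true, Bool.not_false, if_true, if_false, Bool.false_eq_true]
    · linear_combination (1 * s ^ 4 - 1 * s ^ 6) * hs
    · linear_combination (-1 * s' ^ 2 - 1 * s ^ 1 * s' ^ 5 + 1 * s ^ 2 * s' ^ 2 - 1 * s ^ 2 * s' ^ 4) * hs
  rw [h1, h2]

theorem zz_mul (b : Bool) (ε : ℕ → Bool) (m : ℕ) : zz s s' b ε m * zz s s' (!b) ε m = 1 := by
  induction m with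
  | zero => exact opA_mul hs 0 b
  | succ m ih =>
    show opA s s' (m + 1) (ε m) * zz s s' b ε m * opA s s' (m + 1) (!ε m) * 
      (opA s s' (m + 1) (ε m) * zz s s' (!b) ε m * opA s s' (m + 1) (!ε m)) = 1
    have h := opA_mul hs (m + 1) (!ε m)
    rw [Bool.not_not] at h
    have h' : opA s s' (m + 1) (ε m) * zz s s' b ε m * opA s s' (m + 1) (!ε m) * 
      (opA s s' (m + 1) (ε m) * zz s s' (!b) ε m * opA s s' (m + 1) (!ε m)) = 
      opA s s' (m + 1) (ε m) * (zz s s' b ε m * (opA s s' (m + 1) (!ε m) * 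
      opA s s' (m + 1) (ε m)) * zz s s' (!b) ε m) * opA s s' (m + 1) (!ε m) := by simp only [mul_assoc]
    rw [h', h, mul_one, ih, mul_one, opA_mul hs]

theorem pcl_sg (k : ℕ) : pcl s s' (k + 1) (sg s s' k) = 1 := by
  have h1 := pcl_e1 hs k (Loc.one _) (Loc.one _)
  simp only [mul_one, one_mul] at h1
  unfold sg
  rw [map_add, map_smul, map_smul, pcl_one, h1, smul_smul, ← add_smul]
  have : -s * -(s + s') + -s ^ 2 = 1 := by linear_combination hs
  rw [this, one_smul]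

/-- Markov's move -/
theorem tau_loc (k : ℕ) {X : E R} (hX : Loc s s' (k + 1) X) : tau s s' (k + 1) X = tau s s' k X := by
  rw [tau_succ, pcl_mul_left hX, pcl_sg hs, mul_one]

theorem tau_one (k : ℕ) : tau s s' k 1 = -(s + s') := by
  induction k with
  | zero =>
    rw [tau_apply, one_mul]
    show ev (pcl s s' 0 1) = _
    rw [pcl_one, map_smul]
    show -(s + s') * 1 = _
    ring
  | succ k ih => rw [tau_loc hs k (Loc.one _), ih]

theorem pcl_zz (b : Bool) (ε : ℕ → Bool) (m : ℕ) : pcl s s' (m + 2) (zz s s' b ε (m + 1)) = 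
    (-(s ^ 3 + s' ^ 3)) • zz s s' b ε m + (2 - s ^ 2 - s' ^ 2) • pcl s s' (m + 1) (zz s s' b ε m) := by
  have h := G4 hs (m + 1) (Y := 1) (Loc.one _) (loc_zz (s := s) (s' := s') b ε m) (cA s s' (ε m)) (cA s s' (!ε m))
  simp only [one_mul] at h
  have h1 : -(s + s') * ((cA s s' (ε m)).1 * (cA s s' (!ε m)).1) + (cA s s' (ε m)).2 * (cA s s' (!ε m)).1 + 
      (cA s s' (ε m)).1 * (cA s s' (!ε m)).2 = -(s ^ 3 + s' ^ 3) := by
    cases ε m <;> simp only [cA, Bool.not_true, Bool.not_false, if_true, if_false, Bool.false_eq_true]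
    · linear_combination (-1 * s' ^ 3 - 1 * s ^ 1 * s' ^ 4 - 1 * s ^ 3 - 1 * s ^ 4 * s' ^ 1) * hs
    · linear_combination (-1 * s' ^ 3 - 1 * s ^ 1 * s' ^ 4 - 1 * s ^ 3 - 1 * s ^ 4 * s' ^ 1) * hs
  have h2 : (cA s s' (ε m)).2 * (cA s s' (!ε m)).2 = 2 - s ^ 2 - s' ^ 2 := by
    cases ε m <;> simp only [cA, Bool.not_true, Bool.not_false, if_true, if_false, Bool.false_eq_true]
    · linear_combination (2 - 1 * s' ^ 2 + 2 * s ^ 1 * s' ^ 1 - 1 * s ^ 1 * s' ^ 3 - 1 * s ^ 2 + 2 * s ^ 2 * s' ^ 2 - 1 * s ^ 2 * s' ^ 4 - 1 * s ^ 3 * s' ^ 1 + 1 * s ^ 3 * s' ^ 3 - 1 * s ^ 4 * s' ^ 2 + 1 * s ^ 4 * s' ^ 4) * hs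
    · linear_combination (2 - 1 * s' ^ 2 + 2 * s ^ 1 * s' ^ 1 - 1 * s ^ 1 * s' ^ 3 - 1 * s ^ 2 + 2 * s ^ 2 * s' ^ 2 - 1 * s ^ 2 * s' ^ 4 - 1 * s ^ 3 * s' ^ 1 + 1 * s ^ 3 * s' ^ 3 - 1 * s ^ 4 * s' ^ 2 + 1 * s ^ 4 * s' ^ 4) * hs
  rw [h1, h2] at h
  exact h

end

end

end Pool.Agent.U963.LN
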