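import Pool.Agent.U963.LN.Rec

/-!
# The linear recursion
-/

set_option autoImplicit false

namespace Pool.Agent.U963.LN

open Pool.Agent.H838R2.Jones

section
variable {R : Type} [CommRing R] (s s' : R)

/-- closure of `F(z) z⁻¹`, `F` the partial closure -/
def q1 (b : Bool) (ε : ℕ → Bool) (m : ℕ) : R := 
  tau s s' (m + 1) (pcl s s' (m + 1) (zz s s' b ε m) * zz s s' (!b) ε m)

/-- closure of `z F(z⁻¹)` -/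
def q2 (b : Bool) (ε : ℕ → Bool) (m : ℕ) : R := 
  tau s s' (m + 1) (zz s s' b ε m * pcl s s' (m + 1) (zz s s' (!b) ε m))

/-- closure of `F(z) F(z⁻¹)` -/
def q3 (b : Bool) (ε : ℕ → Bool) (m : ℕ) : R := 
  tau s s' (m + 1) (pcl s s' (m + 1) (zz s s' b ε m) * pcl s s' (m + 1) (zz s s' (!b) ε m))

/-- closure of the commutator -/
def qV (b' b : Bool) (ε : ℕ → Bool) (m : ℕ) : R := 
  tau s s' (m + 2) (opA s s' (m + 1) b' * zz s s' b ε m * opA s s' (m + 1) (!b') * zz s s' (!b) ε m)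

/-- coefficients -/
def k2 (b : Bool) : R := if b then -s ^ 3 + s ^ 5 else s' - s

/-- coefficients -/
def k3 (b : Bool) : R := if b then s' - s else -s ^ 3 + s ^ 5

/-- coefficients -/
def c1 (b : Bool) : R := if b then s ^ 4 else s' ^ 2 + s ^ 4 - s ^ 6

/-- coefficients -/
def c2 (b : Bool) : R := if b then -s + s ^ 3 else s' - 2 * s + 2 * s ^ 3 - s ^ 5

variable {s s'}

section
variable (hs : s * s' = 1)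
include hs

theorem coef8 (b : Bool) :
    -(s + s') * ((cA s s' b).1 * (cA s s' (!b)).1 * (-s)) + (cA s s' b).2 * (cA s s' (!b)).1 * (-s) + 
      (cA s s' b).1 * (cA s s' (!b)).2 * (-s) + (cA s s' b).1 * (cA s s' (!b)).1 * (-s ^ 2) = 
        s' ^ 2 - s ^ 2 + s ^ 4 ∧ 
    (cA s s' b).2 * (cA s s' (!b)).2 * (-s) = s' - 2 * s + s ^ 3 ∧ 
    (cA s s' b).2 * (cA s s' (!b)).1 * (-s ^ 2) = k2 s s' b ∧ 
    (cA s s' b).1 * (cA s s' (!b)).2 * (-s ^ 2) = k3 s s' b ∧ 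
    (cA s s' b).2 * (cA s s' (!b)).2 * (-s ^ 2) = 1 - 2 * s ^ 2 + s ^ 4 := by
  cases b <;> simp only [cA, k2, k3, Bool.not_true, Bool.not_false, if_true, if_false, Bool.false_eq_true]
  · refine ⟨?_, ?_, ?_, ?_, ?_⟩
    · linear_combination (1 * s' ^ 2 + 1 * s ^ 1 * s' ^ 3 - 1 * s ^ 2 + 1 * s ^ 2 * s' ^ 4 - 1 * s ^ 3 * s' ^ 1 + 1 * s ^ 4 + 1 * s ^ 5 * s' ^ 1) * hs
    · linear_combination (1 * s' ^ 1 - 2 * s ^ 1 + 1 * s ^ 1 * s' ^ 2 - 2 * s ^ 2 * s' ^ 1 + 1 * s ^ 2 * s' ^ 3 + 1 * s ^ 3 - 2 * s ^ 3 * s' ^ 2 + 1 * s ^ 3 * s' ^ 4 + 1 * s ^ 4 * s' ^ 1 - 1 * s ^ 4 * s' ^ 3 + 1 * s ^ 5 * s' ^ 2 - 1 * s ^ 5 * s' ^ 4) * hs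
    · linear_combination (1 * s' ^ 1 - 1 * s ^ 1 + 1 * s ^ 1 * s' ^ 2 - 1 * s ^ 2 * s' ^ 1 + 1 * s ^ 2 * s' ^ 3 - 1 * s ^ 3 * s' ^ 2 + 1 * s ^ 3 * s' ^ 4) * hs
    · linear_combination (-1 * s ^ 3 - 1 * s ^ 4 * s' ^ 1 + 1 * s ^ 5 + 1 * s ^ 6 * s' ^ 1) * hs
    · linear_combination (1 + 1 * s ^ 1 * s' ^ 1 - 2 * s ^ 2 + 1 * s ^ 2 * s' ^ 2 - 2 * s ^ 3 * s' ^ 1 + 1 * s ^ 3 * s' ^ 3 + 1 * s ^ 4 - 2 * s ^ 4 * s' ^ 2 + 1 * s ^ 4 * s' ^ 4 + 1 * s ^ 5 * s' ^ 1 - 1 * s ^ 5 * s' ^ 3 + 1 * s ^ 6 * s' ^ 2 - 1 * s ^ 6 * s' ^ 4) * hs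
  · refine ⟨?_, ?_, ?_, ?_, ?_⟩
    · linear_combination (1 * s' ^ 2 + 1 * s ^ 1 * s' ^ 3 - 1 * s ^ 2 + 1 * s ^ 2 * s' ^ 4 - 1 * s ^ 3 * s' ^ 1 + 1 * s ^ 4 + 1 * s ^ 5 * s' ^ 1) * hs
    · linear_combination (1 * s' ^ 1 - 2 * s ^ 1 + 1 * s ^ 1 * s' ^ 2 - 2 * s ^ 2 * s' ^ 1 + 1 * s ^ 2 * s' ^ 3 + 1 * s ^ 3 - 2 * s ^ 3 * s' ^ 2 + 1 * s ^ 3 * s' ^ 4 + 1 * s ^ 4 * s' ^ 1 - 1 * s ^ 4 * s' ^ 3 + 1 * s ^ 5 * s' ^ 2 - 1 * s ^ 5 * s' ^ 4) * hs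
    · linear_combination (-1 * s ^ 3 - 1 * s ^ 4 * s' ^ 1 + 1 * s ^ 5 + 1 * s ^ 6 * s' ^ 1) * hs
    · linear_combination (1 * s' ^ 1 - 1 * s ^ 1 + 1 * s ^ 1 * s' ^ 2 - 1 * s ^ 2 * s' ^ 1 + 1 * s ^ 2 * s' ^ 3 - 1 * s ^ 3 * s' ^ 2 + 1 * s ^ 3 * s' ^ 4) * hs
    · linear_combination (1 + 1 * s ^ 1 * s' ^ 1 - 2 * s ^ 2 + 1 * s ^ 2 * s' ^ 2 - 2 * s ^ 3 * s' ^ 1 + 1 * s ^ 3 * s' ^ 3 + 1 * s ^ 4 - 2 * s ^ 4 * s' ^ 2 + 1 * s ^ 4 * s' ^ 4 + 1 * s ^ 5 * s' ^ 1 - 1 * s ^ 5 * s' ^ 3 + 1 * s ^ 6 * s' ^ 2 - 1 * s ^ 6 * s' ^ 4) * hs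

theorem coef4 (b : Bool) :
    -(s + s') * ((cA s s' b).1 * (cV s s' b).1) + (cA s s' b).2 * (cV s s' b).1 + 
      (cA s s' b).1 * (cV s s' b).2 = c1 s s' b ∧ (cA s s' b).2 * (cV s s' b).2 = c2 s s' b := by
  cases b <;> simp only [cA, cV, c1, c2, if_true, if_false, Bool.false_eq_true]
  · refine ⟨?_, ?_⟩
    · linear_combination (1 * s' ^ 2 + 1 * s ^ 1 * s' ^ 3 + 1 * s ^ 2 * s' ^ 4 + 1 * s ^ 4 + 1 * s ^ 5 * s' ^ 1 - 1 * s ^ 6 - 1 * s ^ 7 * s' ^ 1) * hs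
    · linear_combination (1 * s' ^ 1 - 2 * s ^ 1 + 1 * s ^ 1 * s' ^ 2 - 2 * s ^ 2 * s' ^ 1 + 1 * s ^ 2 * s' ^ 3 + 2 * s ^ 3 - 2 * s ^ 3 * s' ^ 2 + 1 * s ^ 3 * s' ^ 4 + 2 * s ^ 4 * s' ^ 1 - 1 * s ^ 4 * s' ^ 3 - 1 * s ^ 5 + 2 * s ^ 5 * s' ^ 2 - 1 * s ^ 5 * s' ^ 4 - 1 * s ^ 6 * s' ^ 1 + 1 * s ^ 6 * s' ^ 3 - 1 * s ^ 7 * s' ^ 2 + 1 * s ^ 7 * s' ^ 4) * hs
  · refine ⟨?_, ?_⟩
    · linear_combination (1 * s ^ 4) * hs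
    · linear_combination (-1 * s ^ 1 - 1 * s ^ 2 * s' ^ 1 + 1 * s ^ 3 + 1 * s ^ 4 * s' ^ 1) * hs

/-- the functional `tau` of `a W a⁻¹ Y`, one level down -/
theorem tau8 (k : ℕ) (b : Bool) {W Y : E R} (hW : Loc s s' (k + 1) W) (hY : Loc s s' (k + 1) Y) : 
    tau s s' (k + 1) (opA s s' k b * W * opA s s' k (!b) * Y) = 
      (s' ^ 2 - s ^ 2 + s ^ 4) * tau s s' k (W * Y) + 
      (s' - 2 * s + s ^ 3) * tau s s' k (pcl s s' k W * Y) + 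
      k2 s s' b * tau s s' k (pcl s s' k (W * Y)) + 
      k3 s s' b * tau s s' k (W * pcl s s' k Y) + 
      (1 - 2 * s ^ 2 + s ^ 4) * tau s s' k (pcl s s' k W * pcl s s' k Y) := by
  obtain ⟨e0, e1, e2, e3, e4⟩ := coef8 hs b
  rw [tau_succ]
  have h := G8 hs k hW hY (cA s s' b) (cA s s' (!b)) ((-s, -s ^ 2) : R × R)
  have h' : opA s s' k b * W * opA s s' k (!b) * Y * sg s s' k = 
    ((cA s s' b).1 • 1 + (cA s s' b).2 • e s s' k) * W * ((cA s s' (!b)).1 • 1 + (cA s s' (!b)).2 • e s s' k) * Y * 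
      ((-s, -s ^ 2).1 • 1 + (-s, -s ^ 2).2 • e s s' k) := rfl
  rw [h', h]
  simp only [map_add, map_smul, smul_eq_mul]
  rw [e0, e1, e2, e3, e4]

/-- the functional `tau` of `Y a W a⁻¹`, one level down -/
theorem tau4 (k : ℕ) (b : Bool) {W Y : E R} (hW : Loc s s' (k + 1) W) (hY : Loc s s' (k + 1) Y) : 
    tau s s' (k + 1) (Y * (opA s s' k b * W * opA s s' k (!b))) = 
      c1 s s' b * tau s s' k (Y * W) + c2 s s' b * tau s s' k (Y * pcl s s' k W) := by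
  obtain ⟨e0, e1⟩ := coef4 hs b
  rw [tau_succ]
  have h := G4 hs k hY hW (cA s s' b) (cV s s' b)
  have h' : Y * (opA s s' k b * W * opA s s' k (!b)) * sg s s' k = 
    Y * ((cA s s' b).1 • 1 + (cA s s' b).2 • e s s' k) * W * ((cV s s' b).1 • 1 + (cV s s' b).2 • e s s' k) := by
    rw [← opA_sg hs]
    simp only [mul_assoc]
    rfl
  rw [h', h]
  simp only [map_add, map_smul, smul_eq_mul]
  rw [e0, e1]

omit hs in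
theorem loc_pz (b : Bool) (ε : ℕ → Bool) (m : ℕ) : Loc s s' (m + 1) (pcl s s' (m + 1) (zz s s' b ε m)) := 
  (loc_zz b ε m).pcl

theorem qV_eq (b' b : Bool) (ε : ℕ → Bool) (m : ℕ) : qV s s' b' b ε m = 
    (s' ^ 2 - s ^ 2 + s ^ 4) * (-(s + s')) + (s' - 2 * s + s ^ 3) * q1 s s' b ε m + 
      k2 s s' b' * (s + s') ^ 2 + k3 s s' b' * q2 s s' b ε m + (1 - 2 * s ^ 2 + s ^ 4) * q3 s s' b ε m := by
  have h := tau8 hs (m + 1) b' (loc_zz (s := s) (s' := s') b ε m) (loc_zz (!b) ε m)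
  rw [zz_mul hs, pcl_one, map_smul, tau_one hs] at h
  unfold qV
  rw [h]
  unfold q1 q2 q3
  simp only [smul_eq_mul]
  ring

theorem q3_succ (b : Bool) (ε : ℕ → Bool) (m : ℕ) : q3 s s' b ε (m + 1) = 
    (s ^ 3 + s' ^ 3) ^ 2 * (-(s + s')) - (s ^ 3 + s' ^ 3) * (2 - s ^ 2 - s' ^ 2) * q2 s s' b ε m - 
      (s ^ 3 + s' ^ 3) * (2 - s ^ 2 - s' ^ 2) * q1 s s' b ε m + (2 - s ^ 2 - s' ^ 2) ^ 2 * q3 s s' b ε m := by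
  unfold q3
  rw [tau_loc hs (m + 1) ((loc_pz b ε (m + 1)).mul (loc_pz (!b) ε (m + 1))), pcl_zz hs, pcl_zz hs]
  simp only [mul_add, add_mul, smul_mul_assoc, mul_smul_comm, smul_smul, map_add, map_smul, smul_eq_mul]
  rw [zz_mul hs, tau_one hs]
  unfold q1 q2
  ring

theorem q1_succ (b : Bool) (ε : ℕ → Bool) (m : ℕ) : q1 s s' b ε (m + 1) = 
    c1 s s' (ε m) * ((s ^ 3 + s' ^ 3) * (s + s') + (2 - s ^ 2 - s' ^ 2) * q1 s s' b ε m) + 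
    c2 s s' (ε m) * (-(s ^ 3 + s' ^ 3) * q2 s s' b ε m + (2 - s ^ 2 - s' ^ 2) * q3 s s' b ε m) := by
  have h := tau4 hs (m + 1) (ε m) (loc_zz (s := s) (s' := s') (!b) ε m) (loc_pz b ε (m + 1))
  have h0 : q1 s s' b ε (m + 1) = tau s s' (m + 1 + 1) (pcl s s' (m + 1 + 1) (zz s s' b ε (m + 1)) * 
      (opA s s' (m + 1) (ε m) * zz s s' (!b) ε m * opA s s' (m + 1) (!ε m))) := rfl
  rw [h0, h, pcl_zz hs]
  simp only [add_mul, smul_mul_assoc, map_add, map_smul, smul_eq_mul]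
  rw [zz_mul hs, tau_one hs]
  unfold q1 q2 q3
  ring

theorem q2_succ (b : Bool) (ε : ℕ → Bool) (m : ℕ) : q2 s s' b ε (m + 1) = 
    (s' ^ 2 - s ^ 2 + s ^ 4) * ((s ^ 3 + s' ^ 3) * (s + s') + (2 - s ^ 2 - s' ^ 2) * q2 s s' b ε m) + 
    (s' - 2 * s + s ^ 3) * (-(s ^ 3 + s' ^ 3) * q1 s s' b ε m + (2 - s ^ 2 - s' ^ 2) * q3 s s' b ε m) + 
    k2 s s' (ε m) * (-(s ^ 3 + s' ^ 3) * (s + s') ^ 2 + (2 - s ^ 2 - s' ^ 2) * q3 s s' b ε m) + 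
    k3 s s' (ε m) * ((-(s ^ 3 + s' ^ 3) - (2 - s ^ 2 - s' ^ 2) * (s + s')) * q2 s s' b ε m) + 
    (1 - 2 * s ^ 2 + s ^ 4) * ((-(s ^ 3 + s' ^ 3) - (2 - s ^ 2 - s' ^ 2) * (s + s')) * q3 s s' b ε m) := by
  have h := tau8 hs (m + 1) (ε m) (loc_zz (s := s) (s' := s') b ε m) (loc_pz (!b) ε (m + 1))
  have h0 : q2 s s' b ε (m + 1) = tau s s' (m + 1 + 1) (opA s s' (m + 1) (ε m) * zz s s' b ε m * 
      opA s s' (m + 1) (!ε m) * pcl s s' (m + 1 + 1) (zz s s' (!b) ε (m + 1))) := rfl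
  have e1 : zz s s' b ε m * pcl s s' (m + 1 + 1) (zz s s' (!b) ε (m + 1)) = 
      (-(s ^ 3 + s' ^ 3)) • (1 : E R) + (2 - s ^ 2 - s' ^ 2) • (zz s s' b ε m * 
        pcl s s' (m + 1) (zz s s' (!b) ε m)) := by
    rw [pcl_zz hs, mul_add, mul_smul_comm, mul_smul_comm, zz_mul hs]
  have e2 : pcl s s' (m + 1) (zz s s' b ε m * pcl s s' (m + 1) (zz s s' (!b) ε m)) = 
      pcl s s' (m + 1) (zz s s' b ε m) * pcl s s' (m + 1) (zz s s' (!b) ε m) := 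
    pcl_mul_right (loc_pz (!b) ε m)
  have e3 : pcl s s' (m + 1) (pcl s s' (m + 1 + 1) (zz s s' (!b) ε (m + 1))) = 
      (-(s ^ 3 + s' ^ 3) - (2 - s ^ 2 - s' ^ 2) * (s + s')) • pcl s s' (m + 1) (zz s s' (!b) ε m) := by
    rw [pcl_zz hs, map_add, map_smul, map_smul, pcl_loc (loc_pz (!b) ε m)]
    module
  rw [h0, h, e3, e1]
  have e4 : pcl s s' (m + 1) (zz s s' b ε m) * pcl s s' (m + 1 + 1) (zz s s' (!b) ε (m + 1)) = 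
      (-(s ^ 3 + s' ^ 3)) • (pcl s s' (m + 1) (zz s s' b ε m) * zz s s' (!b) ε m) + 
      (2 - s ^ 2 - s' ^ 2) • (pcl s s' (m + 1) (zz s s' b ε m) * pcl s s' (m + 1) (zz s s' (!b) ε m)) := by
    rw [pcl_zz hs, mul_add, mul_smul_comm, mul_smul_comm]
  rw [e4]
  simp only [mul_smul_comm, map_add, map_smul, smul_eq_mul, e2, pcl_one, tau_one hs]
  unfold q1 q2 q3
  ring

end

end

end Pool.Agent.U963.LN
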