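import Pool.Agent.U963.LN.Rec2

/-!
# The homogeneous recursion and the closed formula
-/

set_option autoImplicit false

namespace Pool.Agent.U963.LN

open Pool.Agent.H838R2.Jones

section
variable {R : Type} [CommRing R] (s s' : R)

/-- `q1` minus its value for the trivial braid -/
def xx (b : Bool) (ε : ℕ → Bool) (m : ℕ) : R := q1 s s' b ε m - (s + s') ^ 2

/-- `q2` minus its value for the trivial braid -/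
def yy (b : Bool) (ε : ℕ → Bool) (m : ℕ) : R := q2 s s' b ε m - (s + s') ^ 2

/-- the closure of `(F(z) - δ z) (F(z⁻¹) - δ z⁻¹)` -/
def ww (b : Bool) (ε : ℕ → Bool) (m : ℕ) : R := 
  q3 s s' b ε m + (s + s') * (xx s s' b ε m + yy s s' b ε m) + (s + s') ^ 3

/-- the three entries of the new vector -/
def Nx (b : Bool) (x y w : R) : R := if b then 1 * s' ^ 1 * w - 3 * s ^ 1 * w + 3 * s ^ 3 * w - 1 * s ^ 5 * w + 2 * x - 1 * s' ^ 2 * x - 1 * s ^ 2 * x + 1 * y - 1 * s ^ 4 * y else 4 * s' ^ 1 * w - 1 * s' ^ 3 * w - 7 * s ^ 1 * w + 7 * s ^ 3 * w - 4 * s ^ 5 * w + 1 * s ^ 7 * w + 2 * x - 1 * s' ^ 2 * x - 1 * s ^ 2 * x + 1 * y - 1 * s' ^ 2 * y - 1 * s ^ 4 * y + 1 * s ^ 6 * y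

/-- the three entries of the new vector -/
def Ny (b : Bool) (x y w : R) : R := if b then 3 * s' ^ 1 * w - 1 * s' ^ 3 * w - 4 * s ^ 1 * w + 2 * s ^ 3 * w + 1 * s ^ 5 * w - 1 * s ^ 7 * w + 1 * s ^ 2 * x - 1 * s ^ 4 * x - 1 * s ^ 6 * x + 1 * s ^ 8 * x + 1 * y - 1 * s' ^ 2 * y - 1 * s ^ 6 * y + 1 * s ^ 8 * y else 6 * s' ^ 1 * w - 2 * s' ^ 3 * w - 8 * s ^ 1 * w + 6 * s ^ 3 * w - 2 * s ^ 5 * w + 1 * x - 2 * s' ^ 2 * x + 1 * s' ^ 4 * x + 1 * s ^ 2 * x - 2 * s ^ 4 * x + 1 * s ^ 6 * x + 2 * y - 2 * s' ^ 2 * y + 1 * s' ^ 4 * y - 1 * s ^ 4 * y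

/-- the three entries of the new vector -/
def Nw (b : Bool) (x y w : R) : R := if b then 3 * w - 1 * s' ^ 2 * w - 6 * s ^ 2 * w + 6 * s ^ 4 * w - 1 * s ^ 6 * w - 1 * s ^ 8 * w + 1 * s ^ 1 * x - 2 * s ^ 5 * x + 1 * s ^ 9 * x + 1 * s ^ 1 * y - 2 * s ^ 5 * y + 1 * s ^ 9 * y else 1 * w + 3 * s' ^ 2 * w - 2 * s' ^ 4 * w - 6 * s ^ 2 * w + 8 * s ^ 4 * w - 5 * s ^ 6 * w + 1 * s ^ 8 * w - 1 * s' ^ 1 * x - 1 * s' ^ 3 * x + 1 * s' ^ 5 * x + 2 * s ^ 1 * x - 1 * s ^ 3 * x - 1 * s ^ 5 * x + 1 * s ^ 7 * x - 1 * s' ^ 1 * y - 1 * s' ^ 3 * y + 1 * s' ^ 5 * y + 2 * s ^ 1 * y - 1 * s ^ 3 * y - 1 * s ^ 5 * y + 1 * s ^ 7 * y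

/-- the functional -/
def NV (b : Bool) (x y w : R) : R := if b then 1 * w - 2 * s ^ 2 * w + 1 * s ^ 4 * w - 1 * s ^ 1 * x + 2 * s ^ 3 * x - 1 * s ^ 5 * x + 1 * s ^ 3 * y - 1 * s ^ 5 * y else 1 * w - 2 * s ^ 2 * w + 1 * s ^ 4 * w - 1 * s ^ 1 * x + 2 * s ^ 3 * x - 1 * s ^ 5 * x - 1 * s' ^ 1 * y + 1 * s ^ 1 * y

variable {s s'}

section
variable (hs : s * s' = 1)
include hs

theorem xx_succ (b : Bool) (ε : ℕ → Bool) (m : ℕ) : xx s s' b ε (m + 1) = 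
    Nx s s' (ε m) (xx s s' b ε m) (yy s s' b ε m) (ww s s' b ε m) := by
  have e3 : q3 s s' b ε m = ww s s' b ε m - (s + s') * (xx s s' b ε m + yy s s' b ε m) - (s + s') ^ 3 := by
    unfold ww; ring
  have e1 : q1 s s' b ε m = xx s s' b ε m + (s + s') ^ 2 := by unfold xx; ring
  have e2 : q2 s s' b ε m = yy s s' b ε m + (s + s') ^ 2 := by unfold yy; ring
  have h : xx s s' b ε (m + 1) = q1 s s' b ε (m + 1) - (s + s') ^ 2 := rfl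
  rw [h, q1_succ hs, e3, e1, e2]
  generalize xx s s' b ε m = x
  generalize yy s s' b ε m = y
  generalize ww s s' b ε m = w
  cases ε m <;> simp only [c1, c2, Nx, if_true, if_false, Bool.false_eq_true]
  · linear_combination (1 * s' ^ 2 + 2 * s ^ 1 * s' ^ 1 - 1 * s ^ 1 * s' ^ 3 + 1 * s ^ 2 - 6 * s ^ 2 * s' ^ 2 - 9 * s ^ 3 * s' ^ 1 + 2 * s ^ 3 * s' ^ 3 - 4 * s ^ 4 + 6 * s ^ 4 * s' ^ 2 + 6 * s ^ 5 * s' ^ 1 - 1 * s ^ 5 * s' ^ 3 + 2 * s ^ 6 - 2 * s ^ 6 * s' ^ 2 - 1 * s ^ 7 * s' ^ 1 + 2 * s' ^ 1 * w - 3 * s ^ 1 * w - 2 * s ^ 2 * s' ^ 1 * w + 1 * s ^ 3 * w + 1 * s ^ 4 * s' ^ 1 * w + 2 * x - 1 * s' ^ 2 * x - 5 * s ^ 2 * x + 2 * s ^ 2 * s' ^ 2 * x + 4 * s ^ 4 * x - 1 * s ^ 4 * s' ^ 2 * x - 1 * s ^ 6 * x + 1 * y + 1 * s' ^ 2 * y - 1 * s ^ 1 * s' ^ 1 * y - 4 * s ^ 2 * y + 2 * s ^ 3 * s' ^ 1 * y + 3 * s ^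 4 * y - 1 * s ^ 5 * s' ^ 1 * y - 1 * s ^ 6 * y) * hs
  · linear_combination (1 * s' ^ 2 + 2 * s ^ 1 * s' ^ 1 - 1 * s ^ 1 * s' ^ 3 + 1 * s ^ 2 - 4 * s ^ 2 * s' ^ 2 - 5 * s ^ 3 * s' ^ 1 + 1 * s ^ 3 * s' ^ 3 - 2 * s ^ 4 + 2 * s ^ 4 * s' ^ 2 + 1 * s ^ 5 * s' ^ 1 + 1 * s' ^ 1 * w - 1 * s ^ 1 * w - 1 * s ^ 2 * s' ^ 1 * w + 2 * x - 1 * s' ^ 2 * x - 3 * s ^ 2 * x + 1 * s ^ 2 * s' ^ 2 * x + 1 * s ^ 4 * x + 1 * y - 1 * s ^ 1 * s' ^ 1 * y - 2 * s ^ 2 * y + 1 * s ^ 3 * s' ^ 1 * y + 1 * s ^ 4 * y) * hs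

theorem yy_succ (b : Bool) (ε : ℕ → Bool) (m : ℕ) : yy s s' b ε (m + 1) = 
    Ny s s' (ε m) (xx s s' b ε m) (yy s s' b ε m) (ww s s' b ε m) := by
  have e3 : q3 s s' b ε m = ww s s' b ε m - (s + s') * (xx s s' b ε m + yy s s' b ε m) - (s + s') ^ 3 := by
    unfold ww; ring
  have e1 : q1 s s' b ε m = xx s s' b ε m + (s + s') ^ 2 := by unfold xx; ring
  have e2 : q2 s s' b ε m = yy s s' b ε m + (s + s') ^ 2 := by unfold yy; ring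
  have h : yy s s' b ε (m + 1) = q2 s s' b ε (m + 1) - (s + s') ^ 2 := rfl
  rw [h, q2_succ hs, e3, e1, e2]
  generalize xx s s' b ε m = x
  generalize yy s s' b ε m = y
  generalize ww s s' b ε m = w
  cases ε m <;> simp only [k2, k3, Ny, if_true, if_false, Bool.false_eq_true]
  · linear_combination (1 * s' ^ 2 + 2 * s ^ 1 * s' ^ 1 - 5 * s ^ 1 * s' ^ 3 + 1 * s ^ 2 - 16 * s ^ 2 * s' ^ 2 + 2 * s ^ 2 * s' ^ 4 - 17 * s ^ 3 * s' ^ 1 + 9 * s ^ 3 * s' ^ 3 - 6 * s ^ 4 + 14 * s ^ 4 * s' ^ 2 - 1 * s ^ 4 * s' ^ 4 + 9 * s ^ 5 * s' ^ 1 - 3 * s ^ 5 * s' ^ 3 + 2 * s ^ 6 - 3 * s ^ 6 * s' ^ 2 - 1 * s ^ 7 * s' ^ 1 + 4 * s' ^ 1 * w - 3 * s ^ 2 * s' ^ 1 * w - 3 * s ^ 3 * w + 1 * s ^ 4 * s' ^ 1 * w + 1 * s ^ 5 * w + 1 * x - 5 * s ^ 1 * s' ^ 1 * x - 7 * s ^ 2 * x + 2 * s ^ 2 * s' ^ 2 * x + 6 * s ^ 3 * s' ^ 1 * x + 5 *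 s ^ 4 * x - 1 * s ^ 4 * s' ^ 2 * x - 2 * s ^ 5 * s' ^ 1 * x - 1 * s ^ 6 * x + 2 * y - 2 * s' ^ 2 * y - 4 * s ^ 1 * s' ^ 1 * y - 6 * s ^ 2 * y + 3 * s ^ 2 * s' ^ 2 * y + 4 * s ^ 3 * s' ^ 1 * y + 3 * s ^ 4 * y - 1 * s ^ 4 * s' ^ 2 * y - 1 * s ^ 5 * s' ^ 1 * y) * hs
  · linear_combination (1 * s' ^ 2 + 2 * s ^ 1 * s' ^ 1 - 5 * s ^ 1 * s' ^ 3 + 1 * s ^ 2 - 16 * s ^ 2 * s' ^ 2 + 2 * s ^ 2 * s' ^ 4 - 17 * s ^ 3 * s' ^ 1 + 9 * s ^ 3 * s' ^ 3 - 6 * s ^ 4 + 14 * s ^ 4 * s' ^ 2 - 1 * s ^ 4 * s' ^ 4 + 9 * s ^ 5 * s' ^ 1 - 3 * s ^ 5 * s' ^ 3 + 2 * s ^ 6 - 3 * s ^ 6 * s' ^ 2 - 1 * s ^ 7 * s' ^ 1 + 3 * s' ^ 1 * w + 2 * s ^ 1 * w - 2 * s ^ 2 * s' ^ 1 * w - 4 * s ^ 3 * w + 1 * s ^ 5 * w - 6 * s ^ 1 * s' ^ 1 * x - 5 * s ^ 2 * x + 1 * s ^ 2 * s' ^ 2 * x + 6 * s ^ 3 * s' ^ 1 * x + 3 * s ^ 4 * x - 1 * s ^ 5 * s' ^ 1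 * x + 1 * y - 1 * s' ^ 2 * y - 5 * s ^ 1 * s' ^ 1 * y - 6 * s ^ 2 * y + 2 * s ^ 2 * s' ^ 2 * y + 5 * s ^ 3 * s' ^ 1 * y + 3 * s ^ 4 * y - 1 * s ^ 5 * s' ^ 1 * y) * hs

theorem ww_succ (b : Bool) (ε : ℕ → Bool) (m : ℕ) : ww s s' b ε (m + 1) = 
    Nw s s' (ε m) (xx s s' b ε m) (yy s s' b ε m) (ww s s' b ε m) := by
  have e3 : q3 s s' b ε m = ww s s' b ε m - (s + s') * (xx s s' b ε m + yy s s' b ε m) - (s + s') ^ 3 := by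
    unfold ww; ring
  have e1 : q1 s s' b ε m = xx s s' b ε m + (s + s') ^ 2 := by unfold xx; ring
  have e2 : q2 s s' b ε m = yy s s' b ε m + (s + s') ^ 2 := by unfold yy; ring
  have h : ww s s' b ε (m + 1) = q3 s s' b ε (m + 1) + 
    (s + s') * (xx s s' b ε (m + 1) + yy s s' b ε (m + 1)) + (s + s') ^ 3 := rfl
  rw [h, q3_succ hs, xx_succ hs b ε m, yy_succ hs b ε m, e3, e1, e2]
  generalize xx s s' b ε m = x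
  generalize yy s s' b ε m = y
  generalize ww s s' b ε m = w
  cases ε m <;> simp only [Nx, Ny, Nw, if_true, if_false, Bool.false_eq_true]
  · linear_combination (3 * s' ^ 3 + 9 * s ^ 1 * s' ^ 2 - 1 * s ^ 1 * s' ^ 4 + 9 * s ^ 2 * s' ^ 1 - 3 * s ^ 2 * s' ^ 3 + 3 * s ^ 3 - 3 * s ^ 3 * s' ^ 2 - 1 * s ^ 4 * s' ^ 1 - 3 * w - 3 * s' ^ 2 * w + 2 * s ^ 1 * s' ^ 1 * w + 13 * s ^ 2 * w - 6 * s ^ 4 * w + 1 * s ^ 6 * w + 3 * s ^ 1 * x - 1 * s ^ 1 * s' ^ 2 * x - 1 * s ^ 2 * s' ^ 1 * x - 3 * s ^ 3 * x + 1 * s ^ 5 * x + 3 * s ^ 1 * y - 1 * s ^ 1 * s' ^ 2 * y - 1 * s ^ 2 * s' ^ 1 * y - 3 * s ^ 3 * y + 1 * s ^ 5 * y) * hs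
  · linear_combination (3 * s' ^ 3 + 9 * s ^ 1 * s' ^ 2 - 1 * s ^ 1 * s' ^ 4 + 9 * s ^ 2 * s' ^ 1 - 3 * s ^ 2 * s' ^ 3 + 3 * s ^ 3 - 3 * s ^ 3 * s' ^ 2 - 1 * s ^ 4 * s' ^ 1 - 1 * w - 1 * s' ^ 2 * w + 2 * s ^ 1 * s' ^ 1 * w + 5 * s ^ 2 * w - 1 * s ^ 6 * w + 2 * s' ^ 1 * x - 1 * s' ^ 3 * x + 3 * s ^ 1 * x - 1 * s ^ 1 * s' ^ 2 * x - 1 * s ^ 2 * s' ^ 1 * x - 2 * s ^ 3 * x - 1 * s ^ 5 * x + 1 * s ^ 7 * x + 2 * s' ^ 1 * y - 1 * s' ^ 3 * y + 3 * s ^ 1 * y - 1 * s ^ 1 * s' ^ 2 * y - 1 * s ^ 2 * s' ^ 1 * y - 2 * s ^ 3 * y - 1 * s ^ 5 * y + 1 * s ^ 7 * y) * hs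

theorem qV_sub (b' b : Bool) (ε : ℕ → Bool) (m : ℕ) : qV s s' b' b ε m + (s + s') = 
    NV s s' b' (xx s s' b ε m) (yy s s' b ε m) (ww s s' b ε m) := by
  have e3 : q3 s s' b ε m = ww s s' b ε m - (s + s') * (xx s s' b ε m + yy s s' b ε m) - (s + s') ^ 3 := by
    unfold ww; ring
  have e1 : q1 s s' b ε m = xx s s' b ε m + (s + s') ^ 2 := by unfold xx; ring
  have e2 : q2 s s' b ε m = yy s s' b ε m + (s + s') ^ 2 := by unfold yy; ring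
  rw [qV_eq hs, e3, e1, e2]
  generalize xx s s' b ε m = x
  generalize yy s s' b ε m = y
  generalize ww s s' b ε m = w
  cases b' <;> simp only [k2, k3, NV, if_true, if_false, Bool.false_eq_true]
  · linear_combination (-1 * s' ^ 1 - 1 * s ^ 1 + 2 * s ^ 1 * s' ^ 2 + 5 * s ^ 2 * s' ^ 1 + 3 * s ^ 3 - 1 * s ^ 3 * s' ^ 2 - 2 * s ^ 4 * s' ^ 1 - 1 * s ^ 5 + 2 * s ^ 1 * x - 1 * s ^ 3 * x + 2 * s ^ 1 * y - 1 * s ^ 3 * y) * hs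
  · linear_combination (-1 * s' ^ 1 - 1 * s ^ 1 + 2 * s ^ 1 * s' ^ 2 + 5 * s ^ 2 * s' ^ 1 + 3 * s ^ 3 - 1 * s ^ 3 * s' ^ 2 - 2 * s ^ 4 * s' ^ 1 - 1 * s ^ 5 + 2 * s ^ 1 * x - 1 * s ^ 3 * x + 2 * s ^ 1 * y - 1 * s ^ 3 * y) * hs

/-- the eigenvector -/
theorem NV_N (x y w : R) : NV s s' true (Nx s s' true x y w) (Ny s s' true x y w) (Nw s s' true x y w) = 
    -(1 - s ^ 2) * (s' ^ 2 + s ^ 2) * NV s s' true x y w := by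
  simp only [Nx, Ny, Nw, NV, if_true]
  linear_combination (-3 * w - 2 * s ^ 1 * s' ^ 1 * w + 8 * s ^ 2 * w - 1 * s ^ 2 * s' ^ 2 * w + 3 * s ^ 3 * s' ^ 1 * w - 5 * s ^ 4 * w + 1 * s ^ 4 * s' ^ 2 * w - 1 * s ^ 5 * s' ^ 1 * w + 1 * s ^ 1 * x + 1 * s ^ 2 * s' ^ 1 * x - 2 * s ^ 3 * x - 2 * s ^ 4 * s' ^ 1 * x + 1 * s ^ 5 * x + 1 * s ^ 6 * s' ^ 1 * x - 1 * s ^ 3 * y - 1 * s ^ 4 * s' ^ 1 * y + 1 * s ^ 5 * y + 1 * s ^ 6 * s' ^ 1 * y) * hs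

theorem qV_succ (b : Bool) (ε : ℕ → Bool) (m : ℕ) (h : ε m = true) : 
    qV s s' true b ε (m + 1) + (s + s') = 
      -(1 - s ^ 2) * (s' ^ 2 + s ^ 2) * (qV s s' true b ε m + (s + s')) := by
  rw [qV_sub hs, qV_sub hs, xx_succ hs, yy_succ hs, ww_succ hs, h, NV_N hs]

/-! ### the base -/

omit hs in
/-- the partial closure of `σ ^ {± 2}` -/
def lam (s s' : R) (b : Bool) : R := if b then -s - s ^ 5 else -s' - s' ^ 5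

omit hs in
/-- the closures of `σ ^ 3`, `σ ^ {-1}` -/
def gam (s : R) (b : Bool) : R := if b then s ^ 2 + s ^ 6 - s ^ 8 else 1

theorem pcl_base (b : Bool) : pcl s s' 1 (opA s s' 0 b) = lam s s' b • (1 : E R) := by
  have h1 := pcl_e1 hs 0 (Loc.one _) (Loc.one _)
  simp only [mul_one, one_mul, Nat.zero_add] at h1
  unfold opA
  rw [map_add, map_smul, map_smul, pcl_one, h1, smul_smul, ← add_smul]
  congr 1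
  cases b <;> simp only [cA, lam, if_true, if_false, Bool.false_eq_true]
  · linear_combination (-1 * s' ^ 1) * hs
  · linear_combination (-1 * s ^ 1) * hs

theorem tau_base (b : Bool) : tau s s' 1 (opA s s' 0 b) = gam s b * (-(s + s')) := by
  have h0 : tau s s' 1 (opA s s' 0 b) = tau s s' 0 (pcl s s' 1 (opA s s' 0 b * sg s s' 0)) := tau_succ 0 _
  have h2 := opA_sg hs 0 (!b)
  rw [Bool.not_not] at h2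
  have h1 := pcl_e1 hs 0 (Loc.one _) (Loc.one _)
  simp only [mul_one, one_mul, Nat.zero_add] at h1
  rw [h0, h2, map_add, map_smul, map_smul, pcl_one, h1, smul_smul, ← add_smul, map_smul, tau_one hs, smul_eq_mul]
  congr 1
  cases b <;> simp only [cV, gam, Bool.not_true, Bool.not_false, if_true, if_false, Bool.false_eq_true]
  · linear_combination (1) * hs
  · linear_combination (1 * s ^ 2) * hs

theorem q1_zero (b : Bool) (ε : ℕ → Bool) : q1 s s' b ε 0 = lam s s' b * (gam s (!b) * (-(s + s'))) := by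
  unfold q1
  show tau s s' 1 (pcl s s' 1 (opA s s' 0 b) * opA s s' 0 (!b)) = _
  rw [pcl_base hs, smul_mul_assoc, one_mul, map_smul, tau_base hs, smul_eq_mul]

theorem q2_zero (b : Bool) (ε : ℕ → Bool) : q2 s s' b ε 0 = lam s s' (!b) * (gam s b * (-(s + s'))) := by
  unfold q2
  show tau s s' 1 (opA s s' 0 b * pcl s s' 1 (opA s s' 0 (!b))) = _
  rw [pcl_base hs, mul_smul_comm, mul_one, map_smul, tau_base hs, smul_eq_mul]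

theorem q3_zero (b : Bool) (ε : ℕ → Bool) : q3 s s' b ε 0 = lam s s' b * lam s s' (!b) * (-(s + s')) := by
  unfold q3
  show tau s s' 1 (pcl s s' 1 (opA s s' 0 b) * pcl s s' 1 (opA s s' 0 (!b))) = _
  rw [pcl_base hs, pcl_base hs, mul_smul_comm, mul_one, smul_smul, map_smul, tau_one hs, smul_eq_mul]
  ring

/-- the closure of `[σ_1 ^ 2, σ_0 ^ 2] σ_1 σ_0` is the trefoil -/
theorem qV_zero (ε : ℕ → Bool) : qV s s' true true ε 0 + (s + s') = 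
    -(s + s') * (-(1 - s ^ 2) * (1 - s ^ 6)) := by
  rw [qV_eq hs, q1_zero hs, q2_zero hs, q3_zero hs]
  simp only [k2, k3, lam, gam, Bool.not_true, if_true, if_false, Bool.false_eq_true]
  linear_combination (1 * s' ^ 3 + 1 * s ^ 1 * s' ^ 2 + 1 * s ^ 1 * s' ^ 4 + 1 * s ^ 1 * s' ^ 6 + 2 * s ^ 2 * s' ^ 5 - 1 * s ^ 3 * s' ^ 2 + 1 * s ^ 4 * s' ^ 1 - 1 * s ^ 4 * s' ^ 3 - 1 * s ^ 4 * s' ^ 5 + 1 * s ^ 5 + 1 * s ^ 5 * s' ^ 2 - 1 * s ^ 5 * s' ^ 4 + 1 * s ^ 5 * s' ^ 6 + 1 * s ^ 6 * s' ^ 1 + 1 * s ^ 6 * s' ^ 5 - 1 * s ^ 7 * s' ^ 2 - 1 * s ^ 7 * s' ^ 6 - 1 * s ^ 8 * s' ^ 1 - 1 * s ^ 8 * s' ^ 5) * hs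

/-- **The closed formula** -/
theorem qV_closed (m : ℕ) : qV s s' true true (fun _ => true) m = 
    -(s + s') * (1 - (1 - s ^ 2) * (1 - s ^ 6) * (-(1 - s ^ 2) * (s' ^ 2 + s ^ 2)) ^ m) := by
  have h : qV s s' true true (fun _ => true) m + (s + s') = 
      -(s + s') * (-(1 - s ^ 2) * (1 - s ^ 6)) * (-(1 - s ^ 2) * (s' ^ 2 + s ^ 2)) ^ m := by
    induction m with
    | zero => rw [qV_zero hs, pow_zero, mul_one]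
    | succ m ih => rw [qV_succ hs true _ m rfl, ih, pow_succ]; ring
  linear_combination h

end

end

end Pool.Agent.U963.LN
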