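import Pool.Agent.U963.LN.Val

/-!
# The Temperley-Lieb algebra in the state model; partial closures are scalars
-/

set_option autoImplicit false

namespace Pool.Agent.U963.LN

open Pool.Agent.H838R2.Jones

section
variable {R : Type} [CommRing R] (s s' : R)

/-- the operators on the strands `0, …, m - 1` -/
def LocS (m : ℕ) : Submodule R (E R) where
  carrier := {X | Loc s s' m X}
  add_mem' hX hY := hX.add hY
  zero_mem' := fun j _ => by simp
  smul_mem' c _ hX := hX.smul c

/-- the algebra generated by the `e i`, `i + 1 < k`, in normal form -/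
def TLa : ℕ → Submodule R (E R)
  | 0 => 1
  | 1 => 1
  | k + 2 => TLa (k + 1) ⊔ TLa (k + 1) * Submodule.span R {e s s' k} * TLa (k + 1)

variable {s s'}

theorem TLa_mono (k : ℕ) : TLa s s' k ≤ TLa s s' (k + 1) := by
  cases k with
  | zero => exact le_rfl
  | succ k => exact le_sup_left

theorem one_le_TLa (k : ℕ) : 1 ≤ TLa s s' k := by
  induction k with
  | zero => exact le_rfl
  | succ k ih => exact ih.trans (TLa_mono k)

theorem mul_le_LocS {m : ℕ} {M N : Submodule R (E R)} (hM : M ≤ LocS s s' m) (hN : N ≤ LocS s s' m) : 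
    M * N ≤ LocS s s' m := 
  Submodule.mul_le.2 fun _ hx _ hy => Loc.mul (hM hx) (hN hy)

theorem LocS_mono {m n : ℕ} (h : m ≤ n) : LocS s s' m ≤ (LocS s s' n : Submodule R (E R)) := 
  fun _ hX => Loc.mono hX h

theorem TLa_le (k : ℕ) : TLa s s' k ≤ LocS s s' k := by
  have h1 : ∀ m, (1 : Submodule R (E R)) ≤ LocS s s' m := by
    intro m
    rw [Submodule.one_eq_span, Submodule.span_le, Set.singleton_subset_iff]
    exact Loc.one m
  induction k with
  | zero => exact h1 0
  | succ k ih =>
    cases k with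
    | zero => exact h1 1
    | succ k =>
      have h2 : TLa s s' (k + 1) ≤ LocS s s' (k + 2) := ih.trans (LocS_mono (by omega))
      have h3 : Submodule.span R {e s s' k} ≤ LocS s s' (k + 2) := by
        rw [Submodule.span_le, Set.singleton_subset_iff]
        exact loc_e (by omega)
      exact sup_le h2 (mul_le_LocS (mul_le_LocS h2 h3) h2)

theorem loc_of_mem {k : ℕ} {X : E R} (h : X ∈ TLa s s' k) : Loc s s' k X := TLa_le k h

theorem comm_e {k m : ℕ} (h : k ≤ m) {X : E R} (hX : Loc s s' k X) : X * e s s' m = e s s' m * X := by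
  unfold e
  rw [← mul_assoc, (hX m h).2, mul_assoc, (hX m h).1, mul_assoc]

theorem span_comm {k m : ℕ} (h : k ≤ m) : 
    TLa s s' k * Submodule.span R {e s s' m} = Submodule.span R {e s s' m} * TLa s s' k := by
  apply Submodule.mul_comm_of_commute
  intro x hx y hy
  obtain ⟨c, rfl⟩ := Submodule.mem_span_singleton.1 hy
  exact (show Commute x (e s s' m) from comm_e h (loc_of_mem hx)).smul_right c

theorem EE (k : ℕ) : Submodule.span R {e s s' k} * Submodule.span R {e s s' k} ≤ 
    Submodule.span R {(e s s' k : E R)} := by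
  rw [Submodule.span_mul_span, Set.singleton_mul_singleton, ee, Submodule.span_le, Set.singleton_subset_iff]
  exact Submodule.smul_mem _ _ (Submodule.mem_span_singleton_self _)

section
variable (hs : s * s' = 1)
include hs

theorem eee (k : ℕ) : e s s' (k + 1) * e s s' k * e s s' (k + 1) = (e s s' (k + 1) : E R) := by
  unfold e
  rw [show Dl s (k + 1) * Bl s' (k + 1) * (Dl s k * Bl s' k) * (Dl s (k + 1) * Bl s' (k + 1)) = 
    Dl s (k + 1) * (Bl s' (k + 1) * Dl s k) * (Bl s' k * Dl s (k + 1)) * Bl s' (k + 1) by 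
      simp only [mul_assoc], mA hs, mB hs, mul_one, mul_one]

theorem EFE (k : ℕ) : Submodule.span R {e s s' (k + 1)} * Submodule.span R {e s s' k} * 
    Submodule.span R {e s s' (k + 1)} = Submodule.span R {(e s s' (k + 1) : E R)} := by
  rw [Submodule.span_mul_span, Set.singleton_mul_singleton, Submodule.span_mul_span, 
    Set.singleton_mul_singleton, eee hs]

theorem EaE (k : ℕ) : Submodule.span R {e s s' k} * TLa s s' (k + 1) * Submodule.span R {e s s' k} ≤ 
    TLa s s' (k + 1) * Submodule.span R {(e s s' k : E R)} * TLa s s' (k + 1) := by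
  cases k with
  | zero =>
    show Submodule.span R {e s s' 0} * 1 * Submodule.span R {e s s' 0} ≤ 
      1 * Submodule.span R {(e s s' 0 : E R)} * 1
    rw [mul_one, one_mul, mul_one]
    exact EE 0
  | succ k =>
    have h1 := one_le_TLa (s := s) (s' := s') (R := R) (k + 2)
    have h2 := TLa_mono (s := s) (s' := s') (R := R) (k + 1)
    have hc := span_comm (s := s) (s' := s') (R := R) (show k + 1 ≤ k + 1 from le_rfl)
    set a := TLa s s' (k + 2) with ha
    set b := TLa s s' (k + 1) with hb
    have hab : a = b ⊔ b * Submodule.span R {e s s' k} * b := rfl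
    set E1 := Submodule.span R {(e s s' (k + 1) : E R)} with hE
    set F1 := Submodule.span R {(e s s' k : E R)} with hF
    have hEFE : E1 * F1 * E1 = E1 := EFE hs k
    have hEE : E1 * E1 ≤ E1 := EE (k + 1)
    show E1 * a * E1 ≤ a * E1 * a
    have e1 : E1 * b * E1 = b * (E1 * E1) := by rw [← hc, mul_assoc]
    have e2 : E1 * (b * F1 * b) * E1 = b * E1 * b := by
      calc E1 * (b * F1 * b) * E1 = (E1 * b) * F1 * (b * E1) := by simp only [mul_assoc]
        _ = (b * E1) * F1 * (E1 * b) := by rw [← hc]
        _ = b * (E1 * F1 * E1) * b := by simp only [mul_assoc]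
        _ = b * E1 * b := by rw [hEFE]
    have e3 : b * (E1 * E1) ≤ a * E1 * a := by
      calc b * (E1 * E1) ≤ a * E1 := mul_le_mul' h2 hEE
        _ = a * E1 * 1 := (mul_one _).symm
        _ ≤ a * E1 * a := mul_le_mul' le_rfl h1
    have e4 : b * E1 * b ≤ a * E1 * a := mul_le_mul' (mul_le_mul' h2 le_rfl) h2
    conv_lhs => rw [hab]
    rw [Submodule.mul_sup, Submodule.sup_mul, e1, e2]
    exact sup_le e3 e4

theorem TLa_mul (k : ℕ) : TLa s s' k * TLa s s' k ≤ TLa s s' k := by
  induction k with
  | zero => exact (one_mul (1 : Submodule R (E R))).le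
  | succ k ih =>
    cases k with
    | zero => exact (one_mul (1 : Submodule R (E R))).le
    | succ k =>
      have hEaE := EaE hs k
      show (TLa s s' (k + 1) ⊔ TLa s s' (k + 1) * Submodule.span R {e s s' k} * TLa s s' (k + 1)) * 
        (TLa s s' (k + 1) ⊔ TLa s s' (k + 1) * Submodule.span R {e s s' k} * TLa s s' (k + 1)) ≤ 
        (TLa s s' (k + 1) ⊔ TLa s s' (k + 1) * Submodule.span R {e s s' k} * TLa s s' (k + 1))
      set a := TLa s s' (k + 1) with ha
      set E1 := Submodule.span R {(e s s' k : E R)} with hE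
      rw [Submodule.mul_sup, Submodule.sup_mul, Submodule.sup_mul]
      have c1 : a * E1 * a * a ≤ a * E1 * a := by
        rw [mul_assoc (a * E1)]
        exact mul_le_mul' le_rfl ih
      have c2 : a * (a * E1 * a) ≤ a * E1 * a := by
        rw [← mul_assoc, ← mul_assoc]
        exact mul_le_mul' (mul_le_mul' ih le_rfl) le_rfl
      have c3 : a * E1 * a * (a * E1 * a) ≤ a * E1 * a := by
        calc a * E1 * a * (a * E1 * a) = a * (E1 * (a * a) * E1) * a := by simp only [mul_assoc]
          _ ≤ a * (E1 * a * E1) * a := 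
            mul_le_mul' (mul_le_mul' le_rfl (mul_le_mul' 
              (mul_le_mul' le_rfl ih) le_rfl)) le_rfl
          _ ≤ a * (a * E1 * a) * a := 
            mul_le_mul' (mul_le_mul' le_rfl hEaE) le_rfl
          _ = (a * a) * E1 * (a * a) := by simp only [mul_assoc]
          _ ≤ a * E1 * a := mul_le_mul' (mul_le_mul' ih le_rfl) ih
      exact sup_le (sup_le (ih.trans le_sup_left) (c1.trans le_sup_right)) 
        (sup_le (c2.trans le_sup_right) (c3.trans le_sup_right))

theorem mul_mem {k : ℕ} {X Y : E R} (hX : X ∈ TLa s s' k) (hY : Y ∈ TLa s s' k) : X * Y ∈ TLa s s' k := 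
  TLa_mul hs k (Submodule.mul_mem_mul hX hY)

omit hs in
theorem one_mem (k : ℕ) : (1 : E R) ∈ TLa s s' k := one_le_TLa k (Submodule.mem_one.2 ⟨1, map_one _⟩)

omit hs in
theorem mem_mono {k m : ℕ} (h : k ≤ m) {X : E R} (hX : X ∈ TLa s s' k) : X ∈ TLa s s' m := by
  induction m, h using Nat.le_induction with
  | base => exact hX
  | succ m _ ih => exact TLa_mono m ih

omit hs in
theorem e_mem {i k : ℕ} (h : i + 2 ≤ k) : (e s s' i : E R) ∈ TLa s s' k := by
  refine mem_mono h ?_
  have h1 : (e s s' i : E R) ∈ TLa s s' (i + 1) * Submodule.span R {e s s' i} * TLa s s' (i + 1) := by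
    have := Submodule.mul_mem_mul (Submodule.mul_mem_mul (one_mem (s := s) (s' := s') (i + 1)) 
      (Submodule.mem_span_singleton_self (R := R) (e s s' i))) (one_mem (s := s) (s' := s') (i + 1))
    rwa [one_mul, mul_one] at this
  exact Submodule.mem_sup_right h1

theorem opL_mem {k : ℕ} (w : List (Bool × ℕ)) (hw : ∀ l ∈ w, l.2 + 1 < k) : opL s s' w ∈ TLa s s' k := by
  induction w with
  | nil => exact one_mem k
  | cons l w ih =>
    have e1 : opL s s' (l :: w) = opl s s' l * opL s s' w := by simp [opL]
    rw [e1]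
    refine mul_mem hs ?_ (ih fun l hl => hw l (List.mem_cons_of_mem _ hl))
    have hl := hw l List.mem_cons_self
    unfold opl sg sgi
    split_ifs
    · exact add_mem (Submodule.smul_mem _ _ (one_mem k)) (Submodule.smul_mem _ _ (e_mem (by omega)))
    · exact add_mem (Submodule.smul_mem _ _ (one_mem k)) (Submodule.smul_mem _ _ (e_mem (by omega)))

/-- partial closures -/
theorem pcl_mem {k : ℕ} {X : E R} (hX : X ∈ TLa s s' (k + 2)) : pcl s s' (k + 1) X ∈ TLa s s' (k + 1) := by
  have h : TLa s s' (k + 2) ≤ (TLa s s' (k + 1)).comap (pcl s s' (k + 1)) := by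
    refine sup_le ?_ ?_
    · intro Y hY
      rw [Submodule.mem_comap, pcl_loc (loc_of_mem hY)]
      exact Submodule.smul_mem _ _ hY
    · rw [Submodule.mul_le]
      intro m hm z' hz'
      rw [Submodule.mem_comap]
      refine Submodule.mul_induction_on hm (fun z hz c hc => ?_) (fun x y hx hy => ?_)
      · obtain ⟨r, rfl⟩ := Submodule.mem_span_singleton.1 hc
        rw [mul_smul_comm, smul_mul_assoc, map_smul, pcl_e1 hs k (loc_of_mem hz) (loc_of_mem hz')]
        exact Submodule.smul_mem _ _ (mul_mem hs hz hz')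
      · rw [add_mul, map_add]
        exact add_mem hx hy
  exact h hX

/-- closing all strands but the first -/
def Pc : ℕ → (E R →ₗ[R] E R)
  | 0 => LinearMap.id
  | 1 => LinearMap.id
  | k + 2 => (Pc (k + 1)).comp (pcl s s' (k + 1))

end

end

end Pool.Agent.U963.LN
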