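import Pool.Agent.U963.LN.Rec3

/-!
# The recursion in triangular form
-/

set_option autoImplicit false

namespace Pool.Agent.U963.LN

open Pool.Agent.H838R2.Jones

section
variable {R : Type} [CommRing R] (s s' : R)

/-- the sum of the first two coordinates -/
def pp (b : Bool) (ε : ℕ → Bool) (m : ℕ) : R := xx s s' b ε m + yy s s' b ε m

/-- the value of the closure minus that of the circle -/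
def ff (b : Bool) (ε : ℕ → Bool) (m : ℕ) : R := 
  NV s s' true (xx s s' b ε m) (yy s s' b ε m) (ww s s' b ε m)

/-- entries of the `2 × 2` block -/
def qp (b : Bool) (p w : R) : R := 
  if b then (-s' ^ 2 + s ^ 2 + s ^ 4) * p + (-s' ^ 3 + 2 * s' - 2 * s - s ^ 3) * w
  else (s' ^ 4 - s' ^ 2 + s ^ 2) * p + (1 - s ^ 2 + s ^ 4) * (-3 * s' ^ 3 + s') * w

/-- entries of the `2 × 2` block -/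
def qw (b : Bool) (p w : R) : R := 
  if b then (1 + s ^ 2) ^ 2 * s * p + (-s' ^ 2 + 1 - 3 * s ^ 2 - s ^ 4) * w
  else (1 + s ^ 2) ^ 2 * (1 - s ^ 2 + s ^ 4) * s' ^ 5 * p + (-2 * s' ^ 4 - s' ^ 2 + 1 - 3 * s ^ 2 + s ^ 4) * w

/-- the entries outside of the diagonal blocks -/
def rr (p w : R) : R := (1 - s ^ 2 + s ^ 4) * ((1 + s ^ 2) * s' ^ 5 * p - 2 * s' ^ 4 * w)

/-- the common factor -/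
def gg : R := (1 - s ^ 2) ^ 2 * (1 + s ^ 2) * (1 + s ^ 2 + s ^ 4) * s'

variable {s s'}

section
variable (hs : s * s' = 1)
include hs

theorem pp_succ (b : Bool) (ε : ℕ → Bool) (m : ℕ) : pp s s' b ε (m + 1) = 
    (1 - s ^ 2) ^ 2 * qp s s' (ε m) (pp s s' b ε m) (ww s s' b ε m) := by
  unfold pp
  rw [xx_succ hs, yy_succ hs]
  generalize xx s s' b ε m = x
  generalize yy s s' b ε m = y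
  generalize ww s s' b ε m = w
  cases ε m <;> simp only [Nx, Ny, qp, if_true, if_false, Bool.false_eq_true]
  · linear_combination (-9 * s' ^ 1 * w + 15 * s ^ 1 * w - 9 * s ^ 1 * s' ^ 2 * w + 12 * s ^ 2 * s' ^ 1 * w - 13 * s ^ 3 * w + 12 * s ^ 3 * s' ^ 2 * w - 9 * s ^ 4 * s' ^ 1 * w + 6 * s ^ 5 * w - 9 * s ^ 5 * s' ^ 2 * w + 3 * s ^ 6 * s' ^ 1 * w - 1 * s ^ 7 * w + 3 * s ^ 7 * s' ^ 2 * w - 3 * x + 2 * s' ^ 2 * x - 3 * s ^ 1 * s' ^ 1 * x + 2 * s ^ 1 * s' ^ 3 * x + 1 * s ^ 2 * x - 1 * s ^ 2 * s' ^ 2 * x + 1 * s ^ 3 * s' ^ 1 * x - 1 * s ^ 3 * s' ^ 3 * x - 3 * y + 2 * s' ^ 2 * y - 3 * s ^ 1 * s' ^ 1 * y + 2 * s ^ 1 * s' ^ 3 * y + 1 * s ^ 2 * y - 1 * s ^ 2 * s' ^ 2 * y + 1 * s ^ 3 * s' ^ 1 * y - 1 * s ^ 3 * s' ^ 3 * y) * hs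
  · linear_combination (-2 * s' ^ 1 * w + 5 * s ^ 1 * w - 2 * s ^ 1 * s' ^ 2 * w + 1 * s ^ 2 * s' ^ 1 * w - 2 * s ^ 3 * w + 1 * s ^ 3 * s' ^ 2 * w - 2 * x - 2 * s ^ 1 * s' ^ 1 * x + 1 * s ^ 2 * x + 1 * s ^ 3 * s' ^ 1 * x - 2 * y - 2 * s ^ 1 * s' ^ 1 * y + 1 * s ^ 2 * y + 1 * s ^ 3 * s' ^ 1 * y) * hs

theorem ww_succ2 (b : Bool) (ε : ℕ → Bool) (m : ℕ) : ww s s' b ε (m + 1) = 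
    (1 - s ^ 2) ^ 2 * qw s s' (ε m) (pp s s' b ε m) (ww s s' b ε m) := by
  unfold pp
  rw [ww_succ hs]
  generalize xx s s' b ε m = x
  generalize yy s s' b ε m = y
  generalize ww s s' b ε m = w
  cases ε m <;> simp only [Nw, qw, if_true, if_false, Bool.false_eq_true]
  · linear_combination (-4 * s' ^ 2 * w - 4 * s ^ 1 * s' ^ 3 * w + 1 * s ^ 2 * w + 2 * s ^ 2 * s' ^ 2 * w + 1 * s ^ 3 * s' ^ 1 * w + 2 * s ^ 3 * s' ^ 3 * w + 1 * s' ^ 1 * x + 1 * s' ^ 3 * x - 2 * s ^ 1 * x + 1 * s ^ 1 * s' ^ 2 * x + 1 * s ^ 1 * s' ^ 4 * x - 2 * s ^ 2 * s' ^ 1 * x + 1 * s ^ 2 * s' ^ 3 * x + 1 * s ^ 3 * x - 2 * s ^ 3 * s' ^ 2 * x + 1 * s ^ 3 * s' ^ 4 * x + 1 * s ^ 4 * s' ^ 1 * x - 2 * s ^ 4 * s' ^ 3 * x + 1 * s ^ 5 * x + 1 * s ^ 5 * s' ^ 2 * x - 2 * s ^ 5 * s' ^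 4 * x + 1 * s ^ 6 * s' ^ 1 * x + 1 * s ^ 6 * s' ^ 3 * x - 1 * s ^ 7 * x + 1 * s ^ 7 * s' ^ 2 * x + 1 * s ^ 7 * s' ^ 4 * x - 1 * s ^ 8 * s' ^ 1 * x + 1 * s ^ 8 * s' ^ 3 * x - 1 * s ^ 9 * s' ^ 2 * x + 1 * s ^ 9 * s' ^ 4 * x - 1 * s ^ 10 * s' ^ 3 * x - 1 * s ^ 11 * s' ^ 4 * x + 1 * s' ^ 1 * y + 1 * s' ^ 3 * y - 2 * s ^ 1 * y + 1 * s ^ 1 * s' ^ 2 * y + 1 * s ^ 1 * s' ^ 4 * y - 2 * s ^ 2 * s' ^ 1 * y + 1 * s ^ 2 * s' ^ 3 * y + 1 * s ^ 3 * y - 2 * s ^ 3 * s' ^ 2 * y + 1 * s ^ 3 * s' ^ 4 * y + 1 * s ^ 4 * s' ^ 1 * y - 2 * s ^ 4 * s' ^ 3 * y + 1 * s ^ 5 * y + 1 * s ^ 5 * s' ^ 2 * y - 2 * s ^ 5 * s' ^ 4 * y + 1 * s ^ 6 * s' ^ 1 * y + 1 * s ^ 6 * s' ^ 3 * y - 1 * s ^ 7 * y + 1 * s ^ 7 * s' ^ 2 * y + 1 * s ^ 7 * s' ^ 4 * y - 1 * s ^ 8 * s' ^ 1 * y + 1 *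 s ^ 8 * s' ^ 3 * y - 1 * s ^ 9 * s' ^ 2 * y + 1 * s ^ 9 * s' ^ 4 * y - 1 * s ^ 10 * s' ^ 3 * y - 1 * s ^ 11 * s' ^ 4 * y) * hs
  · linear_combination (-2 * w - 2 * s ^ 1 * s' ^ 1 * w + 1 * s ^ 2 * w + 1 * s ^ 3 * s' ^ 1 * w) * hs

theorem ff_succ (b : Bool) (ε : ℕ → Bool) (m : ℕ) : ff s s' b ε (m + 1) = 
    if ε m then -s' ^ 2 * (1 - s ^ 2) * (1 + s ^ 4) * ff s s' b ε m
    else (1 - s ^ 2) * (1 + s ^ 4) * ff s s' b ε m + 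
      (1 - s ^ 2) ^ 3 * (1 + s ^ 4) * rr s s' (pp s s' b ε m) (ww s s' b ε m) := by
  unfold pp ff rr
  rw [xx_succ hs, yy_succ hs, ww_succ hs]
  generalize xx s s' b ε m = x
  generalize yy s s' b ε m = y
  generalize ww s s' b ε m = w
  cases ε m <;> simp only [Nx, Ny, Nw, NV, if_true, if_false, Bool.false_eq_true]
  · linear_combination (-3 * s' ^ 2 * w + 4 * s ^ 1 * s' ^ 1 * w - 4 * s ^ 1 * s' ^ 3 * w - 2 * s ^ 2 * w + 10 * s ^ 2 * s' ^ 2 * w - 16 * s ^ 3 * s' ^ 1 * w + 14 * s ^ 3 * s' ^ 3 * w + 12 * s ^ 4 * w - 19 * s ^ 4 * s' ^ 2 * w + 22 * s ^ 5 * s' ^ 1 * w - 22 * s ^ 5 * s' ^ 3 * w - 16 * s ^ 6 * w + 22 * s ^ 6 * s' ^ 2 * w - 16 * s ^ 7 * s' ^ 1 * w + 22 * s ^ 7 * s' ^ 3 * w + 8 * s ^ 8 * w - 16 * s ^ 8 * s' ^ 2 * w + 8 * s ^ 9 * s' ^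 1 * w - 16 * s ^ 9 * s' ^ 3 * w - 2 * s ^ 10 * w + 8 * s ^ 10 * s' ^ 2 * w - 2 * s ^ 11 * s' ^ 1 * w + 8 * s ^ 11 * s' ^ 3 * w - 2 * s ^ 12 * s' ^ 2 * w - 2 * s ^ 13 * s' ^ 3 * w + 1 * s' ^ 1 * x + 1 * s' ^ 3 * x - 1 * s ^ 1 * x + 1 * s ^ 1 * s' ^ 4 * x - 3 * s ^ 2 * s' ^ 1 * x - 2 * s ^ 2 * s' ^ 3 * x + 2 * s ^ 3 * x + 1 * s ^ 3 * s' ^ 2 * x - 3 * s ^ 3 * s' ^ 4 * x + 3 * s ^ 4 * s' ^ 1 * x + 2 * s ^ 4 * s' ^ 3 * x - 3 * s ^ 5 * x + 3 * s ^ 5 * s' ^ 4 * x - 3 * s ^ 6 * s' ^ 1 * x + 4 * s ^ 7 * x - 3 * s ^ 7 * s' ^ 2 * x + 4 * s ^ 8 * s' ^ 1 * x - 3 * s ^ 8 * s' ^ 3 * x - 3 * s ^ 9 * x + 4 * s ^ 9 * s' ^ 2 * x - 3 * s ^ 9 * s' ^ 4 * x - 3 * s ^ 10 * s' ^ 1 * x + 4 * s ^ 10 * s' ^ 3 * x + 1 * s ^ 11 * x - 3 * s ^ 11 * s' ^ 2 * x + 4 * s ^ 11 *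 s' ^ 4 * x + 1 * s ^ 12 * s' ^ 1 * x - 3 * s ^ 12 * s' ^ 3 * x + 1 * s ^ 13 * s' ^ 2 * x - 3 * s ^ 13 * s' ^ 4 * x + 1 * s ^ 14 * s' ^ 3 * x + 1 * s ^ 15 * s' ^ 4 * x + 1 * s' ^ 1 * y + 1 * s' ^ 3 * y - 1 * s ^ 1 * y + 1 * s ^ 1 * s' ^ 4 * y - 3 * s ^ 2 * s' ^ 1 * y - 2 * s ^ 2 * s' ^ 3 * y + 2 * s ^ 3 * y + 1 * s ^ 3 * s' ^ 2 * y - 3 * s ^ 3 * s' ^ 4 * y + 3 * s ^ 4 * s' ^ 1 * y + 2 * s ^ 4 * s' ^ 3 * y - 3 * s ^ 5 * y + 3 * s ^ 5 * s' ^ 4 * y - 3 * s ^ 6 * s' ^ 1 * y + 4 * s ^ 7 * y - 3 * s ^ 7 * s' ^ 2 * y + 4 * s ^ 8 * s' ^ 1 * y - 3 * s ^ 8 * s' ^ 3 * y - 3 * s ^ 9 * y + 4 * s ^ 9 * s' ^ 2 * y - 3 * s ^ 9 * s' ^ 4 * y - 3 * s ^ 10 * s' ^ 1 * y + 4 * s ^ 10 * s' ^ 3 * y + 1 * s ^ 11 * y - 3 * s ^ 11 * s' ^ 2 * y + 4 * s ^ 11 * s' ^ 4 * y +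 1 * s ^ 12 * s' ^ 1 * y - 3 * s ^ 12 * s' ^ 3 * y + 1 * s ^ 13 * s' ^ 2 * y - 3 * s ^ 13 * s' ^ 4 * y + 1 * s ^ 14 * s' ^ 3 * y + 1 * s ^ 15 * s' ^ 4 * y) * hs
  · linear_combination (-3 * w - 2 * s ^ 1 * s' ^ 1 * w + 9 * s ^ 2 * w - 1 * s ^ 2 * s' ^ 2 * w + 4 * s ^ 3 * s' ^ 1 * w - 8 * s ^ 4 * w + 1 * s ^ 4 * s' ^ 2 * w - 4 * s ^ 5 * s' ^ 1 * w + 3 * s ^ 6 * w + 3 * s ^ 7 * s' ^ 1 * w - 1 * s ^ 8 * w - 1 * s ^ 9 * s' ^ 1 * w + 1 * s ^ 1 * x + 1 * s ^ 2 * s' ^ 1 * x - 3 * s ^ 3 * x - 3 * s ^ 4 * s' ^ 1 * x + 4 * s ^ 5 * x + 4 * s ^ 6 * s' ^ 1 * x - 3 * s ^ 7 * x - 3 * s ^ 8 * s' ^ 1 * x + 1 * s ^ 9 * x + 1 * s ^ 10 * s' ^ 1 * x - 1 * s ^ 3 * y - 1 * s ^ 4 * s' ^ 1 * y + 2 * s ^ 5 * y + 2 * s ^ 6 * s' ^ 1 * y - 2 * s ^ 7 * y - 2 * s ^ 8 * s' ^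 1 * y + 1 * s ^ 9 * y + 1 * s ^ 10 * s' ^ 1 * y) * hs

theorem base3 (ε : ℕ → Bool) : ff s s' true ε 0 = gg s s' ∧ 
    pp s s' true ε 0 = gg s s' * ((1 - s ^ 2) * s' ^ 3) ∧ ww s s' true ε 0 = -gg s s' := by
  have a1 := q1_zero hs true ε
  have a2 := q2_zero hs true ε
  have a3 := q3_zero hs true ε
  simp only [lam, gam, Bool.not_true, if_true, if_false, Bool.false_eq_true] at a1 a2 a3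
  have hx : xx s s' true ε 0 = (-s - s ^ 5) * (1 * (-(s + s'))) - (s + s') ^ 2 := by unfold xx; rw [a1]
  have hy : yy s s' true ε 0 = (-s' - s' ^ 5) * ((s ^ 2 + s ^ 6 - s ^ 8) * (-(s + s'))) - (s + s') ^ 2 := by 
    unfold yy; rw [a2]
  have hw : ww s s' true ε 0 = (-s - s ^ 5) * (-s' - s' ^ 5) * (-(s + s')) + (s + s') * 
      (xx s s' true ε 0 + yy s s' true ε 0) + (s + s') ^ 3 := by unfold ww; rw [a3]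
  unfold ff pp gg
  rw [hw, hx, hy]
  simp only [NV, if_true]
  refine ⟨?_, ?_, ?_⟩
  · linear_combination (1 * s' ^ 1 + 1 * s' ^ 3 + 3 * s ^ 1 * s' ^ 2 + 1 * s ^ 1 * s' ^ 4 + 1 * s ^ 1 * s' ^ 6 + 1 * s ^ 2 * s' ^ 1 + 2 * s ^ 2 * s' ^ 5 - 4 * s ^ 3 * s' ^ 2 - 2 * s ^ 3 * s' ^ 6 - 2 * s ^ 4 * s' ^ 1 - 1 * s ^ 4 * s' ^ 3 - 3 * s ^ 4 * s' ^ 5 + 1 * s ^ 5 + 2 * s ^ 5 * s' ^ 2 - 1 * s ^ 5 * s' ^ 4 + 2 * s ^ 5 * s' ^ 6 + 2 * s ^ 6 * s' ^ 5 - 1 * s ^ 7 - 3 * s ^ 7 * s' ^ 2 - 3 * s ^ 7 * s' ^ 6 - 2 * s ^ 8 * s' ^ 1 - 3 * s ^ 8 * s' ^ 5 + 3 * s ^ 9 * s' ^ 2 + 3 * s ^ 9 * s' ^ 6 + 3 * s ^ 10 * s' ^ 1 + 3 * s ^ 10 * s' ^ 5 - 1 * s ^ 11 * s' ^ 2 - 1 * s ^ 11 * s' ^ 6 - 1 * s ^ 12 * s' ^ 1 - 1 * s ^ 12 * s' ^ 5) * hs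
  · linear_combination (2 * s' ^ 2 + 1 * s' ^ 4 + 3 * s ^ 1 * s' ^ 1 + 2 * s ^ 1 * s' ^ 3 + 1 * s ^ 1 * s' ^ 5 + 1 * s ^ 2 + 2 * s ^ 2 * s' ^ 2 + 1 * s ^ 2 * s' ^ 4 + 2 * s ^ 3 * s' ^ 3 + 1 * s ^ 4 * s' ^ 4 - 1 * s ^ 5 * s' ^ 1 + 1 * s ^ 5 * s' ^ 5 - 1 * s ^ 6 - 2 * s ^ 6 * s' ^ 2 - 2 * s ^ 7 * s' ^ 1 - 2 * s ^ 7 * s' ^ 3 - 1 * s ^ 7 * s' ^ 5 - 1 * s ^ 8 * s' ^ 2 - 1 * s ^ 8 * s' ^ 4 + 1 * s ^ 9 * s' ^ 1 - 1 * s ^ 9 * s' ^ 3 + 1 * s ^ 10 * s' ^ 2 + 1 * s ^ 11 * s' ^ 3) * hs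
  · linear_combination (-1 * s' ^ 1 + 1 * s' ^ 3 + 2 * s ^ 1 * s' ^ 2 + 1 * s ^ 1 * s' ^ 4 + 1 * s ^ 1 * s' ^ 6 + 2 * s ^ 2 * s' ^ 1 + 1 * s ^ 2 * s' ^ 3 + 2 * s ^ 2 * s' ^ 5 + 1 * s ^ 3 * s' ^ 4 + 1 * s ^ 5 * s' ^ 6 - 1 * s ^ 6 * s' ^ 3 + 1 * s ^ 6 * s' ^ 5 - 1 * s ^ 7 - 2 * s ^ 7 * s' ^ 2 - 1 * s ^ 7 * s' ^ 4 - 1 * s ^ 7 * s' ^ 6 - 2 * s ^ 8 * s' ^ 1 - 1 * s ^ 8 * s' ^ 3 - 2 * s ^ 8 * s' ^ 5 - 1 * s ^ 9 * s' ^ 4) * hs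

/-- the value of the closure -/
theorem ff_val (b : Bool) (ε : ℕ → Bool) (m : ℕ) : qV s s' true b ε m = -(s + s') + ff s s' b ε m := by
  have h := qV_sub hs true b ε m
  unfold ff
  linear_combination h

/-- the value of the closure, for the other sign of the last letter -/
theorem ff_val' (b : Bool) (ε : ℕ → Bool) (m : ℕ) : qV s s' false b ε m = -(s + s') + 
    (-s' ^ 2 * (1 - s ^ 2 + s ^ 4) * ff s s' b ε m + 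
      (1 - s ^ 2) ^ 2 * (1 + s ^ 4) * (-s' * pp s s' b ε m + s' ^ 2 * ww s s' b ε m)) := by
  have h := qV_sub hs false b ε m
  have h2 : NV s s' false (xx s s' b ε m) (yy s s' b ε m) (ww s s' b ε m) = 
      -s' ^ 2 * (1 - s ^ 2 + s ^ 4) * ff s s' b ε m + 
      (1 - s ^ 2) ^ 2 * (1 + s ^ 4) * (-s' * pp s s' b ε m + s' ^ 2 * ww s s' b ε m) := by
    unfold ff pp
    generalize xx s s' b ε m = x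
    generalize yy s s' b ε m = y
    generalize ww s s' b ε m = w
    simp only [NV, if_true, if_false, Bool.false_eq_true]
    linear_combination (-1 * w - 1 * s ^ 1 * s' ^ 1 * w + 2 * s ^ 2 * w + 2 * s ^ 3 * s' ^ 1 * w - 1 * s ^ 4 * w - 1 * s ^ 5 * s' ^ 1 * w - 1 * s' ^ 1 * x + 1 * s ^ 1 * x + 3 * s ^ 2 * s' ^ 1 * x - 2 * s ^ 3 * x - 4 * s ^ 4 * s' ^ 1 * x + 1 * s ^ 5 * x + 3 * s ^ 6 * s' ^ 1 * x - 1 * s ^ 8 * s' ^ 1 * x - 1 * s ^ 1 * y + 1 * s ^ 2 * s' ^ 1 * y - 2 * s ^ 4 * s' ^ 1 * y + 2 * s ^ 6 * s' ^ 1 * y - 1 * s ^ 8 * s' ^ 1 * y) * hs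
  rw [← h2]
  linear_combination h

end

end

end Pool.Agent.U963.LN
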