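import Pool.Agent.U963.LN.Clo
import Pool.Agent.U963.LN.Rec3
import Pool.Agent.H838R2.SL.T6

/-!
# The values of the state model at the closures
-/

set_option autoImplicit false

namespace Pool.Agent.U963.LN

open Pool.Agent.H838R2.Jones
open Pool.Agent.H838R2.SL (toO opD)
open Pool.Agent.H835R2.Knot (Word Piece)
open Pool.Agent.Helper454.Wh (insD insD_left insD_right insD_lt swpD swpD_left swpD_right swpD_lt swpD_gt)
open Pool.Agent.Y466.FT (draw)

section
variable {R : Type} [CommRing R] (s s' : R)

/-- the value of the state model at a closed diagram -/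
def valG (D : Word) : R := opD s s' D (fun _ => true) 1 (fun _ => false)

/-- the operator of `σ_i ^ {-1}` -/
def sgi (i : ℕ) : E R := (-s') • 1 + (-s' ^ 2) • e s s' i

/-- the operator of a letter -/
def opl (l : Bool × ℕ) : E R := if l.1 then sg s s' l.2 else sgi s s' l.2

/-- the operator of a braid word -/
def opL (w : List (Bool × ℕ)) : E R := (w.map (opl s s')).prod

theorem opL_append (w w' : List (Bool × ℕ)) : opL s s' (w ++ w') = opL s s' w * opL s s' w' := by
  simp [opL]

/-- maxima -/
def Bch : ℕ → E R
  | 0 => 1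
  | k + 1 => Bch k * Bl s' k

/-- minima -/
def Dch : ℕ → E R
  | 0 => 1
  | k + 1 => Dl s k * Dch k

theorem T_eq (k : ℕ) : ∀ X : E R, T s s' k X = (Bch s' k * X * Dch s k) 1 (fun _ => false) := by
  induction k with
  | zero => intro X; rfl
  | succ k ih =>
    intro X
    show T s s' k (pcl s s' k X) = _
    rw [ih, pcl_apply]
    simp only [Bch, Dch, mul_assoc]

theorem op_births (k : ℕ) (d : ℕ → Bool) (f : F R) : opW s s' ((births k).map toO) d f = Bch s' k f := by
  induction k generalizing f with
  | zero => rfl
  | succ k ih =>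
    rw [births, List.map_append, opW_append, ih]
    rfl

theorem op_deaths (k : ℕ) (d : ℕ → Bool) (f : F R) : opW s s' ((deaths k).map toO) d f = Dch s k f := by
  induction k generalizing d with
  | zero => rfl
  | succ k ih =>
    show Dl s k (opW s s' ((deaths k).map toO) _ f) = _
    rw [ih]
    rfl

theorem dir_births (k : ℕ) : ∀ i < k, dirW ((births k).map toO) (fun _ => true) i = true := by
  intro i hi
  have h := (births_front k).2 i hi
  rw [Pool.Agent.H838R2.SL.dir_run] at h
  exact h

/-- all strands go down -/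
theorem op_draw {k : ℕ} (w : List (Bool × ℕ)) (hw : ∀ l ∈ w, l.2 + 1 < k) : ∀ (d : ℕ → Bool), 
    (∀ i < k, d i = true) → ∀ f : F R, opW s s' ((draw w).map toO) d f = opL s s' w f := by
  induction w with
  | nil => intro d _ f; rfl
  | cons l w ih =>
    intro d hd f
    obtain ⟨b, i⟩ := l
    have hi : i + 1 < k := hw (b, i) List.mem_cons_self
    have h1 : d i = true := hd i (by omega)
    have h2 : d (i + 1) = true := hd (i + 1) hi
    have hd' : ∀ j < k, swpD i d j = true := by
      intro j hj
      rcases lt_trichotomy j i with h | h | h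
      · rw [swpD_lt d h]; exact hd j hj
      · rw [h, swpD_left]; exact h2
      · by_cases h3 : j = i + 1
        · rw [h3, swpD_right]; exact h1
        · rw [swpD_gt d (by omega)]; exact hd j hj
    have ih' := ih (fun l hl => hw l (List.mem_cons_of_mem _ hl)) (swpD i d) hd' f
    have e1 : opL s s' ((b, i) :: w) f = opl s s' (b, i) (opL s s' w f) := by
      unfold opL
      rw [List.map_cons, List.prod_cons]
      rfl
    rw [e1, ← ih']
    cases b
    · show Xl s s' (cN s s' (d i == d (i + 1))) i _ = _
      rw [h1, h2]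
      rfl
    · show Xl s s' (cP s s' (d i == d (i + 1))) i _ = _
      rw [h1, h2]
      rfl

theorem val_clo {k : ℕ} (w : List (Bool × ℕ)) (hw : ∀ l ∈ w, l.2 + 1 < k) : 
    valG s s' (clo k w) = T s s' k (opL s s' w) := by
  unfold valG clo opD
  rw [List.map_append, List.map_append, List.append_assoc, opW_append, op_births, opW_append, 
    op_draw s s' w hw _ (dir_births k), op_deaths, T_eq]
  rfl

variable {s s'}

section
variable (hs : s * s' = 1)
include hs

theorem opL_aw (i : ℕ) (b : Bool) : opL s s' (aw i b) = opA s s' i b := by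
  have e1 : opL s s' (aw i b) = opl s s' (b, i) * opl s s' (b, i) := by
    simp [opL, aw]
  rw [e1]
  cases b
  · show sgi s s' i * sgi s s' i = _
    have h := mul_two (s := s) (s' := s') i ((-s', -s' ^ 2) : R × R) ((-s', -s' ^ 2) : R × R)
    unfold sgi
    rw [h]
    unfold opA
    simp only [cA, if_false, Bool.false_eq_true]
    congr 1
    · congr 1; ring
    · congr 1; linear_combination (-s' ^ 3) * hs
  · show sg s s' i * sg s s' i = _
    have h := mul_two (s := s) (s' := s') i ((-s, -s ^ 2) : R × R) ((-s, -s ^ 2) : R × R)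
    unfold sg
    rw [h]
    unfold opA
    simp only [cA, if_true]
    congr 1
    · congr 1; ring
    · congr 1; linear_combination (-s ^ 3) * hs

theorem opL_zw (b : Bool) (ε : ℕ → Bool) (m : ℕ) : opL s s' (zw b ε m) = zz s s' b ε m := by
  induction m with
  | zero => exact opL_aw hs 0 b
  | succ m ih =>
    show opL s s' (aw (m + 1) (ε m) ++ zw b ε m ++ aw (m + 1) (!ε m)) = _
    rw [opL_append, opL_append, opL_aw hs, opL_aw hs, ih]
    rfl

omit hs in
theorem opL_tw (k : ℕ) : opL s s' (tw k) = tl s s' k := by
  induction k with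
  | zero => rfl
  | succ k ih =>
    show opL s s' ([(true, k)] ++ tw k) = _
    rw [opL_append, ih]
    congr 1

theorem val_kn (b' b : Bool) (ε : ℕ → Bool) (m : ℕ) : valG s s' (kn b' b ε m) = qV s s' b' b ε m := by
  unfold kn
  rw [val_clo, opL_append, opL_tw]
  · show tau s s' (m + 2) (opL s s' (xw b' b ε m)) = _
    unfold xw
    rw [opL_append, opL_append, opL_append, opL_aw hs, opL_aw hs, opL_zw hs, opL_zw hs]
    rfl
  · exact app_lt (xw_lt le_rfl) (tw_lt (m + 2))

omit hs in
theorem val_circle : valG s s' Pool.Agent.H835R2.Knot.circle = -(s + s') := by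
  show Bl s' 0 (Dl s 0 1) (fun _ => false) = _
  rw [circ]
  show -(s + s') * 1 = _
  ring

/-- **The exact value** -/
theorem val_closed (m : ℕ) : valG s s' (kn true true (fun _ => true) m) = 
    -(s + s') * (1 - (1 - s ^ 2) * (1 - s ^ 6) * (-(1 - s ^ 2) * (s' ^ 2 + s ^ 2)) ^ m) := by
  rw [val_kn hs, qV_closed hs]

end

end

end Pool.Agent.U963.LN
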