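import Pool.Agent.U963.JN.Vas

/-!
# Iterated commutators of squares of generators, on any number of strands
-/

set_option autoImplicit false

namespace Pool.Agent.U963.LN

open Pool.Agent.Y463.SK (invL permL permL_append permL_inv)
open Pool.Agent.U963.JN (com Lev Lev_pure Lev_comW at_ at_append at_inv invL_append invL_invL permL_invL)
open Pool.Agent.Y466.FT (RS ES Iv Tr Dg cphi ext phi cl cl_eq cl_loc draw dg_phi iv_phi run_n plug)
open Pool.Agent.H835R2.Knot

/-- the word of `σ_i ^ 2` (`b = true`) or `σ_i ^ {-2}` -/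
def aw (i : ℕ) (b : Bool) : List (Bool × ℕ) := [(b, i), (b, i)]

/-- `z_0 = σ_0 ^ {± 2}`, `z_{m+1} = a_{m+1} z_m a_{m+1} ^ {-1}` with `a_{m+1} = σ_{m+1} ^ {± 2}` -/
def zw (b : Bool) (ε : ℕ → Bool) : ℕ → List (Bool × ℕ)
  | 0 => aw 0 b
  | m + 1 => aw (m + 1) (ε m) ++ zw b ε m ++ aw (m + 1) (!ε m)

/-- the commutator of `σ_{m+1} ^ {± 2}` and `z_m` -/
def xw (b' b : Bool) (ε : ℕ → Bool) (m : ℕ) : List (Bool × ℕ) := 
  aw (m + 1) b' ++ zw b ε m ++ aw (m + 1) (!b') ++ zw (!b) ε m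

theorem invL_aw (i : ℕ) (b : Bool) : invL (aw i b) = aw i (!b) := rfl

theorem invL_zw (b : Bool) (ε : ℕ → Bool) (m : ℕ) : invL (zw b ε m) = zw (!b) ε m := by
  induction m with
  | zero => exact invL_aw 0 b
  | succ m ih =>
    show invL (aw (m + 1) (ε m) ++ zw b ε m ++ aw (m + 1) (!ε m)) = _
    rw [invL_append, invL_append, ih, invL_aw, invL_aw, Bool.not_not]
    simp only [zw, List.append_assoc]

theorem xw_eq (b' b : Bool) (ε : ℕ → Bool) (m : ℕ) : xw b' b ε m = com (aw (m + 1) b') (zw b ε m) := by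
  unfold xw com
  rw [invL_zw, invL_aw]

theorem aw_lt {i m : ℕ} (h : i + 1 < m) (b : Bool) : ∀ l ∈ aw i b, l.2 + 1 < m := by
  intro l hl
  simp only [aw, List.mem_cons, List.not_mem_nil, or_false, or_self] at hl
  subst hl
  exact h

theorem app_lt {m : ℕ} {x y : List (Bool × ℕ)} (hx : ∀ l ∈ x, l.2 + 1 < m) (hy : ∀ l ∈ y, l.2 + 1 < m) : 
    ∀ l ∈ x ++ y, l.2 + 1 < m := by
  intro l hl
  rcases List.mem_append.1 hl with h | h
  · exact hx l h
  · exact hy l h

theorem zw_lt (b : Bool) (ε : ℕ → Bool) (m : ℕ) : ∀ l ∈ zw b ε m, l.2 + 1 < m + 2 := by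
  induction m with
  | zero => exact aw_lt (by omega) b
  | succ m ih =>
    exact app_lt (app_lt (aw_lt (by omega) _) (fun l hl => (ih l hl).trans (by omega))) (aw_lt (by omega) _)

theorem zw_lt' {b : Bool} {ε : ℕ → Bool} {m n : ℕ} (h : m + 2 ≤ n) : ∀ l ∈ zw b ε m, l.2 + 1 < n := 
  fun l hl => (zw_lt b ε m l hl).trans_le h

theorem xw_lt {b' b : Bool} {ε : ℕ → Bool} {m n : ℕ} (h : m + 3 ≤ n) : ∀ l ∈ xw b' b ε m, l.2 + 1 < n := 
  app_lt (app_lt (app_lt (aw_lt (by omega) _) (zw_lt' (by omega))) (aw_lt (by omega) _)) (zw_lt' (by omega))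

theorem permL_aw (i : ℕ) (b : Bool) : permL (aw i b) = 1 := by
  simp [permL, aw]

theorem permL_zw (b : Bool) (ε : ℕ → Bool) (m : ℕ) : permL (zw b ε m) = 1 := by
  induction m with
  | zero => exact permL_aw 0 b
  | succ m ih =>
    show permL (aw (m + 1) (ε m) ++ zw b ε m ++ aw (m + 1) (!ε m)) = 1
    rw [permL_append, permL_append, permL_aw, permL_aw, ih]
    rfl

/-! ### relations -/

section
variable {A : Type} [AddCommGroup A] {k : ℕ} {m : Fin k → ℕ} {j : Fin k}

theorem at_eq (w : List (Bool × ℕ)) {c : Con (Fin k → FreeMonoid (Bool × ℕ))} : 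
    ((at_ j w : Fin k → FreeMonoid (Bool × ℕ)) : c.Quotient) = cl c j (FreeMonoid.ofList w) := rfl

/-- words of distant letters commute -/
theorem cl_comm {c : Con (Fin k → FreeMonoid (Bool × ℕ))} (hR : ∀ r ∈ RS m, c r.1 r.2) {i : ℕ} (b : Bool) 
    (hi : i + 1 < m j) {w : List (Bool × ℕ)} (hw : ∀ l ∈ w, l.2 + 1 < i) : 
    Commute (cl c j (FreeMonoid.ofList [(b, i)])) (cl c j (FreeMonoid.ofList w)) := by
  induction w with
  | nil => 
    show Commute _ (cl c j 1)
    rw [map_one]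
    exact Commute.one_right _
  | cons l w ih =>
    have h1 := ih fun x hx => hw x (List.mem_cons_of_mem _ hx)
    have h2 : l.2 + 1 < i := hw l List.mem_cons_self
    have e : l :: w = [l] ++ w := rfl
    rw [e, FreeMonoid.ofList_append, map_mul]
    refine Commute.mul_right ?_ h1
    have h3 := cl_loc hR (j := j) (Pool.Agent.Y466.FT.Loc.far l.1 b l.2 i (by omega) hi)
    have e1 : [(l.1, l.2), (b, i)] = [(l.1, l.2)] ++ [(b, i)] := rfl
    have e2 : [(b, i), (l.1, l.2)] = [(b, i)] ++ [(l.1, l.2)] := rfl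
    rw [e1, e2, FreeMonoid.ofList_append, FreeMonoid.ofList_append, map_mul, map_mul] at h3
    exact h3.symm

theorem cl_comm_aw {c : Con (Fin k → FreeMonoid (Bool × ℕ))} (hR : ∀ r ∈ RS m, c r.1 r.2) {i : ℕ} (b : Bool) 
    (hi : i + 1 < m j) {w : List (Bool × ℕ)} (hw : ∀ l ∈ w, l.2 + 1 < i) : 
    Commute (cl c j (FreeMonoid.ofList (aw i b))) (cl c j (FreeMonoid.ofList w)) := by
  have e : aw i b = [(b, i)] ++ [(b, i)] := rfl
  rw [e, FreeMonoid.ofList_append, map_mul]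
  exact (cl_comm hR b hi hw).mul_left (cl_comm hR b hi hw)

theorem cl_inv' {c : Con (Fin k → FreeMonoid (Bool × ℕ))} (hR : ∀ r ∈ RS m, c r.1 r.2) 
    {w : List (Bool × ℕ)} (hw : ∀ l ∈ w, l.2 + 1 < m j) : 
    cl c j (FreeMonoid.ofList w) * cl c j (FreeMonoid.ofList (invL w)) = 1 := by
  rw [← map_mul, ← FreeMonoid.ofList_append]
  exact Pool.Agent.Y466.FT.cl_inv hR hw

theorem lev_congr {a : ℕ} {w w' : List (Bool × ℕ)} (h : Lev A (RS m) (ES m) a (at_ j w)) 
    (e : ∀ c : Con (Fin k → FreeMonoid (Bool × ℕ)), (∀ r ∈ RS m, c r.1 r.2) → 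
      cl c j (FreeMonoid.ofList w') = cl c j (FreeMonoid.ofList w)) : 
    Lev A (RS m) (ES m) a (at_ j w') := by
  intro φ hφ n hd
  have h1 := h φ hφ n hd
  have h2 := cl_eq.1 (e (cphi φ) (fun r hr => hφ r hr))
  refine h1.congr fun p => ?_
  have h3 := h2 1 p
  rw [one_mul, one_mul] at h3
  unfold Tr
  show φ (Pi.mulSingle j (FreeMonoid.ofList w) * p) - φ p = φ (Pi.mulSingle j (FreeMonoid.ofList w') * p) - φ p
  rw [h3]

/-- **The level of the commutators** -/
theorem lev_xw (b : Bool) (ε : ℕ → Bool) (n : ℕ) : ∀ b' : Bool, n + 3 ≤ m j → 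
    Lev A (RS m) (ES m) (n + 2) (at_ j (xw b' b ε n)) := by
  induction n with
  | zero =>
    intro b' h
    rw [xw_eq]
    have e : 0 + 2 = 1 + 1 := rfl
    rw [e]
    exact Lev_comW (Lev_pure (aw_lt (by omega) _) (permL_aw _ _)) (Lev_pure (zw_lt' (by omega)) (permL_zw _ _ _)) 
      (aw_lt (by omega) _) (zw_lt' (by omega))
  | succ n ih =>
    intro b' h
    have h1 := ih (ε n) (by omega)
    have hl1 : ∀ l ∈ aw (n + 1 + 1) b', l.2 + 1 < m j := aw_lt (by omega) _
    have hl2 : ∀ l ∈ xw (ε n) b ε n, l.2 + 1 < m j := xw_lt (by omega)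
    have h2 : Lev A (RS m) (ES m) (1 + (n + 2)) (at_ j (com (aw (n + 1 + 1) b') (xw (ε n) b ε n))) := 
      Lev_comW (Lev_pure hl1 (permL_aw _ _)) h1 hl1 hl2
    have e : 1 + (n + 2) = n + 1 + 2 := by omega
    rw [e] at h2
    refine lev_congr h2 fun c hR => ?_
    have hz : ∀ b, ∀ l ∈ zw b ε n, l.2 + 1 < m j := fun b => zw_lt' (by omega)
    have ha : ∀ b, ∀ l ∈ aw (n + 1) b, l.2 + 1 < m j := fun b => aw_lt (by omega) b
    have ha' : ∀ b, ∀ l ∈ aw (n + 1 + 1) b, l.2 + 1 < m j := fun b => aw_lt (by omega) b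
    set cc := fun w : List (Bool × ℕ) => cl c j (FreeMonoid.ofList w) with hcc
    have app : ∀ x y, cc (x ++ y) = cc x * cc y := fun x y => by
      simp only [hcc]; rw [FreeMonoid.ofList_append, map_mul]
    have z1 : ∀ b, cc (zw b ε n) * cc (zw (!b) ε n) = 1 := fun b => by
      have := cl_inv' hR (j := j) (hz b)
      rwa [invL_zw] at this
    have a1 : ∀ b, cc (aw (n + 1) b) * cc (aw (n + 1) (!b)) = 1 := fun b => cl_inv' hR (j := j) (ha b)
    have a2 : ∀ b, cc (aw (n + 1 + 1) b) * cc (aw (n + 1 + 1) (!b)) = 1 := fun b => cl_inv' hR (j := j) (ha' b)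
    have cm : ∀ b'' b, cc (aw (n + 1 + 1) b'') * cc (zw b ε n) = cc (zw b ε n) * cc (aw (n + 1 + 1) b'') := 
      fun b'' b => cl_comm_aw hR (j := j) b'' (by omega) (zw_lt' (by omega))
    show cc (xw b' b ε (n + 1)) = cc (com (aw (n + 1 + 1) b') (xw (ε n) b ε n))
    have e1 : invL (xw (ε n) b ε n) = zw b ε n ++ aw (n + 1) (ε n) ++ zw (!b) ε n ++ aw (n + 1) (!ε n) := by
      rw [xw_eq, Pool.Agent.U963.JN.invL_com]
      unfold com
      rw [invL_zw, invL_aw]
    unfold com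
    rw [e1, invL_aw]
    simp only [xw, zw, app]
    have z1' := z1 b
    have z1'' := z1 (!b)
    rw [Bool.not_not] at z1''
    have c1 := cm (!b') (!b)
    generalize cc (aw (n + 1 + 1) b') = p at *
    generalize cc (aw (n + 1 + 1) (!b')) = p' at *
    generalize cc (aw (n + 1) (ε n)) = q at *
    generalize cc (aw (n + 1) (!ε n)) = q' at *
    generalize cc (zw b ε n) = z at *
    generalize cc (zw (!b) ε n) = z' at *
    -- `p (q z q') p' (q z' q') = p (q z q' z') p' (z q z' q')`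
    have e2 : p * (q * z * q' * z') * p' * (z * q * z' * q') = p * (q * z * q') * (z' * p') * z * (q * z' * q') := by
      simp only [mul_assoc]
    have e3 : p * (q * z * q' * z') * p' * (z * q * z' * q') = p * (q * z * q') * p' * (q * z' * q') := by
      rw [e2, ← c1]
      have : p * (q * z * q') * (p' * z') * z * (q * z' * q') = p * (q * z * q') * p' * (z' * z) * (q * z' * q') := by
        simp only [mul_assoc]
      rw [this, z1'', mul_one]
    rw [e3]

end

end Pool.Agent.U963.LN
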